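import Pool.Agent.H941.QH.Sing
import Pool.Agent.H941.QH.Bert
import Pool.Agent.H941.NC.Class

set_option autoImplicit false
set_option linter.unusedSectionVars false
set_option linter.unusedVariables false

/-! # Curves built from a curve with nodes and quasi-homogeneous points: the class -/

namespace Pool.Agent.H941.QH

open MvPolynomial Pool.Agent.Helper748.MC Pool.Agent.Helper748.TP Pool.Agent.H941.TF
  Pool.Agent.H941.SC Pool.Agent.H941.NC Pool.Agent.H941.ND Pool.Agent.W574.SM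
  Pool.Agent.W574.CN Pool.Agent.W574.MO Pool.Agent.W574.HS Pool.Agent.W574.LM
  Pool.Agent.H628R4.TP

/-- The curves `p = 0` and `q = 0` have at least `N` different common points. -/
def ManyPts (N : ℕ) (p q : MvPolynomial (Fin 3) ℂ) : Prop :=
  ∃ P : Fin N → Fin 3 → ℂ, (∀ b, P b ≠ 0 ∧ eval (P b) p = 0 ∧ eval (P b) q = 0) ∧
    ∀ b b', b ≠ b' → ∀ c : ℂ, P b ≠ c • P b'

/-- At each common point of the curves `p = 0` and `q = 0`, these two curves are smooth and
transversal (their gradients are linearly independent), or the point is a non-resonant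
quasi-homogeneous point of `f`. -/
def MeetQH (f p q : MvPolynomial (Fin 3) ℂ) : Prop :=
  ∀ z : Fin 3 → ℂ, z ≠ 0 → eval z p = 0 → eval z q = 0 →
    (∀ a b : ℂ, (∀ i, a * eval z (pderiv i p) + b * eval z (pderiv i q) = 0) → a = 0 ∧ b = 0) ∨
      QHAt f z

/-- **Forms whose curve is built from a curve with nodes and quasi-homogeneous points.**

The curve `f = 0` is the union of the curves `H = 0` and `g j = 0` (the form `H * ∏ g j` is
squarefree, it divides `f`, and `f` divides a power of it; the multiplicities of `f` are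
arbitrary), and `deg H ≥ 3`. Each singular point of the curve `H = 0` is an ordinary double point
of that curve (with no condition on the other components of `f` at this point), or a non-resonant
quasi-homogeneous point of `f`.

Each `g j` is irreducible with at least `3 deg (g j) + 1` different points on the union `D j` of
`H = 0` and the curves `g l = 0`, `l < j` (then there is no condition on its singularities), or it
meets `D j` only transversally or in non-resonant quasi-homogeneous points of `f`, where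
`deg (D j) ≥ 4` or `g j` is irreducible (again with no condition on the other singularities of
`g j`).

Finally `deg H ≥ 4` and all singular points of `H = 0` are ordinary double points, or the linear
vector fields which annihilate `f` have trace `0`. -/
def QuasiChain (f : MvPolynomial (Fin 3) ℂ) : Prop :=
  ∃ (r k e : ℕ) (n : Fin r → ℕ) (H : MvPolynomial (Fin 3) ℂ)
    (g : Fin r → MvPolynomial (Fin 3) ℂ),
    H.IsHomogeneous e ∧ (∀ j, (g j).IsHomogeneous (n j)) ∧ 3 ≤ e ∧
    Squarefree (H * ∏ j, g j) ∧ H * ∏ j, g j ∣ f ∧ f ∣ (H * ∏ j, g j) ^ k ∧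
    (∀ z : Fin 3 → ℂ, z ≠ 0 → eval z H = 0 → (∀ i, eval z (pderiv i H) = 0) →
      NodeAt H z ∨ QHAt f z) ∧
    ((4 ≤ e ∧ ∀ z : Fin 3 → ℂ, z ≠ 0 → eval z H = 0 → (∀ i, eval z (pderiv i H) = 0) →
      NodeAt H z) ∨ TrZero f) ∧
    ∀ j, (Irreducible (g j) ∧
        ManyPts (3 * n j + 1) (g j) (H * ∏ l ∈ Finset.univ.filter (· < j), g l)) ∨
      ((4 ≤ e + ∑ l ∈ Finset.univ.filter (· < j), n l ∨ Irreducible (g j)) ∧
        MeetQH f (g j) (H * ∏ l ∈ Finset.univ.filter (· < j), g l))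

theorem QuasiChain.ne {f : MvPolynomial (Fin 3) ℂ} (hf : QuasiChain f) : f ≠ 0 := by
  obtain ⟨r, k, e, n, H, g, hh, hg, he, hsq, hSf, hfS, -⟩ := hf
  rintro rfl
  exact pow_ne_zero k hsq.ne_zero (zero_dvd_iff.1 hfS)

theorem QuasiChain.deg {d : ℕ} {f : MvPolynomial (Fin 3) ℂ} (hf : f.IsHomogeneous d)
    (h : QuasiChain f) : 0 < d := by
  have hf0 := h.ne
  obtain ⟨r, k, e, n, H, g, hh, hg, he, hsq, hSf, hfS, -⟩ := h
  have h1 := totalDegree_le_of_dvd_of_isDomain hSf hf0
  have hS : (H * ∏ j, g j).IsHomogeneous (e + ∑ j, n j) :=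
    hh.mul (IsHomogeneous.prod _ _ _ fun j _ => hg j)
  rw [hS.totalDegree hsq.ne_zero, hf.totalDegree hf0] at h1
  omega

/-- These forms are not exact. -/
theorem not_exact {d : ℕ} {f : MvPolynomial (Fin 3) ℂ} (hf : f.IsHomogeneous d)
    (h : QuasiChain f) : ¬ Exact d f (-3 / d) := by
  classical
  have hd := h.deg hf
  obtain ⟨r, k, e, n, H, g, hh, hg, he, hsq, hSf, hfS, hpt, hfld, hchn⟩ := h
  have hS : (H * ∏ j, g j).IsHomogeneous (e + ∑ j, n j) :=
    hh.mul (IsHomogeneous.prod _ _ _ fun j _ => hg j)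
  obtain ⟨W, hW, hWH⟩ := good_dir hh (by omega) (hsq.of_mul_left)
  -- the points
  set J := {j : Fin r // ManyPts (3 * n j + 1) (g j)
    (H * ∏ l ∈ Finset.univ.filter (· < j), g l)} with hJ
  have hJP : ∀ j : J, ∃ P : Fin (3 * n j.1 + 1) → Fin 3 → ℂ,
    (∀ b, P b ≠ 0 ∧ eval (P b) (g j.1) = 0 ∧
      eval (P b) (H * ∏ l ∈ Finset.univ.filter (· < j.1), g l) = 0) ∧
    ∀ b b', b ≠ b' → ∀ c : ℂ, P b ≠ c • P b' := fun j => j.2
  choose P hP hPP using hJP
  obtain ⟨A, P', hA, hsep, hdeg, hAW, hAP, hP1, hPt⟩ := bert hS (by omega) hsq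
    (ι := Σ j : J, Fin (3 * n j.1 + 1)) (fun x => P x.1 x.2) (fun x => (hP x.1 x.2).1)
    (fun x => by
      rw [map_mul, map_prod (eval _) g, Finset.prod_eq_zero (Finset.mem_univ x.1.1)
        (hP x.1 x.2).2.1, mul_zero]) hW
  intro hE
  rw [map_mul, map_prod] at hsep hdeg
  -- the points in the new coordinates
  have hlin : ∀ (j : J) (b : Fin (3 * n j.1 + 1)) (p : MvPolynomial (Fin 3) ℂ) (m : ℕ),
      p.IsHomogeneous m → eval (P j b) p = 0 →
      eval ![P' ⟨j, b⟩ 0 / P' ⟨j, b⟩ 1, 1, P' ⟨j, b⟩ 2 / P' ⟨j, b⟩ 1] (lin A p) = 0 := by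
    intro j b p m hp h0
    have h1 : eval (P' ⟨j, b⟩) (lin A p) = 0 := by
      rw [eval_lin, hAP ⟨j, b⟩]
      exact h0
    have h2 := hP1 ⟨j, b⟩
    have h3 : P' ⟨j, b⟩ = fun i => P' ⟨j, b⟩ 1 *
        (![P' ⟨j, b⟩ 0 / P' ⟨j, b⟩ 1, 1, P' ⟨j, b⟩ 2 / P' ⟨j, b⟩ 1] : Fin 3 → ℂ) i := by
      funext i
      fin_cases i
      · simp [mul_div_cancel₀ _ h2]
      · simp
      · simp [mul_div_cancel₀ _ h2]
    rw [h3, eval_smul_pt (lin_homog A hp)] at h1
    exact (mul_eq_zero.1 h1).resolve_left (pow_ne_zero _ h2)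
  have hgood : ∀ z : Fin 3 → ℂ, z ≠ 0 → eval z (lin A H) = 0 →
      (∀ i, eval z (pderiv i (lin A H)) = 0) → NodeAt H (fun i => ∑ j, A i j * z j) →
      NodeAt (lin A H) z ∧ eval z (pderiv 2 (pderiv 2 (lin A H))) ≠ 0 := by
    intro z hz h0 hs hn
    rw [eval_lin] at h0
    refine ⟨node_lin hA hn, ?_⟩
    have h1 := hWH _ hAW _ (lin_vec_ne hA hz) h0 (sing_lin hA hs) hn
    rw [eval_hf] at h1
    rw [eval_hess_lin]
    intro h2
    apply h1
    rw [← h2]
    refine Finset.sum_congr rfl fun i _ => Finset.sum_congr rfl fun j _ => ?_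
    ring
  have hprod : ∀ j : Fin r, lin A (H * ∏ l ∈ Finset.univ.filter (· < j), g l) =
      lin A H * ∏ l ∈ Finset.univ.filter (· < j), lin A (g l) := fun j => by
    rw [map_mul, map_prod]
  refine QH.core (F := lin A f) (H := lin A H) (g := fun j => lin A (g j)) (K := k)
    (nn := n) (lin_homog A hf) hd (lin_homog A hh) (fun j => lin_homog A (hg j)) (by omega)
    (by omega) ?_ ?_ ?_ ?_ hsep hdeg ?_ (exact_lin hE A (isUnit_iff_ne_zero.2 hA))
  · rw [← map_prod, ← map_mul]
    exact map_dvd (lin A) hSf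
  · rw [← map_prod, ← map_mul, ← map_pow]
    exact map_dvd (lin A) hfS
  · intro z hz h0 hs
    have h0' := h0
    rw [eval_lin] at h0'
    rcases hpt _ (lin_vec_ne hA hz) h0' (sing_lin hA hs) with h | h
    · exact Or.inl (hgood z hz h0 hs h)
    · exact Or.inr (qh_lin hA h)
  · rcases hfld with ⟨he4, hn⟩ | ht
    · refine Or.inl ⟨he4, fun z hz h0 hs => ?_⟩
      have h0' := h0
      rw [eval_lin] at h0'
      exact hgood z hz h0 hs (hn _ (lin_vec_ne hA hz) h0' (sing_lin hA hs))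
    · exact Or.inr (tr_lin hA ht)
  · intro j
    rcases hchn j with ⟨hirr, hj⟩ | ⟨hdg, hm⟩
    · refine Or.inl ⟨irr_lin hA hirr,
        Finset.univ.image fun b => P' ⟨⟨j, hj⟩, b⟩ 0 / P' ⟨⟨j, hj⟩, b⟩ 1, ?_, ?_⟩
      · rw [Finset.card_image_of_injective, Finset.card_univ, Fintype.card_fin]
        · exact Nat.lt_succ_self _
        · intro b b' hbb
          by_contra hne
          exact hPt ⟨⟨j, hj⟩, b⟩ ⟨⟨j, hj⟩, b'⟩ (hPP ⟨j, hj⟩ b b' hne) hbb
      · intro t ht
        rw [Finset.mem_image] at ht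
        obtain ⟨b, -, rfl⟩ := ht
        refine ⟨P' ⟨⟨j, hj⟩, b⟩ 2 / P' ⟨⟨j, hj⟩, b⟩ 1,
          hlin ⟨j, hj⟩ b _ _ (hg j) (hP ⟨j, hj⟩ b).2.1, ?_⟩
        have h1 := hlin ⟨j, hj⟩ b _ _ (hh.mul
          (IsHomogeneous.prod (Finset.univ.filter (· < j)) _ _ fun j _ => hg j))
          (hP ⟨j, hj⟩ b).2.2
        rwa [hprod] at h1
    · refine Or.inr ⟨?_, fun z hz h0 h1 => ?_⟩
      · rcases hdg with h | h
        · exact Or.inl h
        · by_cases h4 : 4 ≤ e + ∑ l ∈ Finset.univ.filter (· < j), n l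
          · exact Or.inl h4
          · exact Or.inr ⟨by omega, irr_lin hA h⟩
      · rw [← hprod] at h1
        rw [eval_lin] at h0 h1
        rcases hm _ (lin_vec_ne hA hz) h0 h1 with h | h
        · left
          rw [← hprod]
          exact ind_lin hA h
        · exact Or.inr (qh_lin hA h)

end Pool.Agent.H941.QH
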