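import Pool.Agent.H941.QH.Pt

set_option autoImplicit false
set_option linter.unusedSectionVars false
set_option linter.unusedVariables false

/-! # Forms, in coordinates -/

namespace Pool.Agent.H941.QH

open MvPolynomial Pool.Agent.Helper748.MC Pool.Agent.Helper748.TP Pool.Agent.H941.TF
  Pool.Agent.H941.SC Pool.Agent.H941.NC Pool.Agent.H941.ND

theorem nod_aff {e : ℕ} {H : MvPolynomial (Fin 3) ℂ} (hH : H.IsHomogeneous e) (t x : ℂ)
    (hnod : NodeAt H ![t, 1, x]) (h22 : eval ![t, 1, x] (pderiv 2 (pderiv 2 H)) ≠ 0)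
    (a0 : eval ![t, 1, x] H = 0) (a1 : eval ![t, 1, x] (pderiv 0 H) = 0)
    (a2 : eval ![t, 1, x] (pderiv 2 H) = 0) :
    eval ![t, 1, x] (pderiv 2 (pderiv 2 H)) ≠ 0 ∧
    eval ![t, 1, x] (pderiv 0 (pderiv 2 H)) ^ 2 -
      eval ![t, 1, x] (pderiv 0 (pderiv 0 H)) * eval ![t, 1, x] (pderiv 2 (pderiv 2 H)) ≠ 0 := by
  have a3 := euler hH t x a0
  rw [a1, a2, mul_zero, mul_zero, zero_add, add_zero] at a3
  refine ⟨h22, fun hdet => ?_⟩
  have e0 := euler (hH.pderiv (i := 0)) t x a1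
  have e2 := euler (hH.pderiv (i := 2)) t x a2
  have c20 := congrArg (eval ![t, 1, x]) (pderiv_comm' (0 : Fin 3) 2 H)
  have c10 := congrArg (eval ![t, 1, x]) (pderiv_comm' (0 : Fin 3) 1 H)
  have c12 := congrArg (eval ![t, 1, x]) (pderiv_comm' (2 : Fin 3) 1 H)
  obtain ⟨c, hc⟩ := hnod
    ![eval ![t, 1, x] (pderiv 2 (pderiv 2 H)), 0, -eval ![t, 1, x] (pderiv 0 (pderiv 2 H))] (by
      intro i
      rw [Fin.sum_univ_three]
      fin_cases i
      · change eval ![t, 1, x] (pderiv 0 (pderiv 0 H)) * eval ![t, 1, x] (pderiv 2 (pderiv 2 H)) +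
          eval ![t, 1, x] (pderiv 0 (pderiv 1 H)) * 0 +
          eval ![t, 1, x] (pderiv 0 (pderiv 2 H)) * -eval ![t, 1, x] (pderiv 0 (pderiv 2 H)) = 0
        linear_combination -hdet
      · change eval ![t, 1, x] (pderiv 1 (pderiv 0 H)) * eval ![t, 1, x] (pderiv 2 (pderiv 2 H)) +
          eval ![t, 1, x] (pderiv 1 (pderiv 1 H)) * 0 +
          eval ![t, 1, x] (pderiv 1 (pderiv 2 H)) * -eval ![t, 1, x] (pderiv 0 (pderiv 2 H)) = 0
        linear_combination eval ![t, 1, x] (pderiv 2 (pderiv 2 H)) * e0 -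
          eval ![t, 1, x] (pderiv 0 (pderiv 2 H)) * e2 + t * hdet +
          x * eval ![t, 1, x] (pderiv 2 (pderiv 2 H)) * c20
      · change eval ![t, 1, x] (pderiv 2 (pderiv 0 H)) * eval ![t, 1, x] (pderiv 2 (pderiv 2 H)) +
          eval ![t, 1, x] (pderiv 2 (pderiv 1 H)) * 0 +
          eval ![t, 1, x] (pderiv 2 (pderiv 2 H)) * -eval ![t, 1, x] (pderiv 0 (pderiv 2 H)) = 0
        linear_combination (-eval ![t, 1, x] (pderiv 2 (pderiv 2 H))) * c20)
  have h1 := congrFun hc 1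
  have h0 := congrFun hc 0
  have hc0 : c = 0 := by
    have : (0 : ℂ) = c * 1 := h1
    linear_combination -this
  rw [hc0, zero_smul] at h0
  exact h22 h0

/-- **No primitive, in coordinates.** -/
theorem core {k d K e : ℕ} {nn : Fin k → ℕ} {F H : MvPolynomial (Fin 3) ℂ}
    {g : Fin k → MvPolynomial (Fin 3) ℂ} (hFh : F.IsHomogeneous d) (hd : 0 < d)
    (hh : H.IsHomogeneous e) (hg : ∀ j, (g j).IsHomogeneous (nn j))
    (he1 : 1 ≤ e) (he : 3 ≤ e + ∑ j, nn j)
    (hSF : H * ∏ j, g j ∣ F) (hFS : F ∣ (H * ∏ j, g j) ^ K)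
    (hpt : ∀ z : Fin 3 → ℂ, z ≠ 0 → eval z H = 0 → (∀ i, eval z (pderiv i H) = 0) →
      (NodeAt H z ∧ eval z (pderiv 2 (pderiv 2 H)) ≠ 0) ∨ QHAt F z)
    (hfld : (4 ≤ e ∧ ∀ z : Fin 3 → ℂ, z ≠ 0 → eval z H = 0 → (∀ i, eval z (pderiv i H) = 0) →
      NodeAt H z ∧ eval z (pderiv 2 (pderiv 2 H)) ≠ 0) ∨ TrZero F)
    (si : (aeval ![(1 : Polynomial ℂ), 0, Polynomial.X] (H * ∏ j, g j)).Separable)
    (ni : (aeval ![(1 : Polynomial ℂ), 0, Polynomial.X] (H * ∏ j, g j)).natDegree =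
      e + ∑ j, nn j)
    (hchn : ∀ j, (Irreducible (g j) ∧ ∃ τ : Finset ℂ, 3 * nn j < τ.card ∧
        ∀ t ∈ τ, ∃ x : ℂ, eval ![t, 1, x] (g j) = 0 ∧
          eval ![t, 1, x] (H * ∏ l ∈ Finset.univ.filter (· < j), g l) = 0) ∨
      ((4 ≤ e + ∑ l ∈ Finset.univ.filter (· < j), nn l ∨
        (e + ∑ l ∈ Finset.univ.filter (· < j), nn l = 3 ∧ Irreducible (g j))) ∧
        ∀ z : Fin 3 → ℂ, z ≠ 0 → eval z (g j) = 0 →
          eval z (H * ∏ l ∈ Finset.univ.filter (· < j), g l) = 0 →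
          (∀ a b : ℂ, (∀ i, a * eval z (pderiv i (g j)) + b * eval z (pderiv i
            (H * ∏ l ∈ Finset.univ.filter (· < j), g l)) = 0) → a = 0 ∧ b = 0) ∨ QHAt F z))
    (hE : Exact d F (-3 / d)) : False := by
  classical
  have hdc : (d : ℂ) ≠ 0 := Nat.cast_ne_zero.2 hd.ne'
  have hds : (d : ℂ) * (-3 / d) = -3 := by field_simp
  have hσ := neg3 hd
  set σ : ℝ := -3 / d with hσd
  have hsσ : (-3 / d : ℂ) = (σ : ℂ) := by
    rw [hσd]
    push_cast
    rfl
  set n := ∑ j, nn j with hnn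
  set S : MvPolynomial (Fin 3) ℂ := H * ∏ j, g j with hS
  have hShom : S.IsHomogeneous (e + n) :=
    hh.mul (IsHomogeneous.prod _ _ _ fun j _ => hg j)
  clear_value S
  have hS0 := ev_top hShom (by omega) ni
  have hh0 : eval ![0, 0, 1] H ≠ 0 := by
    intro h0
    apply hS0
    rw [hS, map_mul, h0, zero_mul]
  have hg0 : ∀ j, eval ![0, 0, 1] (g j) ≠ 0 := by
    intro j h0
    apply hS0
    rw [hS, map_mul, map_prod (eval _) g, Finset.prod_eq_zero (Finset.mem_univ j) h0, mul_zero]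
  rw [← aeval_sw, ← evt_ch] at si ni
  obtain ⟨v, hv⟩ := hFS
  have hF0 : eval ![0, 0, 1] F ≠ 0 := by
    intro h0
    have h2 := congrArg (eval ![0, 0, 1]) hv
    rw [map_pow, map_mul, h0, zero_mul] at h2
    exact pow_ne_zero K hS0 h2
  set c := (eval ![0, 0, 1] H)⁻¹ with hc
  set c' := fun j => (eval ![0, 0, 1] (g j))⁻¹ with hc'
  set cS := (eval ![0, 0, 1] S)⁻¹ with hcS
  have hcS0 : cS ≠ 0 := inv_ne_zero hS0
  have hcc : cS = c * ∏ j, c' j := by
    rw [hcS, hS, map_mul, map_prod, mul_inv, Finset.prod_inv_distrib]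
  set Φ : Polynomial (Polynomial ℂ) := kc c * ch H with hΦ
  set Γ : Fin k → Polynomial (Polynomial ℂ) := fun j => kc (c' j) * ch (g j) with hΓ
  have Φm : Φ.Monic ∧ Φ.natDegree = e := monic_ch hh hh0
  have Γm : ∀ j, (Γ j).Monic ∧ (Γ j).natDegree = nn j := fun j => monic_ch (hg j) (hg0 j)
  have iΦ' : Inf Φ (kc c * ch (sw H)) e := inf_ch hh hh0
  have iΓ : ∀ j, Inf (Γ j) (kc (c' j) * ch (sw (g j))) (nn j) := fun j => inf_ch (hg j) (hg0 j)
  have hQS : Φ * ∏ j, Γ j = kc cS * ch S := by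
    rw [hΦ, hΓ, ch_prod, hcc, kc_mul, hS, map_mul]
    ring
  have hFm : Φ.Monic := Φm.1
  have hΨm : (∏ j, Γ j).Monic := Polynomial.monic_prod_of_monic _ _ fun i _ => (Γm i).1
  have hFd : Φ.natDegree = e := Φm.2
  have hΨd : (∏ j, Γ j).natDegree = n := by
    rw [Polynomial.natDegree_prod_of_monic _ _ fun i _ => (Γm i).1]
    exact Finset.sum_congr rfl fun i _ => (Γm i).2
  have iΨ' := Inf_prod Finset.univ iΓ
  have hQm : (Φ * ∏ j, Γ j).Monic := hFm.mul hΨm
  have hQd : (Φ * ∏ j, Γ j).natDegree = e + n := by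
    rw [hFm.natDegree_mul hΨm, hFd, hΨd]
  have TQ : TD ((e + n : ℕ) : ℤ) (Φ * ∏ j, Γ j) := by
    rw [hQS]
    exact (TD_ch hShom).kc_mul _
  have hsi : (evt 0 ((kc c * ch (sw H)) * ∏ j, kc (c' j) * ch (sw (g j)))).Separable := by
    have h1 : (kc c * ch (sw H)) * ∏ j, kc (c' j) * ch (sw (g j)) =
        kc cS * ch (sw S) := by
      rw [ch_prod, hcc, kc_mul, hS, map_mul sw, map_mul ch, map_prod sw]
      ring
    rw [h1, map_mul, evt_kc]
    exact si.unit_mul (Polynomial.isUnit_C.2 hcS0.isUnit)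
  -- the discriminant
  have hdisc : ∃ (D0 : Polynomial ℂ) (α β : Polynomial (Polynomial ℂ)), D0 ≠ 0 ∧
      Polynomial.C D0 = α * (Φ * ∏ j, Γ j) +
        β * Polynomial.derivative (Φ * ∏ j, Γ j) := by
    obtain ⟨X', -, -, -, P⟩ := (iΦ'.mul iΨ').par hQm hQd (by omega) hsi
    obtain ⟨u, h1, h2⟩ := (P.root.and P.inj).exists
    refine disc' (t₀ := u⁻¹) hQm (by rw [hQd]; omega) ?_
    rw [h1, nod]
    exact Polynomial.separable_prod_X_sub_C_iff.2 h2
  obtain ⟨D0, α, β', hD0, hαβ⟩ := hdisc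
  -- the logarithmic derivatives
  have hprime : ∀ p, Prime p → p ∣ F → p ∣ S := fun p hp hpg =>
    hp.dvd_of_dvd_pow (hpg.trans ⟨v, hv⟩)
  obtain ⟨w2, hw2⟩ := log_dvd (g := F) (G := S) 2 hprime
  obtain ⟨w0, hw0⟩ := log_dvd (g := F) (G := S) 0 hprime
  have e2 := congrArg ch hw2
  have e0 := congrArg ch hw0
  rw [map_mul, map_mul, ch_pderiv2] at e2
  rw [map_mul, map_mul, ch_pderiv0] at e0
  have HxE : Polynomial.derivative (ch F) * (Φ * ∏ j, Γ j) = ch F * (kc cS * ch w2) := by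
    rw [hQS]
    linear_combination kc cS * e2
  have HtE : dt (ch F) * (Φ * ∏ j, Γ j) = ch F * (kc cS * ch w0) := by
    rw [hQS]
    linear_combination kc cS * e0
  have hcSi : (kc cS * kc cS⁻¹ : Polynomial (Polynomial ℂ)) = 1 := by
    rw [← kc_mul, mul_inv_cancel₀ hcS0, kc_one]
  have hQF : Φ * ∏ j, Γ j ∣ ch F := by
    obtain ⟨y, hy⟩ := hSF
    refine ⟨kc cS⁻¹ * ch y, ?_⟩
    rw [hQS, hy, map_mul]
    linear_combination (-(ch S * ch y)) * hcSi
  have hFQ : ch F ∣ (Φ * ∏ j, Γ j) ^ K := by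
    refine ⟨kc cS ^ K * ch v, ?_⟩
    have h2 := congrArg ch hv
    rw [map_pow, map_mul] at h2
    rw [hQS, mul_pow]
    linear_combination kc cS ^ K * h2
  set hxQ := kc cS * ch w2 with hhx
  set htQ := kc cS * ch w0 with hht
  obtain ⟨Fd, Fc⟩ := ch_top hFh
  have hFδ : (ch F).natDegree = d := by
    refine le_antisymm Fd (Polynomial.le_natDegree_of_ne_zero ?_)
    rw [Fc]
    exact Polynomial.C_ne_zero.2 hF0
  have hchF0 : ch F ≠ 0 := by
    intro h
    rw [h, Polynomial.natDegree_zero] at hFδ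
    omega
  obtain ⟨hxn, hxlc⟩ := lead_h hchF0 HxE hQd (by omega) hFδ (by omega)
  have hQN : (Φ * ∏ j, Γ j).coeff (e + n) = 1 := by
    rw [← hQd]
    exact hQm
  rw [hQN, mul_one] at hxlc
  have hxlc' : hxQ.coeff (e + n - 1) = Polynomial.C (d : ℂ) := by
    rw [hxlc]
    simp
  have htn : htQ.natDegree ≤ e + n - 1 := htd_aux hchF0 hQm hQd (by omega) hFδ Fc HtE
  -- the equation
  obtain ⟨K', P, R, hPh, hRh, hP0, hEq⟩ := exact_two' hFh hds hE
  have hX1 : ch (X 1) = 1 := by simp [ch]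
  have hEq' := congrArg ch hEq
  rw [map_mul, map_add, map_mul, map_mul, map_add, map_add, map_mul, map_mul, map_pow, ch_C,
    ch_pderiv0, ch_pderiv0, ch_pderiv2, ch_pderiv2, hX1, one_mul] at hEq'
  have hPd : (ch P).natDegree ≤ d * K' + 1 := by
    obtain ⟨a1, a2⟩ := ch_top hPh
    rw [hP0, Polynomial.C_0] at a2
    exact natDegree_le_pred (n := d * K' + 1) a1 a2
  have hRd : (ch R).natDegree ≤ d * K' + 2 := (ch_top hRh).1
  have hs : ∀ K m : ℕ, (σ : ℂ) * ((m : ℂ) + 1) - K ≠ 0 := by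
    intro K m h
    have h2 : ((σ * (m + 1) - K : ℝ) : ℂ) = 0 := by
      push_cast
      exact h
    have h3 : (σ * (m + 1) - K : ℝ) = 0 := by exact_mod_cast h2
    have h4 : (0 : ℝ) ≤ K := Nat.cast_nonneg _
    have h5 : (0 : ℝ) ≤ m := Nat.cast_nonneg _
    nlinarith
  have hσdr : σ * d = -3 := by
    rw [hσd]
    have : (d : ℝ) ≠ 0 := by exact_mod_cast hd.ne'
    field_simp
  have hlc3 : (kc (σ : ℂ) * hxQ).coeff (e + n - 1) = -3 := by
    rw [kc, Polynomial.coeff_C_mul, hxlc', ← Polynomial.C_mul]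
    have h1 : (σ : ℂ) * d = -3 := by
      have : ((σ * d : ℝ) : ℂ) = ((-3 : ℝ) : ℂ) := by rw [hσdr]
      push_cast at this
      exact this
    rw [h1, Polynomial.C_neg, map_ofNat (Polynomial.C : ℂ →+* Polynomial ℂ) 3]
  rw [hsσ] at hEq'
  obtain ⟨dd, p, r, q, DD⟩ := dat hchF0 hQm HxE HtE hFQ hQF hQd (by omega) hxn htn
    ⟨D0, α, β', hD0, hαβ⟩ hs hFδ hPd hRd hlc3 hEq'
  -- the curves
  have hDr : ∀ t ∉ D0.roots.toFinset, D0.eval t ≠ 0 := by
    intro t ht h
    rw [Multiset.mem_toFinset, Polynomial.mem_roots hD0] at ht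
    exact ht h
  have hci : c ≠ 0 := inv_ne_zero hh0
  have hcj : ∀ j, c' j ≠ 0 := fun j => inv_ne_zero (hg0 j)
  have v0 : ∀ t x, ev2 Φ t x = c * eval ![t, 1, x] H := fun t x => by
    rw [hΦ, ev2_mul, ev2_kc, ev_ch]
  have v1 : ∀ t x, ev2 (dt Φ) t x = c * eval ![t, 1, x] (pderiv 0 H) := fun t x => by
    rw [hΦ, dt_kc, ← ch_pderiv0, ev2_mul, ev2_kc, ev_ch]
  have v2 : ∀ t x, ev2 (Polynomial.derivative Φ) t x = c * eval ![t, 1, x] (pderiv 2 H) :=
    fun t x => by rw [hΦ, der_kc, ← ch_pderiv2, ev2_mul, ev2_kc, ev_ch]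
  have v00 : ∀ t x, ev2 (dt (dt Φ)) t x = c * eval ![t, 1, x] (pderiv 0 (pderiv 0 H)) :=
    fun t x => by rw [hΦ, dt_kc, dt_kc, ← ch_pderiv0, ← ch_pderiv0, ev2_mul, ev2_kc, ev_ch]
  have v02 : ∀ t x, ev2 (dt (Polynomial.derivative Φ)) t x =
      c * eval ![t, 1, x] (pderiv 0 (pderiv 2 H)) :=
    fun t x => by rw [hΦ, der_kc, dt_kc, ← ch_pderiv2, ← ch_pderiv0, ev2_mul, ev2_kc, ev_ch]
  have v22 : ∀ t x, ev2 (Polynomial.derivative (Polynomial.derivative Φ)) t x =
      c * eval ![t, 1, x] (pderiv 2 (pderiv 2 H)) :=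
    fun t x => by rw [hΦ, der_kc, der_kc, ← ch_pderiv2, ← ch_pderiv2, ev2_mul, ev2_kc, ev_ch]
  have v3 : ∀ j t x, ev2 (Γ j) t x = c' j * eval ![t, 1, x] (g j) := fun j t x => by
    rw [hΓ]
    beta_reduce
    rw [ev2_mul, ev2_kc, ev_ch]
  have hsing : ∀ t x, ev2 Φ t x = 0 → ev2 (dt Φ) t x = 0 → ev2 (Polynomial.derivative Φ) t x = 0 →
      eval ![t, 1, x] H = 0 ∧ ∀ i, eval ![t, 1, x] (pderiv i H) = 0 := by
    intro t x a1 a2 a3
    rw [v0] at a1
    rw [v1] at a2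
    rw [v2] at a3
    have k1 := (mul_eq_zero.1 a1).resolve_left hci
    have k2 := (mul_eq_zero.1 a2).resolve_left hci
    have k3 := (mul_eq_zero.1 a3).resolve_left hci
    refine ⟨k1, fun i => ?_⟩
    have k4 := euler hh t x k1
    rw [k2, k3, mul_zero, mul_zero, zero_add, add_zero] at k4
    fin_cases i
    · exact k2
    · exact k4
    · exact k3
  have hnode : ∀ t x, eval ![t, 1, x] H = 0 → (∀ i, eval ![t, 1, x] (pderiv i H) = 0) →
      (NodeAt H ![t, 1, x] ∧ eval ![t, 1, x] (pderiv 2 (pderiv 2 H)) ≠ 0) →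
      ev2 (Polynomial.derivative (Polynomial.derivative Φ)) t x ≠ 0 ∧
        ev2 (dt (Polynomial.derivative Φ)) t x ^ 2 -
          ev2 (dt (dt Φ)) t x * ev2 (Polynomial.derivative (Polynomial.derivative Φ)) t x ≠ 0 := by
    intro t x a1 a2 a3
    obtain ⟨n1, n2⟩ := nod_aff hh t x a3.1 a3.2 a1 (a2 0) (a2 2)
    rw [v00, v02, v22]
    refine ⟨mul_ne_zero hci n1, fun h => ?_⟩
    refine mul_ne_zero (pow_ne_zero 2 hci) n2 ?_
    linear_combination h
  have hΓirr : ∀ j, Irreducible (g j) → Irreducible (Γ j) := by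
    intro j hirr
    have hu : IsUnit (kc (c' j) : Polynomial (Polynomial ℂ)) := by
      rw [kc]
      exact ((isUnit_iff_ne_zero.2 (hcj j)).map Polynomial.C).map Polynomial.C
    have h1 : ¬ IsUnit (ch (g j)) := by
      intro h1
      have h2 : IsUnit (Γ j) := hu.mul h1
      have h3 := (Γm j).1.isUnit_iff.1 h2
      have h4 := (Γm j).2
      rw [h3, Polynomial.natDegree_one] at h4
      have := irr_pos (hg j) hirr
      omega
    exact (irreducible_isUnit_mul hu).2 (irr_ch (hg j) hirr h1)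
  have hQsi : (evt 0 (kc cS * ch (sw S))).Separable := by
    rw [map_mul, evt_kc]
    exact si.unit_mul (Polynomial.isUnit_C.2 hcS0.isUnit)
  have hTF : TD (e : ℤ) Φ := by
    rw [hΦ]
    exact (TD_ch hh).kc_mul _
  have hTΓ : ∀ j, TD (nn j : ℤ) (Γ j) := by
    intro j
    rw [hΓ]
    exact (TD_ch (hg j)).kc_mul _
  have hσc : (σ : ℂ) * d = -3 := by
    have : ((σ * d : ℝ) : ℂ) = ((-3 : ℝ) : ℂ) := by rw [hσdr]
    push_cast at this
    exact this
  have hAj : ∀ j, Φ * ∏ l ∈ Finset.univ.filter (· < j), Γ l =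
      kc (c * ∏ l ∈ Finset.univ.filter (· < j), c' l) *
        ch (H * ∏ l ∈ Finset.univ.filter (· < j), g l) := by
    intro j
    rw [hΦ, hΓ, ch_prod, kc_mul, map_mul]
    ring
  have hcA : ∀ j : Fin k, c * ∏ l ∈ Finset.univ.filter (· < j), c' l ≠ 0 := fun j =>
    mul_ne_zero hci (Finset.prod_ne_zero_iff.2 fun l _ => hcj l)
  refine QH.main (Γ := Γ) (nn := nn) hFm he1 he hσ hD0 hαβ hFd TQ iΦ' iΓ rfl hsi hTF hTΓ
    (fun j => (Γm j).1) ?_ DD rfl hFQ hxlc' hσdr ?_ ?_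
  · intro j
    rcases hchn j with ⟨hirr, τ, hτ, hτ0⟩ | ⟨hdeg, hmeet⟩
    · refine Or.inl ⟨hΓirr j hirr, τ, hτ, fun t ht => ?_⟩
      obtain ⟨x, hx1, hx2⟩ := hτ0 t ht
      refine ⟨x, by rw [v3, hx1, mul_zero], ?_⟩
      rw [hAj, ev2_mul, ev_ch, hx2, mul_zero]
    · refine Or.inr ⟨hdeg.imp_right fun h => ⟨h.1, hΓirr j h.2⟩, fun t x k1 k2 => ?_⟩
      rw [v3] at k1
      rw [hAj, ev2_mul, ev2_kc, ev_ch] at k2
      have k3 := (mul_eq_zero.1 k1).resolve_left (hcj j)
      have k4 := (mul_eq_zero.1 k2).resolve_left (hcA j)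
      rcases hmeet _ (pt_ne t x) k3 k4 with hind | hq
      · left
        set G := H * ∏ l ∈ Finset.univ.filter (· < j), g l with hG
        have e1 : ev2 (dt (Φ * ∏ l ∈ Finset.univ.filter (· < j), Γ l)) t x =
            (c * ∏ l ∈ Finset.univ.filter (· < j), c' l) * eval ![t, 1, x] (pderiv 0 G) := by
          rw [hAj, dt_kc, ← ch_pderiv0, ev2_mul, ev2_kc, ev_ch]
        have e2 : ev2 (Polynomial.derivative (Φ * ∏ l ∈ Finset.univ.filter (· < j), Γ l)) t x =
            (c * ∏ l ∈ Finset.univ.filter (· < j), c' l) * eval ![t, 1, x] (pderiv 2 G) := by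
          rw [hAj, der_kc, ← ch_pderiv2, ev2_mul, ev2_kc, ev_ch]
        have e3 : ev2 (dt (Γ j)) t x = c' j * eval ![t, 1, x] (pderiv 0 (g j)) := by
          rw [hΓ]
          beta_reduce
          rw [dt_kc, ← ch_pderiv0, ev2_mul, ev2_kc, ev_ch]
        have e4 : ev2 (Polynomial.derivative (Γ j)) t x =
            c' j * eval ![t, 1, x] (pderiv 2 (g j)) := by
          rw [hΓ]
          beta_reduce
          rw [der_kc, ← ch_pderiv2, ev2_mul, ev2_kc, ev_ch]
        rw [e1, e2, e3, e4]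
        intro h0
        have h1 : eval ![t, 1, x] (pderiv 0 G) * eval ![t, 1, x] (pderiv 2 (g j)) -
            eval ![t, 1, x] (pderiv 2 G) * eval ![t, 1, x] (pderiv 0 (g j)) = 0 := by
          refine (mul_eq_zero.1 ?_).resolve_left (mul_ne_zero (hcA j) (hcj j))
          linear_combination h0
        have hGh : G.IsHomogeneous (e + ∑ l ∈ Finset.univ.filter (· < j), nn l) :=
          hh.mul (IsHomogeneous.prod _ _ _ fun j _ => hg j)
        have u1 := euler hGh t x k4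
        have u2 := euler (hg j) t x k3
        by_cases hz : eval ![t, 1, x] (pderiv 0 G) = 0 ∧ eval ![t, 1, x] (pderiv 2 G) = 0
        · rw [hz.1, hz.2, mul_zero, mul_zero, zero_add, add_zero] at u1
          obtain ⟨-, h2⟩ := hind 0 1 (by
            intro i
            rw [zero_mul, zero_add, one_mul]
            fin_cases i
            · exact hz.1
            · exact u1
            · exact hz.2)
          exact one_ne_zero h2
        · rw [not_and_or] at hz
          rcases hz with hz | hz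
          · obtain ⟨h2, -⟩ := hind (eval ![t, 1, x] (pderiv 0 G))
              (-eval ![t, 1, x] (pderiv 0 (g j))) (by
                intro i
                fin_cases i
                · change eval ![t, 1, x] (pderiv 0 G) * eval ![t, 1, x] (pderiv 0 (g j)) +
                    -eval ![t, 1, x] (pderiv 0 (g j)) * eval ![t, 1, x] (pderiv 0 G) = 0
                  ring
                · change eval ![t, 1, x] (pderiv 0 G) * eval ![t, 1, x] (pderiv 1 (g j)) +
                    -eval ![t, 1, x] (pderiv 0 (g j)) * eval ![t, 1, x] (pderiv 1 G) = 0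
                  linear_combination eval ![t, 1, x] (pderiv 0 G) * u2 -
                    eval ![t, 1, x] (pderiv 0 (g j)) * u1 - x * h1
                · change eval ![t, 1, x] (pderiv 0 G) * eval ![t, 1, x] (pderiv 2 (g j)) +
                    -eval ![t, 1, x] (pderiv 0 (g j)) * eval ![t, 1, x] (pderiv 2 G) = 0
                  linear_combination h1)
            exact hz h2
          · obtain ⟨h2, -⟩ := hind (eval ![t, 1, x] (pderiv 2 G))
              (-eval ![t, 1, x] (pderiv 2 (g j))) (by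
                intro i
                fin_cases i
                · change eval ![t, 1, x] (pderiv 2 G) * eval ![t, 1, x] (pderiv 0 (g j)) +
                    -eval ![t, 1, x] (pderiv 2 (g j)) * eval ![t, 1, x] (pderiv 0 G) = 0
                  linear_combination -h1
                · change eval ![t, 1, x] (pderiv 2 G) * eval ![t, 1, x] (pderiv 1 (g j)) +
                    -eval ![t, 1, x] (pderiv 2 (g j)) * eval ![t, 1, x] (pderiv 1 G) = 0
                  linear_combination eval ![t, 1, x] (pderiv 2 G) * u2 -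
                    eval ![t, 1, x] (pderiv 2 (g j)) * u1 + t * h1
                · change eval ![t, 1, x] (pderiv 2 G) * eval ![t, 1, x] (pderiv 2 (g j)) +
                    -eval ![t, 1, x] (pderiv 2 (g j)) * eval ![t, 1, x] (pderiv 2 G) = 0
                  ring)
            exact hz h2
      · right
        exact qp_of hFh hchF0 hq hσc HxE HtE
  · intro t x a1 a2 a3
    obtain ⟨k1, k2⟩ := hsing t x a1 a2 a3
    rcases hpt _ (pt_ne t x) k1 k2 with h | h
    · exact Or.inl (hnode t x k1 k2 h)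
    · exact Or.inr (qp_of hFh hchF0 h hσc HxE HtE)
  · intro a6 c6 k1 k2 k3 k4 k5
    rcases hfld with ⟨he4, hnod⟩ | hnf
    · have SS : Nod Φ D0.roots.toFinset := by
        refine ⟨Φm.1, fun t ht => (sep_of_disc hαβ (hDr t ht)).of_dvd (map_dvd (evt t) ⟨_, rfl⟩),
          fun t x a1 a2 a3 => ?_⟩
        obtain ⟨m1, m2⟩ := hsing t x a1 a2 a3
        exact hnode t x m1 m2 (hnod _ (pt_ne t x) m1 m2)
      obtain ⟨r1, r2⟩ := fin_nod SS he4 hD0 hQm hQd hFd hαβ iΦ' iΨ' hsi (fun b => by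
        obtain ⟨m, a, L, hm, ha, P, -⟩ := fin_pt2 DD (by omega) hσ hFQ hD0 hαβ b
        exact ⟨m, a, hm, ha, P⟩) k1 k2 k3 k4
      rw [r1, r2, dt_zero, Polynomial.derivative_zero, add_zero, mul_zero, mul_zero, mul_zero,
        add_zero, add_zero] at k5
      exact hQm.ne_zero k5
    · rw [hQS] at k1 k5 HxE HtE
      exact fin_lin hShom (by omega) hS0 hFh hd hchF0 hnf hσc HxE HtE hQsi k1 k2 k3 k4 k5

end Pool.Agent.H941.QH
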