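import Pool.Agent.H941.QH.Fin
import Pool.Agent.H941.NC.Core
import Pool.Agent.H941.NC.Irr

set_option autoImplicit false
set_option linter.unusedSectionVars false
set_option linter.unusedVariables false

/-! # Linear vector fields -/

namespace Pool.Agent.H941.QH

open MvPolynomial Pool.Agent.Helper748.MC Pool.Agent.Helper748.TP Pool.Agent.H941.TF
  Pool.Agent.H941.SC Pool.Agent.H941.NC Pool.Agent.H941.ND

theorem ev2_ext {P Q : Polynomial (Polynomial ℂ)} (h : ∀ t x, ev2 P t x = ev2 Q t x) : P = Q := by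
  ext1 n
  refine Polynomial.funext fun t => ?_
  have h1 : evt t P = evt t Q := Polynomial.funext fun x => h t x
  rw [← TF.coeff_evt, ← TF.coeff_evt, h1]

/-- A linear vector field `∑ (B z) i ∂ i` which annihilates the form has trace `0`. -/
def TrZero (f : MvPolynomial (Fin 3) ℂ) : Prop :=
  ∀ B : Matrix (Fin 3) (Fin 3) ℂ, ∑ i, (∑ j, C (B i j) * X j) * pderiv i f = 0 → B.trace = 0

theorem lf_homog {N : ℕ} {S : MvPolynomial (Fin 3) ℂ} (hS : S.IsHomogeneous N) (hN : 1 ≤ N)
    (B : Matrix (Fin 3) (Fin 3) ℂ) :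
    (∑ i, (∑ j, C (B i j) * X j) * pderiv i S).IsHomogeneous N := by
  refine IsHomogeneous.sum _ _ _ fun i _ => ?_
  have h1 : (∑ j, C (B i j) * X j : MvPolynomial (Fin 3) ℂ).IsHomogeneous 1 := by
    refine IsHomogeneous.sum _ _ _ fun j _ => ?_
    have h := (isHomogeneous_C (Fin 3) (B i j)).mul (isHomogeneous_X ℂ j)
    rwa [zero_add] at h
  have h2 := h1.mul (hS.pderiv (i := i))
  rwa [show 1 + (N - 1) = N by omega] at h2

/-- the vector fields of the affine part -/
theorem fin_lin {S F : MvPolynomial (Fin 3) ℂ} {N d : ℕ} (hS : S.IsHomogeneous N) (hN : 3 ≤ N)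
    (hS0 : eval ![0, 0, 1] S ≠ 0) (hF : F.IsHomogeneous d) (hd : 0 < d) (hF0 : ch F ≠ 0)
    (nf : TrZero F) {σ : ℂ} (hσ : σ * d = -3) {hxQ htQ : Polynomial (Polynomial ℂ)}
    (HxE : Polynomial.derivative (ch F) * (kc (eval ![0, 0, 1] S)⁻¹ * ch S) = ch F * hxQ)
    (HtE : dt (ch F) * (kc (eval ![0, 0, 1] S)⁻¹ * ch S) = ch F * htQ)
    (hs : (evt 0 (kc (eval ![0, 0, 1] S)⁻¹ * ch (sw S))).Separable)
    {a c : Polynomial (Polynomial ℂ)}
    (htan : kc (eval ![0, 0, 1] S)⁻¹ * ch S ∣ dt (kc (eval ![0, 0, 1] S)⁻¹ * ch S) * a +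
      Polynomial.derivative (kc (eval ![0, 0, 1] S)⁻¹ * ch S) * c)
    (ha : a.natDegree ≤ 1) (hc : c.natDegree ≤ 2) (TA : TD 2 a)
    (h3 : kc (eval ![0, 0, 1] S)⁻¹ * ch S = kc (eval ![0, 0, 1] S)⁻¹ * ch S *
      (dt a + Polynomial.derivative c) + kc σ * htQ * a + kc σ * hxQ * c) : False := by
  obtain ⟨Qm, Qd⟩ := monic_ch hS hS0
  obtain ⟨TC, s1, s2, s3⟩ := lin_shape (inf_ch hS hS0) Qm Qd hN hs htan ha hc TA
  have hc0 : (eval ![0, 0, 1] S)⁻¹ ≠ 0 := inv_ne_zero hS0
  have hX0 : ch (X 0) = Polynomial.C Polynomial.X := by simp [ch]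
  have hX1 : ch (X 1) = 1 := by simp [ch]
  have hX2 : ch (X 2) = Polynomial.X := by simp [ch]
  have ha2 : (a.coeff 2).coeff 0 = 0 := by
    have : a.coeff 2 = 0 := Polynomial.coeff_eq_zero_of_natDegree_lt (by omega)
    rw [this, Polynomial.coeff_zero]
  set a00 := (a.coeff 0).coeff 0 with e1
  set a01 := (a.coeff 0).coeff 1 with e2
  set a02 := (a.coeff 0).coeff 2 with e3
  set a10 := (a.coeff 1).coeff 0 with e4
  set a11 := (a.coeff 1).coeff 1 with e5
  set c00 := (c.coeff 0).coeff 0 with e6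
  set c01 := (c.coeff 0).coeff 1 with e7
  set c10 := (c.coeff 1).coeff 0 with e8
  set T0 : MvPolynomial (Fin 3) ℂ := C a01 * X 0 + C a00 * X 1 + C a10 * X 2 with hT0
  set T1 : MvPolynomial (Fin 3) ℂ := C (-a02) * X 0 + C 0 * X 1 + C (-a11) * X 2 with hT1
  set T2 : MvPolynomial (Fin 3) ℂ := C c01 * X 0 + C c00 * X 1 + C c10 * X 2 with hT2
  have hev : ∀ p q r t x, ev2 (ch (C p * X 0 + C q * X 1 + C r * X 2)) t x =
      p * t + q + r * x := by
    intro p q r t x
    rw [ev_ch]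
    simp
  have eA : a = ch T0 - Polynomial.C Polynomial.X * ch T1 := by
    refine ev2_ext fun t x => ?_
    rw [ev2_quad TA, ev2_sub, ev2_mul, hT0, hT1, hev, hev, ev2_C, Polynomial.eval_X, ← e1, ← e2,
      ← e3, ← e4, ← e5, ha2]
    ring
  have eC : c = ch T2 - Polynomial.X * ch T1 := by
    refine ev2_ext fun t x => ?_
    rw [ev2_quad TC, ev2_sub, ev2_mul, hT2, hT1, hev, hev, ev2_X, ← e6, ← e7, ← e8, s1, s2, s3]
    ring
  set B : Matrix (Fin 3) (Fin 3) ℂ := !![a01, a00, a10; -a02, 0, -a11; c01, c00, c10] with hB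
  have hlf : (∑ i, (∑ j, C (B i j) * X j) * pderiv i F) =
      T0 * pderiv 0 F + T1 * pderiv 1 F + T2 * pderiv 2 F := by
    rw [Fin.sum_univ_three, Fin.sum_univ_three, Fin.sum_univ_three, Fin.sum_univ_three]
    rfl
  -- the Euler relation
  have hEu := congrArg ch hF.sum_X_mul_pderiv
  rw [Fin.sum_univ_three, nsmul_eq_mul, map_add, map_add, map_mul, map_mul, map_mul, map_mul, hX0,
    hX1, hX2, one_mul, ch_pderiv0, ch_pderiv2, map_natCast] at hEu
  have hch : ch (∑ i, (∑ j, C (B i j) * X j) * pderiv i F) =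
      (a * dt (ch F) + c * Polynomial.derivative (ch F)) + (d : Polynomial (Polynomial ℂ)) *
        ch T1 * ch F := by
    rw [hlf, map_add, map_add, map_mul, map_mul, map_mul, ch_pderiv0, ch_pderiv2, eA, eC]
    linear_combination ch T1 * hEu
  -- the divergence
  have hT1 : ch T1 = -(kc a02 * Polynomial.C Polynomial.X) - kc a11 * Polynomial.X := by
    rw [hT1, map_add, map_add, map_mul, map_mul, map_mul, hX0, hX1, hX2, ch_C, ch_C, ch_C,
      show (kc (-a02) : Polynomial (Polynomial ℂ)) = -kc a02 by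
        rw [kc, kc, Polynomial.C_neg, Polynomial.C_neg],
      show (kc (-a11) : Polynomial (Polynomial ℂ)) = -kc a11 by
        rw [kc, kc, Polynomial.C_neg, Polynomial.C_neg],
      show (kc 0 : Polynomial (Polynomial ℂ)) = 0 by rw [kc, Polynomial.C_0, Polynomial.C_0]]
    ring
  have hT0' : ch T0 = kc a01 * Polynomial.C Polynomial.X + kc a00 + kc a10 * Polynomial.X := by
    rw [hT0, map_add, map_add, map_mul, map_mul, map_mul, hX0, hX1, hX2, ch_C, ch_C, ch_C, mul_one]
  have hT2' : ch T2 = kc c01 * Polynomial.C Polynomial.X + kc c00 + kc c10 * Polynomial.X := by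
    rw [hT2, map_add, map_add, map_mul, map_mul, map_mul, hX0, hX1, hX2, ch_C, ch_C, ch_C, mul_one]
  have dkc : ∀ r : ℂ, dt (kc r : Polynomial (Polynomial ℂ)) = 0 := by
    intro r
    rw [kc, dt_C, Polynomial.derivative_C, Polynomial.C_0]
  have dkx : ∀ r : ℂ, Polynomial.derivative (kc r : Polynomial (Polynomial ℂ)) = 0 := by
    intro r
    rw [kc, Polynomial.derivative_C]
  have dX0 : dt (Polynomial.C Polynomial.X : Polynomial (Polynomial ℂ)) = 1 := by
    rw [dt_C, Polynomial.derivative_X, Polynomial.C_1]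
  have dX2 : dt (Polynomial.X : Polynomial (Polynomial ℂ)) = 0 := by
    have := dtξ 0
    rw [Polynomial.C_0, Polynomial.C_0, sub_zero] at this
    exact this
  have hdiv : dt a + Polynomial.derivative c = kc a01 + kc c10 - 3 * ch T1 := by
    rw [eA, eC, hT0', hT2', hT1]
    simp only [dt_sub, dt_add, dt_mul, Polynomial.derivative_sub, Polynomial.derivative_add,
      Polynomial.derivative_mul, dt_kc, der_kc, dkc, dkx, dX0, dX2, Polynomial.derivative_C,
      Polynomial.derivative_X, Polynomial.derivative_neg]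
    have e9 : dt (-(kc a02 * Polynomial.C Polynomial.X) : Polynomial (Polynomial ℂ)) =
        -kc a02 := by
      rw [← zero_sub, dt_sub, dt_kc, dX0, dt_zero]
      ring
    rw [e9]
    ring
  have hc00 : (kc (eval ![0, 0, 1] S)⁻¹ * ch S : Polynomial (Polynomial ℂ)) ≠ 0 := Qm.ne_zero
  have hstar : kc σ * (dt (ch F) * a + Polynomial.derivative (ch F) * c) =
      ch F * (1 - kc a01 - kc c10 + 3 * ch T1) := by
    rw [hdiv] at h3
    refine mul_left_cancel₀ hc00 ?_
    linear_combination kc σ * a * HtE + kc σ * c * HxE - ch F * h3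
  have hσ0 : σ ≠ 0 := by
    rintro rfl
    rw [zero_mul] at hσ
    norm_num at hσ
  have hdc : (d : ℂ) ≠ 0 := Nat.cast_ne_zero.2 hd.ne'
  have hkd : (kc σ * (d : Polynomial (Polynomial ℂ))) = -3 := by
    have h1 : (d : Polynomial (Polynomial ℂ)) = kc (d : ℂ) := by simp [kc]
    rw [h1, ← kc_mul, hσ, kc, Polynomial.C_neg, Polynomial.C_neg,
      map_ofNat (Polynomial.C : ℂ →+* Polynomial ℂ) 3,
      map_ofNat (Polynomial.C : Polynomial ℂ →+* Polynomial (Polynomial ℂ)) 3]
  have h4 : (∑ i, (∑ j, C (B i j) * X j) * pderiv i F) = C ((1 - a01 - c10) / σ) * F := by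
    refine ch_inj (lf_homog hF hd B) ?_ ?_
    · have h := (isHomogeneous_C (Fin 3) ((1 - a01 - c10) / σ)).mul hF
      rwa [zero_add] at h
    · have hk : (kc σ : Polynomial (Polynomial ℂ)) ≠ 0 := by
        intro h
        have := congrArg (fun P => ev2 P 0 0) h
        beta_reduce at this
        rw [ev2_kc, ev2_zero] at this
        exact hσ0 this
      have hk2 : (kc σ * kc ((1 - a01 - c10) / σ) : Polynomial (Polynomial ℂ)) =
          1 - kc a01 - kc c10 := by
        rw [← kc_mul, mul_div_cancel₀ _ hσ0]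
        simp [kc]
      refine mul_left_cancel₀ hk ?_
      rw [hch, map_mul, ch_C]
      linear_combination hstar + ch T1 * ch F * hkd - ch F * hk2
  have h5 := nf (B - (((1 - a01 - c10) / σ) / d) • (1 : Matrix (Fin 3) (Fin 3) ℂ)) (by
    have e1 : ∀ i, (∑ j, C ((B - (((1 - a01 - c10) / σ) / d) •
        (1 : Matrix (Fin 3) (Fin 3) ℂ)) i j) * X j : MvPolynomial (Fin 3) ℂ) =
        (∑ j, C (B i j) * X j) - C (((1 - a01 - c10) / σ) / d) * X i := by
      intro i
      have e2 : ∀ j, (B - (((1 - a01 - c10) / σ) / d) • (1 : Matrix (Fin 3) (Fin 3) ℂ)) i j =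
          B i j - (((1 - a01 - c10) / σ) / d) * (1 : Matrix (Fin 3) (Fin 3) ℂ) i j := fun j => rfl
      simp only [e2, C_sub, C_mul, sub_mul]
      rw [Finset.sum_sub_distrib]
      congr 1
      rw [Finset.sum_eq_single i]
      · rw [Matrix.one_apply_eq, C_1, mul_one]
      · intro j _ hj
        rw [Matrix.one_apply_ne hj.symm, C_0, mul_zero, zero_mul]
      · intro h
        exact absurd (Finset.mem_univ i) h
    simp only [e1, sub_mul]
    rw [Finset.sum_sub_distrib, h4]
    have e3 : ∑ i, C (((1 - a01 - c10) / σ) / d) * X i * pderiv i F =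
        C (((1 - a01 - c10) / σ) / d) * ∑ i, X i * pderiv i F := by
      rw [Finset.mul_sum]
      refine Finset.sum_congr rfl fun i _ => ?_
      ring
    rw [e3, hF.sum_X_mul_pderiv, nsmul_eq_mul, ← mul_assoc,
      show ((d : ℕ) : MvPolynomial (Fin 3) ℂ) = C (d : ℂ) by simp, ← C_mul,
      div_mul_cancel₀ _ hdc, sub_self])
  rw [Matrix.trace_sub, Matrix.trace_smul, Matrix.trace_one, Fintype.card_fin,
    Matrix.trace_fin_three] at h5
  change a01 + 0 + c10 - ((1 - a01 - c10) / σ / d) * ((3 : ℕ) : ℂ) = 0 at h5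
  push_cast at h5
  have h6 : (1 - a01 - c10) / σ / d * 3 = -(1 - a01 - c10) := by
    rw [div_div, hσ]
    ring
  rw [h6] at h5
  have h7 : (1 : ℂ) = 0 := by linear_combination h5
  exact one_ne_zero h7

end Pool.Agent.H941.QH
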