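import Pool.Agent.H941.QH.Main

set_option autoImplicit false
set_option linter.unusedSectionVars false
set_option linter.unusedVariables false

/-! # Tangent vector fields -/

namespace Pool.Agent.H941.QH

open Polynomial Finset Filter Topology Metric Pool.Agent.Helper748.TP Pool.Agent.H941.TF
  Pool.Agent.H941.SC Pool.Agent.H941.NC Pool.Agent.H941.ND

/-- no vector fields on a nodal curve -/
theorem fin_nod {F Ψ Φi Ψi : ℂ[X][X]} {D0 : ℂ[X]} {e n : ℕ} (S : Nod F D0.roots.toFinset)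
    (he : 4 ≤ e) (hD0 : D0 ≠ 0) {α β : ℂ[X][X]} (hQm : (F * Ψ).Monic)
    (hQN : (F * Ψ).natDegree = e + n) (hFd : F.natDegree = e)
    (hαβ : C D0 = α * (F * Ψ) + β * derivative (F * Ψ))
    (iΦ : Inf F Φi e) (iΨ : Inf Ψ Ψi n) (hs : (evt 0 (Φi * Ψi)).Separable)
    (hpar : ∀ b, ∃ (m : ℕ) (a : Fin (e + n) → ℂ → ℂ), 0 < m ∧ (∀ j, AnalyticAt ℂ (a j) 0) ∧
      Par (e + n) (F * Ψ) (fun u => b + u ^ m) a)
    {a6 c6 : ℂ[X][X]} (htan' : F * Ψ ∣ dt (F * Ψ) * a6 + derivative (F * Ψ) * c6)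
    (ha6d : a6.natDegree ≤ 1) (hc6d : c6.natDegree ≤ 2) (TA : TD 2 a6) : a6 = 0 ∧ c6 = 0 := by
  have hB : ∀ t ∉ D0.roots.toFinset, D0.eval t ≠ 0 := by
    intro t ht h
    rw [Multiset.mem_toFinset, mem_roots hD0] at ht
    exact ht h
  have hsep : ∀ t ∉ D0.roots.toFinset, (evt t (F * Ψ)).Separable := fun t ht =>
    sep_of_disc hαβ (hB t ht)
  have hFm : F.Monic := S.monic
  have hFc : ∀ w : ℂ[X][X], w ≠ 0 → (F * w).natDegree = e + w.natDegree := by
    intro w hw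
    rw [hFm.natDegree_mul' hw, hFd]
  have htan : F ∣ dt F * a6 + derivative F * c6 := by
    refine dvd_of_ev S.monic (B := D0.roots.toFinset) fun t ht => ⟨S.sep t ht, fun x h0 => ?_⟩
    have h4 : ev2 (F * Ψ) t x = 0 := by rw [ev2_mul, h0, zero_mul]
    have h5 := ev2_dvd htan' h4
    have hR0 : ev2 Ψ t x ≠ 0 := by
      have h6 := hsep t ht
      rw [map_mul] at h6
      exact sep_ne h6 h0
    rw [dt_mul, derivative_mul, ev2_add, ev2_mul, ev2_mul, ev2_add, ev2_add, ev2_mul, ev2_mul,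
      ev2_mul, ev2_mul, h0] at h5
    rw [ev2_add, ev2_mul, ev2_mul]
    refine (mul_eq_zero.1 ?_).resolve_left hR0
    linear_combination h5
  have hv := S.field (q := 0) (by omega) hD0 hQm hQN hαβ iΦ iΨ hs hpar htan (by simpa using TA)
  have ha60 : a6 = 0 := by
    obtain ⟨w, hw⟩ : F ∣ a6 := dvd_of_ev hFm (B := D0.roots.toFinset) fun t ht =>
      ⟨S.sep t ht, hv t ht⟩
    by_contra hne
    have hw0 : w ≠ 0 := by
      rintro rfl
      exact hne (by rw [hw, mul_zero])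
    rw [hw, hFc _ hw0] at ha6d
    omega
  refine ⟨ha60, ?_⟩
  obtain ⟨w, hw⟩ : F ∣ c6 := dvd_of_ev hFm (B := D0.roots.toFinset) fun t ht =>
    ⟨S.sep t ht, fun x h0 => by
      have h4 := ev2_dvd htan h0
      rw [ha60, mul_zero, zero_add, ev2_mul] at h4
      exact (mul_eq_zero.1 h4).resolve_left (S.ne ht h0)⟩
  by_contra hne
  have hw0 : w ≠ 0 := by
    rintro rfl
    exact hne (by rw [hw, mul_zero])
  rw [hw, hFc _ hw0] at hc6d
  omega

/-- a polynomial of total degree two -/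
theorem ev2_quad {P : ℂ[X][X]} (h : TD 2 P) (t x : ℂ) : ev2 P t x =
    (P.coeff 0).coeff 0 + (P.coeff 0).coeff 1 * t + (P.coeff 0).coeff 2 * t ^ 2 +
    ((P.coeff 1).coeff 0 + (P.coeff 1).coeff 1 * t) * x + (P.coeff 2).coeff 0 * x ^ 2 := by
  have h0 : P.natDegree < 3 := Nat.lt_succ_of_le (TD.natDegree (k := 2) h)
  have h1 : ∀ i, (P.coeff i).natDegree < 3 := by
    intro i
    refine Nat.lt_succ_of_le (natDegree_le_iff_coeff_eq_zero.2 fun j hj => h i j (by omega))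
  rw [ev2, eval_eq_sum_range' (n := 3) (by
    refine lt_of_le_of_lt ?_ h0
    rw [evt, coe_mapRingHom]
    exact natDegree_map_le), sum_range_succ, sum_range_succ, sum_range_one, TF.coeff_evt,
    TF.coeff_evt, TF.coeff_evt, eval_eq_sum_range' (h1 0), eval_eq_sum_range' (h1 1), eval_eq_sum_range' (h1 2),
    sum_range_succ, sum_range_succ, sum_range_one, sum_range_succ, sum_range_succ, sum_range_one,
    sum_range_succ, sum_range_succ, sum_range_one, h 1 2 (by norm_num), h 2 1 (by norm_num),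
    h 2 2 (by norm_num)]
  ring

theorem quad_lim {P : ℂ[X][X]} (h : TD 2 P) {X' : ℂ → ℂ} {ξ : ℂ}
    (hX : Tendsto X' (𝓝[≠] 0) (𝓝 ξ)) :
    Tendsto (fun u => u ^ (2 : ℤ) * ev2 P u⁻¹ (X' u / u)) (𝓝[≠] 0)
      (𝓝 ((P.coeff 0).coeff 2 + (P.coeff 1).coeff 1 * ξ + (P.coeff 2).coeff 0 * ξ ^ 2)) := by
  have hu : Tendsto (fun u : ℂ => u) (𝓝[≠] 0) (𝓝 0) := tendsto_u
  have h1 : Tendsto (fun u => (P.coeff 0).coeff 0 * u ^ 2 + (P.coeff 0).coeff 1 * u +
      (P.coeff 0).coeff 2 + ((P.coeff 1).coeff 0 * u + (P.coeff 1).coeff 1) * X' u +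
      (P.coeff 2).coeff 0 * X' u ^ 2) (𝓝[≠] 0) (𝓝 ((P.coeff 0).coeff 0 * 0 ^ 2 +
      (P.coeff 0).coeff 1 * 0 + (P.coeff 0).coeff 2 + ((P.coeff 1).coeff 0 * 0 +
      (P.coeff 1).coeff 1) * ξ + (P.coeff 2).coeff 0 * ξ ^ 2)) := by
    refine (((((hu.pow 2).const_mul _).add (hu.const_mul _)).add tendsto_const_nhds).add
      (((hu.const_mul _).add tendsto_const_nhds).mul hX)).add ((hX.pow 2).const_mul _)
  have h2 : (P.coeff 0).coeff 0 * 0 ^ 2 +
      (P.coeff 0).coeff 1 * 0 + (P.coeff 0).coeff 2 + ((P.coeff 1).coeff 0 * 0 +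
      (P.coeff 1).coeff 1) * ξ + (P.coeff 2).coeff 0 * ξ ^ 2 =
      (P.coeff 0).coeff 2 + (P.coeff 1).coeff 1 * ξ + (P.coeff 2).coeff 0 * ξ ^ 2 := by ring
  rw [h2] at h1
  refine h1.congr' ?_
  filter_upwards [ev_ne] with u k1
  rw [ev2_quad h, zpow_ofNat]
  field_simp

theorem coef3 {a b c : ℂ} (h : C a * X ^ 2 + C b * X + C c = 0) : a = 0 ∧ b = 0 ∧ c = 0 := by
  have r0 := congrArg (fun p => coeff p 0) h
  have r1 := congrArg (fun p => coeff p 1) h
  have r2 := congrArg (fun p => coeff p 2) h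
  simp [coeff_X, coeff_C] at r0 r1 r2
  exact ⟨r2, r1, r0⟩

/-- the shape of the tangent vector fields -/
theorem lin_shape {Q Qi a c : ℂ[X][X]} {N : ℕ} (iQ : Inf Q Qi N) (hQm : Q.Monic)
    (hQN : Q.natDegree = N) (hN : 3 ≤ N) (hs : (evt 0 Qi).Separable)
    (htan : Q ∣ dt Q * a + derivative Q * c) (ha : a.natDegree ≤ 1) (hc : c.natDegree ≤ 2)
    (TA : TD 2 a) : TD 2 c ∧ (c.coeff 0).coeff 2 = 0 ∧
      (c.coeff 1).coeff 1 = (a.coeff 0).coeff 2 ∧ (c.coeff 2).coeff 0 = (a.coeff 1).coeff 1 := by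
  obtain ⟨X', hX, hX0, hXr, P⟩ := iQ.par hQm hQN (by omega) hs
  have hXroot : ∀ j, ∀ᶠ u in 𝓝 (0 : ℂ), ev2 Qi u (X' j u) = 0 := by
    intro j
    filter_upwards [hXr] with u hu
    rw [ev2, hu]
    exact eval_nod (x := fun j => X' j u) j
  have hXc : ∀ j, Tendsto (X' j) (𝓝[≠] 0) (𝓝 (X' j 0)) := fun j =>
    (hX j).continuousAt.tendsto.mono_left nhdsWithin_le_nhds
  have key : ∀ j, ∀ᶠ u in 𝓝[≠] (0 : ℂ), ev2 c u⁻¹ (X' j u / u) =
      (X' j u - u * deriv (X' j) u) * ev2 a u⁻¹ (X' j u / u) := by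
    intro j
    have t1 := iQ.lim' (hX j)
    have n1 : ev2 (derivative Qi) 0 (X' j 0) ≠ 0 := by
      have := sep_der hs (hXroot j).self_of_nhds
      rwa [← evt_der] at this
    filter_upwards [((hXroot j).eventually_nhds).filter_mono nhdsWithin_le_nhds,
      ((hX j).eventually_analyticAt).filter_mono nhdsWithin_le_nhds, ev_ne,
      t1.eventually_ne n1] with u h1 h2 h3 h4
    have k1 : ∀ᶠ v in 𝓝 u, ev2 Q v⁻¹ (X' j v / v) = 0 := by
      filter_upwards [h1, (isOpen_ne.mem_nhds h3 : {v : ℂ | v ≠ 0} ∈ 𝓝 u)] with v m1 m2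
      rw [iQ.rel v _ m2] at m1
      exact (mul_eq_zero.1 m1).resolve_left (pow_ne_zero _ m2)
    have d1 : HasDerivAt (fun v : ℂ => v⁻¹) (-(u ^ 2)⁻¹) u := hasDerivAt_inv h3
    have d2 : HasDerivAt (fun v : ℂ => X' j v / v) ((deriv (X' j) u * u - X' j u * 1) / u ^ 2) u :=
      h2.differentiableAt.hasDerivAt.div (hasDerivAt_id' u) h3
    have d3 := hasDerivAt_ev2 Q d1 d2
    have d4 : HasDerivAt (fun v => ev2 Q v⁻¹ (X' j v / v)) 0 u :=
      (hasDerivAt_const u (0 : ℂ)).congr_of_eventuallyEq k1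
    have d5 := d3.unique d4
    have k2 := ev2_dvd htan k1.self_of_nhds
    rw [ev2_add, ev2_mul, ev2_mul] at k2
    have k3 : ev2 (derivative Q) u⁻¹ (X' j u / u) ≠ 0 := right_ne_zero_of_mul h4
    have k4 : ev2 (dt Q) u⁻¹ (X' j u / u) =
        (deriv (X' j) u * u - X' j u) * ev2 (derivative Q) u⁻¹ (X' j u / u) := by
      generalize ev2 (dt Q) u⁻¹ (X' j u / u) = A at d5 ⊢
      generalize ev2 (derivative Q) u⁻¹ (X' j u / u) = B at d5 ⊢
      field_simp at d5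
      linear_combination -d5
    rw [k4] at k2
    refine mul_left_cancel₀ k3 ?_
    linear_combination k2
  have hlim : ∀ j, Tendsto (fun u => u ^ (2 : ℤ) * ev2 c u⁻¹ (X' j u / u)) (𝓝[≠] 0)
      (𝓝 (X' j 0 * ((a.coeff 0).coeff 2 + (a.coeff 1).coeff 1 * X' j 0 +
        (a.coeff 2).coeff 0 * X' j 0 ^ 2))) := by
    intro j
    have t1 := quad_lim TA (hXc j)
    have t2 : Tendsto (fun u => X' j u - u * deriv (X' j) u) (𝓝[≠] 0)
        (𝓝 (X' j 0 - 0 * deriv (X' j) 0)) :=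
      (hXc j).sub (tendsto_u.mul
        ((hX j).deriv.continuousAt.tendsto.mono_left nhdsWithin_le_nhds))
    rw [zero_mul, sub_zero] at t2
    refine (t2.mul t1).congr' ?_
    filter_upwards [key j] with u hu
    rw [hu]
    ring
  have TC : TD 2 c := by
    refine TD_of_lim hXc hX0 (lt_of_le' (by omega) (hc.trans (by omega))) fun j => ⟨_, hlim j⟩
  have ha2 : (a.coeff 2).coeff 0 = 0 := by
    have : a.coeff 2 = 0 := coeff_eq_zero_of_natDegree_lt (by omega)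
    rw [this, coeff_zero]
  set R : ℂ[X] := C ((c.coeff 2).coeff 0 - (a.coeff 1).coeff 1) * X ^ 2 +
    C ((c.coeff 1).coeff 1 - (a.coeff 0).coeff 2) * X + C ((c.coeff 0).coeff 2) with hR
  have hR0 : R = 0 := by
    refine eq_zero_of_natDegree_lt_card_of_eval_eq_zero R hX0 (fun j => ?_) ?_
    · have h1 := tendsto_nhds_unique (hlim j) (quad_lim TC (hXc j))
      rw [ha2] at h1
      rw [hR]
      simp only [eval_add, eval_mul, eval_C, eval_X, eval_pow]
      linear_combination -h1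
    · rw [Fintype.card_fin]
      refine lt_of_le_of_lt ?_ (lt_of_lt_of_le (by norm_num : 2 < 3) hN)
      rw [hR]
      compute_degree
  obtain ⟨r2, r1, r0⟩ := coef3 hR0
  exact ⟨TC, r0, sub_eq_zero.1 r1, sub_eq_zero.1 r2⟩

end Pool.Agent.H941.QH
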