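import Pool.Agent.H941.ND.Node

set_option autoImplicit false
set_option linter.unusedSectionVars false
set_option linter.unusedVariables false

/-! # Vector fields at a fixed point: the linear algebra -/

namespace Pool.Agent.H941.QH

open Polynomial Finset Filter Topology Metric Pool.Agent.Helper748.TP Pool.Agent.H941.TF
  Pool.Agent.H941.SC Pool.Agent.H941.NC Pool.Agent.H941.ND

theorem csmul (c : ℂ) (P : ℂ[X][X]) : c • P = kc c * P := by
  rw [kc, ← smul_eq_C_mul]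
  ext n k
  simp [coeff_smul]

theorem dt_smul (c : ℂ) (P : ℂ[X][X]) : dt (c • P) = c • dt P := by
  rw [csmul, csmul, dt_kc]

theorem der_smul (c : ℂ) (P : ℂ[X][X]) : derivative (c • P) = c • derivative P := by
  rw [csmul, csmul, der_kc]

/-- the maximal ideal of a point -/
noncomputable def mx (t x : ℂ) : Ideal ℂ[X][X] := Ideal.span {C (X - C t), X - C (C x)}

theorem mem_mx {t x : ℂ} {P : ℂ[X][X]} : P ∈ mx t x ↔ ev2 P t x = 0 := by
  rw [mx, Ideal.mem_span_pair]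
  constructor
  · rintro ⟨a, b, rfl⟩
    rw [ev2_add, ev2_mul, ev2_mul, evτ, evξ, sub_self, sub_self, mul_zero, mul_zero, add_zero]
  · intro h
    obtain ⟨A, B, hP, -⟩ := dec' P t x h
    exact ⟨A, B, by rw [hP]; ring⟩

theorem mx_ne (t x : ℂ) : mx t x ≠ ⊤ := by
  intro h
  have h1 : (1 : ℂ[X][X]) ∈ mx t x := by rw [h]; trivial
  rw [mem_mx] at h1
  have : ev2 (1 : ℂ[X][X]) t x = 1 := by rw [← C_1, ev2_C, eval_one]
  rw [this] at h1
  exact one_ne_zero h1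

theorem mx_zero (t x : ℂ) (P : ℂ[X][X]) : P ∈ mx t x ^ 0 := by
  have : mx t x ^ 0 = ⊤ := by
    rw [Submodule.pow_zero]
    exact Ideal.one_eq_top
  rw [this]
  trivial

theorem mx_succ (t x : ℂ) (K : ℕ) : mx t x ^ (K + 1) = mx t x * mx t x ^ K := by
  rw [Submodule.pow_succ]
  exact mul_comm (mx t x ^ K) (mx t x)

theorem mx_one (t x : ℂ) : mx t x ^ 1 = mx t x := pow_one _

theorem mx_mono (t x : ℂ) {K L : ℕ} (h : L ≤ K) : mx t x ^ K ≤ mx t x ^ L :=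
  Ideal.pow_le_pow_right h

theorem q_smul (I : Ideal ℂ[X][X]) (r m : ℂ[X][X]) :
    r • (Ideal.Quotient.mk I m : ℂ[X][X] ⧸ I) = Ideal.Quotient.mk I (r * m) := rfl

theorem pow_inf {t x : ℂ} {P : ℂ[X][X]} (h : ∀ K, P ∈ mx t x ^ K) : P = 0 := by
  have h1 := Ideal.iInf_pow_eq_bot_of_isDomain (mx t x) (mx_ne t x)
  have h2 : P ∈ ⨅ i, mx t x ^ i := by
    rw [Submodule.mem_iInf]
    exact h
  rw [h1] at h2
  exact (Submodule.mem_bot _).1 h2

/-- **Krull.** -/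
theorem krull {t x : ℂ} {I : Ideal ℂ[X][X]} {P : ℂ[X][X]} (h : ∀ K, P ∈ I ⊔ mx t x ^ K) :
    ∃ c, ev2 c t x ≠ 0 ∧ c * P ∈ I := by
  have h1 : (Ideal.Quotient.mk I P : ℂ[X][X] ⧸ I) ∈
      ⨅ i, mx t x ^ i • (⊤ : Submodule ℂ[X][X] (ℂ[X][X] ⧸ I)) := by
    rw [Submodule.mem_iInf]
    intro K
    obtain ⟨a, ha, b, hb, hab⟩ := Submodule.mem_sup.1 (h K)
    have h2 : (Ideal.Quotient.mk I P : ℂ[X][X] ⧸ I) =
        b • (Ideal.Quotient.mk I 1 : ℂ[X][X] ⧸ I) := by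
      rw [← hab, map_add, Ideal.Quotient.eq_zero_iff_mem.2 ha, zero_add, q_smul, mul_one]
    rw [h2]
    exact Submodule.smul_mem_smul hb trivial
  rw [Ideal.mem_iInf_smul_pow_eq_bot_iff] at h1
  obtain ⟨⟨r, hr⟩, hr2⟩ := h1
  refine ⟨1 - r, ?_, ?_⟩
  · rw [ev2_sub, mem_mx.1 hr, sub_zero]
    have : ev2 (1 : ℂ[X][X]) t x = 1 := by rw [← C_1, ev2_C, eval_one]
    rw [this]
    exact one_ne_zero
  · rw [← Ideal.Quotient.eq_zero_iff_mem, sub_mul, one_mul, map_sub]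
    change r • (Ideal.Quotient.mk I P : ℂ[X][X] ⧸ I) = _ at hr2
    rw [q_smul] at hr2
    rw [hr2, sub_self]

/-- the polynomials of low degree -/
theorem fin_span (t x : ℂ) (K : ℕ) : ∃ S : Submodule ℂ ℂ[X][X], FiniteDimensional ℂ S ∧
    ∀ P, ∃ s ∈ S, P - s ∈ mx t x ^ K := by
  induction K with
  | zero =>
    exact ⟨⊥, inferInstance, fun P => ⟨0, Submodule.zero_mem _, mx_zero _ _ _⟩⟩
  | succ K ih =>
    obtain ⟨S, hS, h⟩ := ih
    have := hS
    refine ⟨Submodule.span ℂ {1} ⊔ (S.map (LinearMap.mulLeft ℂ (C (X - C t))) ⊔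
      S.map (LinearMap.mulLeft ℂ (X - C (C x)))), inferInstance, fun P => ?_⟩
    have h0 : ev2 (P - kc (ev2 P t x)) t x = 0 := by rw [ev2_sub, ev2_kc, sub_self]
    obtain ⟨A, B, hP, -⟩ := dec' _ t x h0
    obtain ⟨a, ha, ha'⟩ := h A
    obtain ⟨b, hb, hb'⟩ := h B
    refine ⟨kc (ev2 P t x) * 1 + (C (X - C t) * a + (X - C (C x)) * b), ?_, ?_⟩
    · refine Submodule.add_mem_sup ?_ (Submodule.add_mem_sup ?_ ?_)
      · rw [← csmul]
        exact Submodule.smul_mem _ _ (Submodule.mem_span_singleton_self _)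
      · exact ⟨a, ha, rfl⟩
      · exact ⟨b, hb, rfl⟩
    · have h1 : P - (kc (ev2 P t x) * 1 + (C (X - C t) * a + (X - C (C x)) * b)) =
          C (X - C t) * (A - a) + (X - C (C x)) * (B - b) := by
        linear_combination hP
      rw [h1, mx_succ]
      exact Ideal.add_mem _ (Ideal.mul_mem_mul (mem_mx.2 (by rw [evτ, sub_self])) ha')
        (Ideal.mul_mem_mul (mem_mx.2 (by rw [evξ, sub_self])) hb')

theorem inj_of_surj {V : Type} [AddCommGroup V] [Module ℂ V] (N : Submodule ℂ V)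
    [FiniteDimensional ℂ (V ⧸ N)] (T : V →ₗ[ℂ] V) (hN : N ≤ N.comap T)
    (hs : ∀ ξ, ∃ ζ, T ζ - ξ ∈ N) {ζ : V} (h : T ζ ∈ N) : ζ ∈ N := by
  have h1 : Function.Surjective (N.mapQ N T hN) := by
    intro q
    obtain ⟨ξ, rfl⟩ := Submodule.Quotient.mk_surjective N q
    obtain ⟨ζ, hζ⟩ := hs ξ
    refine ⟨Submodule.Quotient.mk ζ, ?_⟩
    rw [Submodule.mapQ_apply, Submodule.Quotient.eq]
    exact hζ
  have h2 := LinearMap.injective_iff_surjective.2 h1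
  have h3 : N.mapQ N T hN (Submodule.Quotient.mk ζ) = 0 := by
    rw [Submodule.mapQ_apply]
    exact (Submodule.Quotient.mk_eq_zero _).2 h
  exact (Submodule.Quotient.mk_eq_zero _).1 (h2 (h3.trans (map_zero _).symm))

theorem fin_quot {t x : ℂ} {K : ℕ} (N : Ideal ℂ[X][X]) (hN : mx t x ^ K ≤ N) :
    FiniteDimensional ℂ (ℂ[X][X] ⧸ N.restrictScalars ℂ) := by
  obtain ⟨S, hS, h⟩ := fin_span t x K
  have := hS
  refine Module.Finite.of_surjective ((N.restrictScalars ℂ).mkQ.comp S.subtype) ?_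
  intro q
  obtain ⟨P, rfl⟩ := Submodule.Quotient.mk_surjective _ q
  obtain ⟨s, hs, hs'⟩ := h P
  refine ⟨⟨s, hs⟩, ?_⟩
  rw [LinearMap.comp_apply, Submodule.mkQ_apply]
  refine ((Submodule.Quotient.eq _).2 ?_).symm
  exact hN hs'

theorem fin_quot2 {t x : ℂ} {K : ℕ} (N : Ideal ℂ[X][X]) (hN : mx t x ^ K ≤ N) :
    FiniteDimensional ℂ ((ℂ[X][X] × ℂ[X][X]) ⧸
      (N.restrictScalars ℂ).prod (N.restrictScalars ℂ)) := by
  obtain ⟨S, hS, h⟩ := fin_span t x K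
  have := hS
  refine Module.Finite.of_surjective (((N.restrictScalars ℂ).prod (N.restrictScalars ℂ)).mkQ.comp
    (S.subtype.prodMap S.subtype)) ?_
  intro q
  obtain ⟨⟨P, P'⟩, rfl⟩ := Submodule.Quotient.mk_surjective _ q
  obtain ⟨s, hs, hs'⟩ := h P
  obtain ⟨s2, hs2, hs2'⟩ := h P'
  refine ⟨⟨⟨s, hs⟩, ⟨s2, hs2⟩⟩, ?_⟩
  rw [LinearMap.comp_apply, Submodule.mkQ_apply]
  refine ((Submodule.Quotient.eq _).2 ?_).symm
  exact ⟨hN hs', hN hs2'⟩

end Pool.Agent.H941.QH
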