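import Pool.Agent.H941.QH.Core
import Pool.Agent.H941.NC.Bert
import Pool.Agent.H941.SC.Class

set_option autoImplicit false
set_option linter.unusedSectionVars false
set_option linter.unusedVariables false

/-! # Linear changes of coordinates -/

namespace Pool.Agent.H941.QH

open MvPolynomial Pool.Agent.Helper748.MC Pool.Agent.Helper748.TP Pool.Agent.H941.TF
  Pool.Agent.H941.SC Pool.Agent.H941.NC Pool.Agent.H941.ND

theorem eval_hess_lin (A : Matrix (Fin 3) (Fin 3) ℂ) (z : Fin 3 → ℂ) (H : MvPolynomial (Fin 3) ℂ)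
    (i j : Fin 3) : eval z (pderiv i (pderiv j (lin A H))) =
      ∑ k, ∑ l, A k i * A l j * eval (fun i => ∑ j, A i j * z j) (pderiv k (pderiv l H)) := by
  rw [pderiv_lin, map_sum, map_sum, Finset.sum_comm]
  refine Finset.sum_congr rfl fun l _ => ?_
  rw [pderiv_C_mul, pderiv_lin, map_mul, eval_C, map_sum, Finset.mul_sum]
  refine Finset.sum_congr rfl fun k _ => ?_
  rw [map_mul, eval_C, eval_lin]
  ring

theorem node_lin {A : Matrix (Fin 3) (Fin 3) ℂ} (hA : A.det ≠ 0) {H : MvPolynomial (Fin 3) ℂ}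
    {z : Fin 3 → ℂ} (h : NodeAt H (fun i => ∑ j, A i j * z j)) : NodeAt (lin A H) z := by
  intro w hw
  set y : Fin 3 → ℂ := fun i => ∑ j, A i j * z j with hy
  obtain ⟨c, hc⟩ := h (fun i => ∑ j, A i j * w j) (by
    have h1 : Matrix.vecMul (fun k => ∑ l, eval y (pderiv k (pderiv l H)) * ∑ j, A l j * w j) A =
        0 := by
      funext i
      rw [Matrix.vecMul, dotProduct, Pi.zero_apply, ← hw i]
      simp only [eval_hess_lin]
      rw [← hy]
      simp only [Fin.sum_univ_three]
      ring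
    exact fun i => congrFun (Matrix.eq_zero_of_vecMul_eq_zero hA h1) i)
  refine ⟨c, ?_⟩
  have h2 : (fun i => ∑ j, A i j * (w - c • z) j) = 0 := by
    funext i
    have h3 := congrFun hc i
    simp only [Pi.sub_apply, Pi.smul_apply, smul_eq_mul, mul_sub, Finset.sum_sub_distrib,
      Pi.zero_apply]
    rw [sub_eq_zero]
    rw [h3]
    simp only [Pi.smul_apply, smul_eq_mul, hy, Finset.mul_sum]
    refine Finset.sum_congr rfl fun j _ => ?_
    ring
  exact sub_eq_zero.1 (Matrix.eq_zero_of_mulVec_eq_zero hA h2)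

/-- the linear vector fields in the new coordinates -/
theorem tr_lin {A : Matrix (Fin 3) (Fin 3) ℂ} (hA : A.det ≠ 0) {f : MvPolynomial (Fin 3) ℂ}
    (h : TrZero f) : TrZero (lin A f) := by
  intro B hB
  have hu : IsUnit A.det := isUnit_iff_ne_zero.2 hA
  have h1 := h (A * B * A⁻¹) (by
    have h2 : Function.Injective (lin A) := (linE A hA).injective
    apply h2
    rw [map_zero, ← hB, map_sum]
    have e1 : ∀ i, lin A (∑ j, C ((A * B * A⁻¹) i j) * X j) = ∑ j, C ((A * B) i j) * X j := by
      intro i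
      have e2 : ∀ j, (A * B) i j = ∑ k, (A * B * A⁻¹) i k * A k j := by
        intro j
        rw [← Matrix.mul_apply, Matrix.mul_assoc (A * B), Matrix.nonsing_inv_mul A hu,
          Matrix.mul_one]
      simp only [map_sum, map_mul, lin_C, lin_X, e2, Finset.mul_sum, Finset.sum_mul]
      rw [Finset.sum_comm]
      refine Finset.sum_congr rfl fun j _ => Finset.sum_congr rfl fun k _ => ?_
      ring
    have e3 : ∀ i, (∑ j, C ((A * B) i j) * X j : MvPolynomial (Fin 3) ℂ) =
        ∑ k, C (A i k) * ∑ j, C (B k j) * X j := by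
      intro i
      simp only [Matrix.mul_apply, map_sum, map_mul, Finset.mul_sum, Finset.sum_mul]
      rw [Finset.sum_comm]
      refine Finset.sum_congr rfl fun j _ => Finset.sum_congr rfl fun k _ => ?_
      ring
    have e4 : ∀ i, lin A ((∑ j, C ((A * B * A⁻¹) i j) * X j) * pderiv i f) =
        (∑ k, C (A i k) * ∑ j, C (B k j) * X j) * lin A (pderiv i f) := by
      intro i
      rw [map_mul, e1, e3]
    rw [Finset.sum_congr rfl fun i _ => e4 i]
    have e5 : ∀ (u p : Fin 3 → MvPolynomial (Fin 3) ℂ),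
        ∑ i, (∑ k, C (A i k) * u k) * p i = ∑ k, u k * ∑ i, C (A i k) * p i := by
      intro u p
      simp only [Finset.mul_sum, Finset.sum_mul]
      rw [Finset.sum_comm]
      refine Finset.sum_congr rfl fun k _ => Finset.sum_congr rfl fun i _ => ?_
      ring
    rw [e5]
    refine Finset.sum_congr rfl fun k _ => ?_
    rw [pderiv_lin])
  rw [Matrix.trace_mul_comm, ← Matrix.mul_assoc, Matrix.nonsing_inv_mul A hu,
    Matrix.one_mul] at h1
  exact h1

theorem qh_lin {A : Matrix (Fin 3) (Fin 3) ℂ} (hA : A.det ≠ 0) {f : MvPolynomial (Fin 3) ℂ}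
    {z : Fin 3 → ℂ} (h : QHAt f (fun i => ∑ j, A i j * z j)) : QHAt (lin A f) z := by
  have hu : IsUnit A.det := isUnit_iff_ne_zero.2 hA
  obtain ⟨k, θ, c, w1, w2, hθ, h1, h2, h3, h4⟩ := h
  refine ⟨k, fun i => ∑ j, C (A⁻¹ i j) * lin A (θ j), c, w1, w2, fun i => ?_, ?_, fun i => ?_,
    fun s => ?_, h4⟩
  · refine IsHomogeneous.sum _ _ _ fun j _ => ?_
    have := (isHomogeneous_C (Fin 3) (A⁻¹ i j)).mul (lin_homog A (hθ j))
    rwa [zero_add] at this
  · have h5 := congrArg (lin A) h1
    rw [map_zero, map_sum] at h5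
    rw [← h5]
    have e1 : ∀ j l, ∑ i, (C (A⁻¹ i j) * C (A l i) : MvPolynomial (Fin 3) ℂ) =
        if l = j then 1 else 0 := by
      intro j l
      have e2 : ∑ i, A l i * A⁻¹ i j = (1 : Matrix (Fin 3) (Fin 3) ℂ) l j := by
        rw [← Matrix.mul_apply, Matrix.mul_nonsing_inv A hu]
      have e3 : ∑ i, (C (A⁻¹ i j) * C (A l i) : MvPolynomial (Fin 3) ℂ) =
          C (∑ i, A l i * A⁻¹ i j) := by
        rw [map_sum]
        refine Finset.sum_congr rfl fun i _ => ?_
        rw [C_mul]
        ring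
      rw [e3, e2, Matrix.one_apply]
      split_ifs
      · exact C_1
      · exact C_0
    calc ∑ i, (∑ j, C (A⁻¹ i j) * lin A (θ j)) * pderiv i (lin A f)
        = ∑ j, ∑ l, (∑ i, (C (A⁻¹ i j) * C (A l i) : MvPolynomial (Fin 3) ℂ)) *
            (lin A (θ j) * lin A (pderiv l f)) := by
          simp only [pderiv_lin, Finset.mul_sum, Finset.sum_mul]
          rw [Finset.sum_comm]
          refine (Finset.sum_congr rfl fun l _ => Finset.sum_comm).trans ?_
          rw [Finset.sum_comm]
          refine Finset.sum_congr rfl fun j _ => Finset.sum_congr rfl fun l _ =>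
            Finset.sum_congr rfl fun i _ => ?_
          ring
      _ = ∑ j, lin A (θ j * pderiv j f) := by
          refine Finset.sum_congr rfl fun j _ => ?_
          rw [Finset.sum_eq_single j]
          · rw [e1, if_pos rfl, one_mul, map_mul]
          · intro l _ hl
            rw [e1, if_neg hl, zero_mul]
          · intro h
            exact absurd (Finset.mem_univ j) h
  · rw [map_sum]
    have e1 : ∀ j, eval z (C (A⁻¹ i j) * lin A (θ j)) = A⁻¹ i j * (c * ∑ l, A j l * z l) := by
      intro j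
      rw [map_mul, eval_C, eval_lin, h2 j]
    simp only [e1]
    have e2 : ∑ j, A⁻¹ i j * (c * ∑ l, A j l * z l) = c * ∑ l, (∑ j, A⁻¹ i j * A j l) * z l := by
      simp only [Finset.mul_sum, Finset.sum_mul]
      rw [Finset.sum_comm]
      refine Finset.sum_congr rfl fun l _ => Finset.sum_congr rfl fun j _ => ?_
      ring
    rw [e2]
    congr 1
    have e3 : ∀ l, ∑ j, A⁻¹ i j * A j l = (1 : Matrix (Fin 3) (Fin 3) ℂ) i l := by
      intro l
      rw [← Matrix.mul_apply, Matrix.nonsing_inv_mul A hu]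
    simp only [e3]
    rw [Finset.sum_eq_single i]
    · rw [Matrix.one_apply_eq, one_mul]
    · intro l _ hl
      rw [Matrix.one_apply_ne hl.symm, zero_mul]
    · intro h
      exact absurd (Finset.mem_univ i) h
  · set J : Matrix (Fin 3) (Fin 3) ℂ :=
      Matrix.of fun i j => eval (fun i => ∑ j, A i j * z j) (pderiv j (θ i)) with hJ
    have e1 : (Matrix.of fun i j => eval z (pderiv j (∑ l, C (A⁻¹ i l) * lin A (θ l)))) =
        A⁻¹ * J * A := by
      ext i j
      rw [Matrix.of_apply, Matrix.mul_apply, map_sum, map_sum]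
      simp only [pderiv_C_mul, pderiv_lin, map_mul, map_sum, eval_C, eval_lin, Matrix.mul_apply,
        Finset.mul_sum, Finset.sum_mul]
      rw [Finset.sum_comm]
      refine Finset.sum_congr rfl fun k _ => Finset.sum_congr rfl fun l _ => ?_
      rw [hJ, Matrix.of_apply]
      ring
    rw [← h3 s]
    have e2 : s • (1 : Matrix (Fin 3) (Fin 3) ℂ) -
        (Matrix.of fun i j => eval z (pderiv j (∑ l, C (A⁻¹ i l) * lin A (θ l)))) =
        A⁻¹ * (s • (1 : Matrix (Fin 3) (Fin 3) ℂ) - J) * A := by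
      rw [e1, Matrix.mul_sub, Matrix.sub_mul, Matrix.mul_smul, Matrix.mul_one, Matrix.smul_mul,
        Matrix.nonsing_inv_mul A hu]
    rw [e2, Matrix.det_mul, Matrix.det_mul, mul_comm (A⁻¹.det), mul_assoc, ← Matrix.det_mul,
      Matrix.nonsing_inv_mul A hu, Matrix.det_one, mul_one]

/-- independence of gradients in the new coordinates -/
theorem ind_lin {A : Matrix (Fin 3) (Fin 3) ℂ} (hA : A.det ≠ 0) {h G : MvPolynomial (Fin 3) ℂ}
    {z : Fin 3 → ℂ}
    (hi : ∀ a b : ℂ, (∀ i, a * eval (fun i => ∑ j, A i j * z j) (pderiv i h) +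
      b * eval (fun i => ∑ j, A i j * z j) (pderiv i G) = 0) → a = 0 ∧ b = 0) (a b : ℂ)
    (hab : ∀ i, a * eval z (pderiv i (lin A h)) + b * eval z (pderiv i (lin A G)) = 0) :
    a = 0 ∧ b = 0 := by
  refine hi a b ?_
  set w : Fin 3 → ℂ := fun i => ∑ j, A i j * z j with hw
  have h1 : Matrix.vecMul (fun i => a * eval w (pderiv i h) + b * eval w (pderiv i G)) A = 0 := by
    funext j
    have h2 := hab j
    rw [eval_pderiv_lin, eval_pderiv_lin, Matrix.vecMul, Matrix.vecMul, dotProduct, dotProduct,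
      Finset.mul_sum, Finset.mul_sum, ← Finset.sum_add_distrib] at h2
    rw [Matrix.vecMul, dotProduct, Pi.zero_apply, ← h2]
    refine Finset.sum_congr rfl fun i _ => ?_
    ring
  exact fun i => congrFun (Matrix.eq_zero_of_vecMul_eq_zero hA h1) i

/-- singular points in the new coordinates -/
theorem sing_lin {A : Matrix (Fin 3) (Fin 3) ℂ} (hA : A.det ≠ 0) {h : MvPolynomial (Fin 3) ℂ}
    {z : Fin 3 → ℂ} (hs : ∀ i, eval z (pderiv i (lin A h)) = 0) (i : Fin 3) :
    eval (fun i => ∑ j, A i j * z j) (pderiv i h) = 0 := by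
  have h1 : Matrix.vecMul (fun i => eval (fun i => ∑ j, A i j * z j) (pderiv i h)) A = 0 := by
    funext j
    rw [← eval_pderiv_lin, hs j]
    rfl
  exact congrFun (Matrix.eq_zero_of_vecMul_eq_zero hA h1) i

end Pool.Agent.H941.QH
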