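import Pool.Agent.H941.QH.Op

set_option autoImplicit false
set_option linter.unusedSectionVars false
set_option linter.unusedVariables false

/-! # Points where the form is quasi-homogeneous -/

namespace Pool.Agent.H941.QH

open Polynomial Finset Filter Topology Metric Pool.Agent.Helper748.TP Pool.Agent.H941.TF
  Pool.Agent.H941.SC Pool.Agent.H941.NC Pool.Agent.H941.ND

/-- **The solution is regular at a quasi-homogeneous point.** -/
theorem loc {Q h l p ρ α β κ g Ξ : ℂ[X][X]} {t x : ℂ} {w1 w2 : ℤ}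
    (V : VF α β t x (w1 : ℂ) (w2 : ℂ)) (hQ0 : Q ≠ 0)
    (hi : dt h * Q - h * dt Q = derivative l * Q - l * derivative Q)
    (E : EE Q h l p ρ)
    (hκ : α * dt Q + β * derivative Q = κ * Q) (hg : α * l + β * h = g * Q)
    (hΞ : β * p - α * ρ = Q * Ξ) (hres : ∀ m : ℤ, ev2 g t x ≠ m) :
    ∃ c W, ev2 c t x ≠ 0 ∧ Q ∣ c * p - h * W := by
  rw [EE] at E
  -- the weight of `Q`
  obtain ⟨i0, j0, hκ0⟩ : ∃ i j : ℕ, ev2 κ t x = i * (w1 : ℂ) + j * (w2 : ℂ) := by
    by_contra hcon
    push Not at hcon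
    refine hQ0 (pow_inf (t := t) (x := x) fun K => inj1 V (ψ := -κ) (fun i j hij => ?_) ?_)
    · refine hcon i j ?_
      rw [← sub_zero κ, ← neg_sub, neg_neg, ev2_sub, ev2_zero] at hij
      linear_combination -hij
    · have e : chi α β Q + -κ * Q = 0 := by
        rw [chi]
        linear_combination hκ
      rw [e]
      exact Ideal.zero_mem _
  have hψ : ev2 (g - κ) t x = ev2 g t x - (i0 * (w1 : ℂ) + j0 * (w2 : ℂ)) := by
    rw [ev2_sub, hκ0]
  have c0 : ∀ i j : ℕ, ev2 g t x + i * (w1 : ℂ) + j * (w2 : ℂ) ≠ 0 := by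
    intro i j hij
    refine hres (-(i * w1 + j * w2)) ?_
    push_cast
    linear_combination hij
  have c1 : ∀ i j : ℕ, ev2 (g - κ) t x + (w1 : ℂ) + i * (w1 : ℂ) + j * (w2 : ℂ) ≠ 0 := by
    intro i j hij
    rw [hψ] at hij
    refine hres (i0 * w1 + j0 * w2 - w1 - i * w1 - j * w2) ?_
    push_cast
    linear_combination hij
  have c2 : ∀ i j : ℕ, ev2 (g - κ) t x + (w2 : ℂ) + i * (w1 : ℂ) + j * (w2 : ℂ) ≠ 0 := by
    intro i j hij
    rw [hψ] at hij
    refine hres (i0 * w1 + j0 * w2 - w2 - i * w1 - j * w2) ?_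
    push_cast
    linear_combination hij
  -- the identities
  have h1 := congrArg dt hΞ
  have h2 := congrArg derivative hΞ
  have h3 := congrArg dt hg
  have h4 := congrArg derivative hg
  rw [dt_sub, dt_mul, dt_mul, dt_mul] at h1
  rw [derivative_sub, derivative_mul, derivative_mul, derivative_mul] at h2
  rw [dt_add, dt_mul, dt_mul, dt_mul] at h3
  rw [derivative_add, derivative_mul, derivative_mul, derivative_mul] at h4
  have I1 : -(α * dt ρ + β * derivative ρ) - (g - κ) * ρ + (dt α * -ρ + dt β * p) =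
      Q * (dt Ξ - β) + Ξ * l := by
    refine mul_left_cancel₀ hQ0 ?_
    linear_combination Q * h1 + β * E + ρ * hg - ρ * hκ - dt Q * hΞ + l * hΞ
  have I2 : (α * dt p + β * derivative p) + (g - κ) * p +
      (derivative α * -ρ + derivative β * p) = Q * (derivative Ξ + α) + Ξ * h := by
    refine mul_left_cancel₀ hQ0 ?_
    linear_combination Q * h2 - α * E - p * hg + p * hκ - derivative Q * hΞ + h * hΞ
  have I3 : (α * dt l + β * derivative l) + (g - κ) * l + (dt α * l + dt β * h) =
      g * l + dt g * Q := by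
    refine mul_left_cancel₀ hQ0 ?_
    linear_combination Q * h3 - β * hi + l * hκ - dt Q * hg
  have I4 : (α * dt h + β * derivative h) + (g - κ) * h +
      (derivative α * l + derivative β * h) = g * h + derivative g * Q := by
    refine mul_left_cancel₀ hQ0 ?_
    linear_combination Q * h4 + α * hi + h * hκ - derivative Q * hg
  have key : ∀ K, p ∈ (Ideal.span {Q} ⊔ Ideal.span {h}) ⊔ mx t x ^ K := by
    intro K
    obtain ⟨ζ, hζ⟩ := solve V c0 K Ξ
    have hchiQ : chi α β Q = κ * Q := hκ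
    have k1 := inj2 V c1 c2 (K := K) hchiQ (a := -ρ - ζ * l) (b := p - ζ * h) ?_ ?_
    · obtain ⟨q, hq, m, hm, hqm⟩ := Submodule.mem_sup.1 k1.2
      have e : p = (q + ζ * h) + m := by linear_combination -hqm
      rw [e]
      refine Submodule.add_mem_sup (Submodule.add_mem_sup hq ?_) hm
      exact Ideal.mem_span_singleton'.2 ⟨ζ, rfl⟩
    · have e : chi α β (-ρ - ζ * l) + (g - κ) * (-ρ - ζ * l) +
          (dt α * (-ρ - ζ * l) + dt β * (p - ζ * h)) =
          (dt Ξ - β - ζ * dt g) * Q - (chi α β ζ + g * ζ - Ξ) * l := by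
        rw [← zero_sub ρ, chi_sub, chi_sub, chi_mul]
        rw [chi, chi, chi, chi, dt_zero, derivative_zero]
        linear_combination I1 - ζ * I3
      rw [e]
      exact Ideal.sub_mem _ (Submodule.mem_sup_left (Ideal.mem_span_singleton'.2 ⟨_, rfl⟩))
        (Submodule.mem_sup_right (Ideal.mul_mem_right _ _ hζ))
    · have e : chi α β (p - ζ * h) + (g - κ) * (p - ζ * h) +
          (derivative α * (-ρ - ζ * l) + derivative β * (p - ζ * h)) =
          (derivative Ξ + α - ζ * derivative g) * Q - (chi α β ζ + g * ζ - Ξ) * h := by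
        rw [chi_sub, chi_mul]
        rw [chi, chi, chi]
        linear_combination I2 - ζ * I4
      rw [e]
      exact Ideal.sub_mem _ (Submodule.mem_sup_left (Ideal.mem_span_singleton'.2 ⟨_, rfl⟩))
        (Submodule.mem_sup_right (Ideal.mul_mem_right _ _ hζ))
  obtain ⟨c, hc, hcp⟩ := krull key
  obtain ⟨q, hq, m, hm, hqm⟩ := Submodule.mem_sup.1 hcp
  obtain ⟨a, rfl⟩ := Ideal.mem_span_singleton'.1 hq
  obtain ⟨b, rfl⟩ := Ideal.mem_span_singleton'.1 hm
  exact ⟨c, b, hc, a, by linear_combination -hqm⟩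

end Pool.Agent.H941.QH
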