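import Pool.Agent.H941.ND.Nod
import Pool.Agent.H941.QH.Loc

set_option autoImplicit false
set_option linter.unusedSectionVars false
set_option linter.unusedVariables false

/-! # Continuous functions on a curve -/

namespace Pool.Agent.H941.QH

open Polynomial Finset Filter Topology Metric Pool.Agent.Helper748.TP Pool.Agent.H941.TF
  Pool.Agent.H941.SC Pool.Agent.H941.NC Pool.Agent.H941.ND

/-- the form is quasi-homogeneous at a point -/
def QP (Q h l : ℂ[X][X]) (t x : ℂ) : Prop :=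
  ∃ (α β g : ℂ[X][X]) (w1 w2 : ℤ), VF α β t x (w1 : ℂ) (w2 : ℂ) ∧ α * l + β * h = g * Q ∧
    ∀ m : ℤ, ev2 g t x ≠ m

theorem QP.reg {Q h l p ρ : ℂ[X][X]} {t x : ℂ} (P : QP Q h l t x) {B : Finset ℂ} (hQm : Q.Monic)
    (hi : dt h * Q - h * dt Q = derivative l * Q - l * derivative Q) (E : EE Q h l p ρ)
    (hsep : ∀ t ∉ B, (evt t Q).Separable)
    (hhne : ∀ t ∉ B, ∀ x, ev2 Q t x = 0 → ev2 h t x ≠ 0)
    (hrel : ∀ t ∉ B, ∀ x, ev2 Q t x = 0 → ev2 l t x * ev2 p t x + ev2 h t x * ev2 ρ t x = 0)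
    (htan : ∀ t ∉ B, ∀ x, ev2 Q t x = 0 → ∀ a c : ℂ, ev2 l t x * a + ev2 h t x * c = 0 →
      ev2 (dt Q) t x * a + ev2 (derivative Q) t x * c = 0) :
    ∃ c W, ev2 c t x ≠ 0 ∧ Q ∣ c * p - h * W := by
  obtain ⟨α, β, g, w1, w2, V, hg, hres⟩ := P
  have e0 : ∀ s y, ev2 Q s y = 0 → ev2 l s y * ev2 α s y + ev2 h s y * ev2 β s y = 0 := by
    intro s y h0
    have h1 := congrArg (fun P => ev2 P s y) hg
    beta_reduce at h1
    rw [ev2_add, ev2_mul, ev2_mul, ev2_mul, h0, mul_zero] at h1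
    linear_combination h1
  obtain ⟨κ, hκ⟩ : Q ∣ α * dt Q + β * derivative Q := by
    refine dvd_of_ev hQm (B := B) fun s hs => ⟨hsep s hs, fun y h0 => ?_⟩
    rw [ev2_add, ev2_mul, ev2_mul]
    linear_combination htan s hs y h0 _ _ (e0 s y h0)
  obtain ⟨Ξ, hΞ⟩ : Q ∣ β * p - α * ρ := by
    refine dvd_of_ev hQm (B := B) fun s hs => ⟨hsep s hs, fun y h0 => ?_⟩
    rw [ev2_sub, ev2_mul, ev2_mul]
    have h1 := hrel s hs y h0
    have h2 := e0 s y h0
    refine (mul_eq_zero.1 ?_).resolve_left (hhne s hs y h0)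
    linear_combination ev2 p s y * h2 - ev2 α s y * h1
  exact loc V hQm.ne_zero hi E (κ := κ) (by rw [hκ]; ring) hg hΞ hres

/-- **Continuous functions on a curve with ordinary double points.** -/
theorem start {N : ℕ} {Q F : ℂ[X][X]} {B : Finset ℂ} (hFm : F.Monic)
    (hFs : ∀ t ∉ B, (evt t F).Separable) (hF0 : F.natDegree ≠ 0)
    (hFQ : F ∣ Q) {A H : ℂ[X][X]} (hH : ∀ t ∉ B, ∀ x, ev2 F t x = 0 → ev2 H t x ≠ 0)
    (hnode : ∀ t x, ev2 F t x = 0 → ev2 (dt F) t x = 0 → ev2 (derivative F) t x = 0 →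
      (ev2 (derivative (derivative F)) t x ≠ 0 ∧
        ev2 (dt (derivative F)) t x ^ 2 -
          ev2 (dt (dt F)) t x * ev2 (derivative (derivative F)) t x ≠ 0) ∨
      ∃ c W, ev2 c t x ≠ 0 ∧ F ∣ c * A - H * W)
    (hpar : ∀ b, ∃ (m : ℕ) (a : Fin N → ℂ → ℂ) (L : Fin N → ℂ), 0 < m ∧
      (∀ j, AnalyticAt ℂ (a j) 0) ∧ Par N Q (fun u => b + u ^ m) a ∧
      (∀ j, (∀ᶠ u in 𝓝[≠] (0 : ℂ), ev2 F (b + u ^ m) (a j u) = 0) →
        Tendsto (fun u => ev2 A (b + u ^ m) (a j u) / ev2 H (b + u ^ m) (a j u))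
          (𝓝[≠] 0) (𝓝 (L j))) ∧ ∀ j i, a j 0 = a i 0 → L j = L i) :
    ∃ W, F ∣ A - H * W := by
  classical
  have hne : ∀ {t x : ℂ}, t ∉ B → ev2 F t x = 0 → ev2 (derivative F) t x ≠ 0 := by
    intro t x ht h0
    have := sep_der (hFs t ht) h0
    rwa [← evt_der] at this
  obtain ⟨P, hP⟩ := bdd_poly hFm hF0 hFQ hFs hH (fun b => by
    obtain ⟨m, a, L, hm, ha, Pr, hL, -⟩ := hpar b
    exact ⟨m, a, L, hm, ha, Pr, hL⟩)
  have hPF : ∀ t ∉ B, ∀ x, ev2 F t x = 0 →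
      ev2 P t x / ev2 (derivative F) t x = ev2 A t x / ev2 H t x := by
    intro t ht x h0
    have h1 := ev2_dvd hP h0
    rw [ev2_sub, ev2_mul, ev2_mul] at h1
    rw [div_eq_div_iff (hne ht h0) (hH t ht x h0)]
    linear_combination -h1
  suffices hW : ∃ W, F ∣ P - derivative F * W by
    obtain ⟨W, hW⟩ := hW
    refine ⟨W, dvd_of_ev hFm (B := B) fun t ht => ⟨hFs t ht, fun x hx => ?_⟩⟩
    have h1 := ev2_dvd hP hx
    have h2 := ev2_dvd hW hx
    have h3 := hne ht hx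
    rw [ev2_sub, ev2_mul, ev2_mul] at h1
    rw [ev2_sub, ev2_mul] at h2 ⊢
    refine (mul_eq_zero.1 ?_).resolve_left h3
    linear_combination h1 + ev2 H t x * h2
  set w := derivative F with hw
  set I : Ideal ℂ[X][X] := Ideal.span {F, w} with hI
  set J : Ideal ℂ[X][X] := Submodule.comap (LinearMap.toSpanSingleton ℂ[X][X] ℂ[X][X] P) I with hJd
  have hmem : ∀ c, (∃ W, F ∣ c * P - w * W) ↔ c ∈ J := by
    intro c
    rw [hJd, Submodule.mem_comap, LinearMap.toSpanSingleton_apply, smul_eq_mul, hI,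
      Ideal.mem_span_pair]
    constructor
    · rintro ⟨W, v, hv⟩
      exact ⟨v, W, by linear_combination -hv⟩
    · rintro ⟨a, b, hab⟩
      exact ⟨b, a, by rw [← hab]; ring⟩
  by_cases hT : J = ⊤
  · have h1 : (1 : ℂ[X][X]) ∈ J := by rw [hT]; trivial
    obtain ⟨W, h⟩ := (hmem 1).2 h1
    rw [one_mul] at h
    exact ⟨W, h⟩
  exfalso
  obtain ⟨M, hM, hJM⟩ := Ideal.exists_le_maximal J hT
  obtain ⟨t, x, hpt⟩ := max_pt M hM
  have hcon : ∀ g W, F ∣ g * P - w * W → ev2 g t x = 0 := fun g W h =>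
    (hpt g).1 (hJM ((hmem g).1 ⟨W, h⟩))
  have h0 := hcon F 0 ⟨P, by ring⟩
  have hx := hcon w P ⟨0, by ring⟩
  obtain ⟨m, a, L, hm, ha, Pr, hL, hLL⟩ := hpar t
  have hTa : AnalyticAt ℂ (fun u : ℂ => t + u ^ m) 0 := by fun_prop
  have hT0 : t + (0 : ℂ) ^ m = t := by rw [zero_pow hm.ne', add_zero]
  have hBu := ev_notin B t hm
  have hLim : ∀ j, (∀ᶠ u in 𝓝[≠] (0 : ℂ), ev2 F (t + u ^ m) (a j u) = 0) →
      Tendsto (fun u => ev2 P (t + u ^ m) (a j u) / ev2 w (t + u ^ m) (a j u))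
        (𝓝[≠] 0) (𝓝 (L j)) := by
    intro j hj
    refine (hL j hj).congr' ?_
    filter_upwards [hj, hBu] with u k1 k2
    exact (hPF _ k2 _ k1).symm
  by_cases ht : ev2 (dt F) t x = 0
  · rcases hnode t x h0 ht hx with ⟨hxx, hd⟩ | ⟨c, W, hc, hcW⟩
    swap
    · refine hc (hcon c W ?_)
      refine dvd_of_ev hFm (B := B) fun s hs => ⟨hFs s hs, fun y hy => ?_⟩
      have k1 := ev2_dvd hP hy
      have k2 := ev2_dvd hcW hy
      rw [ev2_sub, ev2_mul, ev2_mul] at k1 k2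
      rw [ev2_sub, ev2_mul, ev2_mul]
      refine (mul_eq_zero.1 ?_).resolve_left (hH s hs y hy)
      linear_combination (-ev2 c s y) * k1 + ev2 (derivative F) s y * k2
    obtain ⟨J', hJ', hJ0⟩ := famJ Pr hFm hFQ
    obtain ⟨j1, m1, j2, m2, z1, z2, hne2, hrat⟩ := node_two (T := fun u => t + u ^ m) hTa ha
      Pr.inj hJ' (x := x) (by rw [hT0]; exact h0) (by rw [hT0]; exact hx) (by rw [hT0]; exact hxx)
    obtain ⟨θ1, hθ1, hq1⟩ := node_lim hm (ha j1) z1 h0 ht hx hxx (hJ0 j1 m1)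
    obtain ⟨θ2, hθ2, hq2⟩ := node_lim hm (ha j2) z2 h0 ht hx hxx (hJ0 j2 m2)
    have l1 := lin_lim (P := w) hm (ha j1) z1 hx hθ1
    have l2 := lin_lim (P := w) hm (ha j2) z2 hx hθ2
    set q1 := ev2 (dt w) t x + ev2 (derivative w) t x * θ1 with hq1d
    set q2 := ev2 (dt w) t x + ev2 (derivative w) t x * θ2 with hq2d
    have q1s : q1 ^ 2 ≠ 0 := by
      rw [hq1d]
      intro h
      apply hd
      rw [← hq1]
      linear_combination h
    have q2s : q2 ^ 2 ≠ 0 := by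
      rw [hq2d]
      intro h
      apply hd
      rw [← hq2]
      linear_combination h
    have q10 : q1 ≠ 0 := fun h => q1s (by rw [h]; ring)
    have q20 : q2 ≠ 0 := fun h => q2s (by rw [h]; ring)
    have hqq : q1 / q2 = -1 := by
      refine tendsto_nhds_unique (l1.div l2 q20) (hrat.congr' ?_)
      filter_upwards [ev_ne] with u hu
      have h3 : u ^ m ≠ 0 := pow_ne_zero m hu
      change _ = ev2 w (t + u ^ m) (a j1 u) / u ^ m / (ev2 w (t + u ^ m) (a j2 u) / u ^ m)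
      rw [div_div_div_cancel_right₀ h3]
    have hqq' : q1 = -q2 := by
      rw [div_eq_iff q20] at hqq
      rw [hqq]
      ring
    have hLe : L j1 = L j2 := hLL j1 j2 (by rw [z1, z2])
    have hPp : ev2 P t x = 0 := by
      have e1 := tendP P t hm (ha j1)
      have e2 := (hLim j1 (hJ0 j1 m1)).mul (tendP w t hm (ha j1))
      rw [z1] at e1 e2
      rw [hx, mul_zero] at e2
      refine tendsto_nhds_unique e1 (e2.congr' ?_)
      filter_upwards [hJ0 j1 m1, hBu] with u k1 k2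
      exact div_mul_cancel₀ _ (hne k2 k1)
    have hPl : ∀ j θ q, a j 0 = x → (∀ᶠ u in 𝓝[≠] (0 : ℂ), ev2 F (t + u ^ m) (a j u) = 0) →
        Tendsto (fun u => (a j u - x) / u ^ m) (𝓝[≠] 0) (𝓝 θ) →
        Tendsto (fun u => ev2 w (t + u ^ m) (a j u) / u ^ m) (𝓝[≠] 0) (𝓝 q) →
        ev2 (dt P) t x + ev2 (derivative P) t x * θ = L j * q := by
      intro j θ q hj0 hj hθ hq
      refine tendsto_nhds_unique (lin_lim (P := P) hm (ha j) hj0 hPp hθ)
        (((hLim j hj).mul hq).congr' ?_)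
      filter_upwards [hj, hBu, ev_ne] with u k1 k2 k3
      have h3 : u ^ m ≠ 0 := pow_ne_zero m k3
      have h4 := hne k2 k1
      rw [div_mul_div_comm, mul_comm (ev2 w (t + u ^ m) (a j u)) (u ^ m),
        mul_div_mul_right _ _ h4]
    have c1 := hPl j1 θ1 q1 z1 (hJ0 j1 m1) hθ1 l1
    have c2 := hPl j2 θ2 q2 z2 (hJ0 j2 m2) hθ2 l2
    have hθ : θ1 - θ2 ≠ 0 := by
      intro h
      apply q20
      have h1 : q1 = q2 := by
        rw [hq1d, hq2d, sub_eq_zero.1 h]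
      rw [h1] at hqq'
      linear_combination (1 / 2 : ℂ) * hqq'
    have hPx : ev2 (derivative P) t x = L j1 * ev2 (derivative w) t x := by
      refine sub_eq_zero.1 ((mul_eq_zero.1 ?_).resolve_right hθ)
      rw [← hLe, hq2d] at c2
      rw [hq1d] at c1
      linear_combination c1 - c2
    have hPt : ev2 (dt P) t x = L j1 * ev2 (dt w) t x := by
      rw [hq1d] at c1
      linear_combination c1 - θ1 * hPx
    obtain ⟨g, W, hg, hgW⟩ := node_div h0 ht hx hxx hd hPp hPt hPx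
    exact hg (hcon g W hgW)
  · obtain ⟨j, hj, hj0⟩ := fam (Γ := F) Pr hTa ha hFm hFQ (ξ := x) (by rw [hT0]; exact h0)
    have hb : Br F P w t x (L j) := by
      refine ⟨m, a j, hm, ha j, hj, hj0, ?_, hLim j hj0⟩
      filter_upwards [hj0, hBu] with u k1 k2
      exact hne k2 k1
    obtain ⟨g, W, hg, hgW, -⟩ := hb.div (Or.inr ht)
    exact hg (hcon g W hgW)

end Pool.Agent.H941.QH
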