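import Pool.Agent.H941.QH.Start
import Pool.Agent.H941.NC.Step

set_option autoImplicit false
set_option linter.unusedSectionVars false
set_option linter.unusedVariables false

/-! # Adding a component which meets the curve transversally -/

namespace Pool.Agent.H941.QH

open Polynomial Finset Filter Topology Metric Pool.Agent.Helper748.TP Pool.Agent.H941.TF
  Pool.Agent.H941.SC Pool.Agent.H941.NC Pool.Agent.H941.ND

/-- at a transversal intersection the two curves generate the maximal ideal -/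
theorem trans_dec {A Γ R : ℂ[X][X]} {t x : ℂ} (hA : ev2 A t x = 0) (hΓ : ev2 Γ t x = 0)
    (hR : ev2 R t x = 0)
    (htr : ev2 (dt A) t x * ev2 (derivative Γ) t x - ev2 (derivative A) t x * ev2 (dt Γ) t x ≠ 0) :
    ∃ c s w, ev2 c t x ≠ 0 ∧ c * R = A * s + Γ * w := by
  obtain ⟨A1, A2, eA, a1, a2⟩ := dec' A t x hA
  obtain ⟨G1, G2, eG, g1, g2⟩ := dec' Γ t x hΓ
  obtain ⟨R1, R2, eR, -⟩ := dec' R t x hR
  refine ⟨A1 * G2 - A2 * G1, R1 * G2 - R2 * G1, A1 * R2 - A2 * R1, ?_, ?_⟩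
  · rw [ev2_sub, ev2_mul, ev2_mul, ← a1, ← a2, ← g1, ← g2]
    exact htr
  · rw [eR, eA, eG]
    ring

section
variable {N : ℕ} {Q γ hx ht V : ℂ[X][X]} {σ : ℝ} {d D0 : ℂ[X]} {p r q : ℂ[X][X]}

/-- The difference quotient on a component. -/
theorem quo (D : Dat N Q γ hx ht σ V d p r q) (hN2 : 2 ≤ N) (hσ : σ < 0) {M : ℕ}
    (hγ : γ ∣ Q ^ M) (hD0 : D0 ≠ 0) {α β : ℂ[X][X]} (hαβ : C D0 = α * Q + β * derivative Q)
    {p1 ρ Z : ℂ[X][X]} (hp1 : p = C d * p1) (TZ : TD 3 Z)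
    (hE : EE Q (kc (σ : ℂ) * hx) (kc (σ : ℂ) * ht) p1 ρ)
    {Γ R A Γi Ri Qi Ai : ℂ[X][X]} {n' n'' nA : ℕ} (hΓR : Γ * R = Q) (hA : A ∣ R) (hAm : A.Monic)
    (hΓm : Γ.Monic) (iΓ : Inf Γ Γi n') (iR : Inf R Ri n'') (iA : Inf A Ai nA) (hAi : Ai ∣ Ri)
    (hnA : 3 ≤ nA) (hnN : n' + n'' = N) (hQi : Γi * Ri = Qi) (hs : (evt 0 Qi).Separable)
    (hAz : ∀ t ∉ D0.roots.toFinset, ∀ x, ev2 A t x = 0 →
      ev2 (p1 - kc (σ : ℂ) * hx * Z) t x = 0)
    (hinf : ∀ x : ℂ → ℂ, AnalyticAt ℂ x 0 → (∀ᶠ u in 𝓝 (0 : ℂ), ev2 Qi u (x u) = 0) →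
      ∃ L, Tendsto (fun u => u ^ (3 : ℤ) * (ev2 p1 u⁻¹ (x u / u) /
        ev2 (kc (σ : ℂ) * hx) u⁻¹ (x u / u))) (𝓝[≠] 0) (𝓝 L))
    (hmeet : ∀ t x, ev2 Γ t x = 0 → ev2 A t x = 0 →
      ev2 (dt A) t x * ev2 (derivative Γ) t x - ev2 (derivative A) t x * ev2 (dt Γ) t x ≠ 0 ∨
      QP Q (kc (σ : ℂ) * hx) (kc (σ : ℂ) * ht) t x) (c δ : ℂ) {v : ℂ → ℂ → ℂ}
    (hv : ∀ t x, v t x = if ev2 Γ t x = 0 then
      (ev2 p1 t x / ev2 (kc (σ : ℂ) * hx) t x - ev2 Z t x) / ev2 A t x - c else δ) :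
    (∀ t ∉ D0.roots.toFinset, ∀ a : ℂ → ℂ, DifferentiableAt ℂ a t →
      (∀ᶠ s in 𝓝 t, ev2 Q s (a s) = 0) → DifferentiableAt ℂ (fun s => v s (a s)) t) ∧
    (∀ b, ∃ (m : ℕ) (a : Fin N → ℂ → ℂ) (L : Fin N → ℂ), 0 < m ∧
      (∀ j, AnalyticAt ℂ (a j) 0) ∧ Par N Q (fun u => b + u ^ m) a ∧
      ∀ j, Tendsto (fun u => v (b + u ^ m) (a j u)) (𝓝[≠] 0) (𝓝 (L j))) ∧
    (∃ X : Fin N → ℂ → ℂ, Par N Q (fun u => u⁻¹) (fun j u => X j u / u) ∧
      ∀ j, ∃ l, Tendsto (fun u => v u⁻¹ (X j u / u)) (𝓝[≠] 0) (𝓝 l) ∧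
        (4 ≤ nA → c = 0 → δ = 0 → l = 0)) := by
  classical
  have hQm := D.monic
  have hQN := D.deg
  have hB : ∀ t ∉ D0.roots.toFinset, D0.eval t ≠ 0 := by
    intro t ht h
    rw [Multiset.mem_toFinset, mem_roots hD0] at ht
    exact ht h
  have hsep : ∀ t ∉ D0.roots.toFinset, (evt t Q).Separable := fun t ht => sep_of_disc hαβ (hB t ht)
  have hΓQ : ∀ t x, ev2 Γ t x = 0 → ev2 Q t x = 0 := by
    intro t x h
    rw [← hΓR, ev2_mul, h, zero_mul]
  have hAQ : ∀ t x, ev2 A t x = 0 → ev2 R t x = 0 := fun t x h => ev2_dvd hA h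
  have hΓRne : ∀ t ∉ D0.roots.toFinset, ∀ x, ev2 Γ t x = 0 → ev2 R t x ≠ 0 := by
    intro t ht x h0
    have h1 := hsep t ht
    rw [← hΓR, map_mul] at h1
    exact sep_ne h1 h0
  have hΓAne : ∀ t ∉ D0.roots.toFinset, ∀ x, ev2 Γ t x = 0 → ev2 A t x ≠ 0 := by
    intro t ht x h0 h1
    exact hΓRne t ht x h0 (hAQ t x h1)
  have hi := integ (σ : ℂ) D.γ0 D.hxE D.htE
  have hhne : ∀ t ∉ D0.roots.toFinset, ∀ x, ev2 Q t x = 0 →
      ev2 (kc (σ : ℂ) * hx) t x ≠ 0 := fun t ht x h0 => hneQ D hγ hσ (hsep t ht) h0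
  have hAd : A ∣ Q := hA.trans ⟨Γ, by rw [← hΓR]; ring⟩
  have hΓd : Γ ∣ Q := ⟨R, hΓR.symm⟩
  set h := kc (σ : ℂ) * hx with hh
  have iQ : Inf Q Qi N := by
    have := iΓ.mul iR
    rwa [hΓR, hQi, hnN] at this
  have hs' : (evt 0 (Γi * Ri)).Separable := by rw [hQi]; exact hs
  refine ⟨fun t ht a ha h0 => ?_, fun b => ?_, ?_⟩
  · have hid : HasDerivAt (fun u : ℂ => u) 1 t := hasDerivAt_id' t
    have hd : ∀ P : ℂ[X][X], DifferentiableAt ℂ (fun u => ev2 P u (a u)) t := fun P =>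
      (hasDerivAt_ev2 P hid ha.hasDerivAt).differentiableAt
    by_cases h1 : ev2 Γ t (a t) = 0
    · have h2 := hΓRne t ht _ h1
      have h3 : ∀ᶠ s in 𝓝 t, ev2 R s (a s) ≠ 0 := (hd R).continuousAt.eventually_ne h2
      have h4 : (fun s => v s (a s)) =ᶠ[𝓝 t] fun s => (ev2 p1 s (a s) / ev2 h s (a s) -
          ev2 Z s (a s)) / ev2 A s (a s) - c := by
        filter_upwards [h0, h3] with s e1 e2
        rw [← hΓR, ev2_mul] at e1
        rw [hv, if_pos ((mul_eq_zero.1 e1).resolve_right e2)]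
      exact (((((hd p1).fun_div (hd h) (hhne t ht _ (hΓQ _ _ h1))).fun_sub
        (hd Z)).fun_div (hd A) (hΓAne t ht _ h1)).fun_sub
          (differentiableAt_const _)).congr_of_eventuallyEq h4
    · have h3 : ∀ᶠ s in 𝓝 t, ev2 Γ s (a s) ≠ 0 := (hd Γ).continuousAt.eventually_ne h1
      have h4 : (fun s => v s (a s)) =ᶠ[𝓝 t] fun _ => δ := by
        filter_upwards [h3] with s e1
        rw [hv, if_neg e1]
      exact (differentiableAt_const _).congr_of_eventuallyEq h4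
  · obtain ⟨m, a, L, hm, ha, P, hd, hL, hLL⟩ := fin_pt2 D hN2 hσ hγ hD0 hαβ b
    have hT : AnalyticAt ℂ (fun u : ℂ => b + u ^ m) 0 := by fun_prop
    have hT0 : b + (0 : ℂ) ^ m = b := by rw [zero_pow hm.ne', add_zero]
    have hBu := ev_notin D0.roots.toFinset b hm
    have hex : ∀ j, ∃ l, Tendsto (fun u => v (b + u ^ m) (a j u)) (𝓝[≠] 0) (𝓝 l) := by
      intro j
      rcases fam_ind (Γ := Γ) P j with h1 | h1
      · have hΓ0 : ev2 Γ b (a j 0) = 0 := tendsto_nhds_unique (tendP Γ b hm (ha j))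
          (tendsto_const_nhds.congr' (h1.mono fun u hu => hu.symm))
        by_cases hA0 : ev2 A b (a j 0) = 0
        · -- an intersection point
          have hLD : ∃ c' s, ev2 c' b (a j 0) ≠ 0 ∧ Γ ∣ c' * (p1 - h * Z) - h * (A * s) := by
            rcases hmeet b (a j 0) hΓ0 hA0 with htr | hqp
            · obtain ⟨i, hi0, hi'⟩ := fam (Γ := A) P hT ha hAm hAd (ξ := a j 0)
                (by rw [hT0]; exact hA0)
              have e1 : L j = L i := hLL j i hi0.symm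
              have e2 : L i = ev2 Z b (a i 0) := by
                refine tendsto_nhds_unique (hL i) ((tendP Z b hm (ha i)).congr' ?_)
                filter_upwards [hi', hd, hBu] with u k1 k2 k3
                have k4 := hAz _ k3 _ k1
                have k5 := hhne _ k3 _ (ev2_dvd hAd k1)
                rw [ev2_sub, ev2_mul h] at k4
                rw [yyQ D hp1 _ k2, eq_div_iff k5]
                linear_combination -k4
              have hb : Br Γ p1 h b (a j 0) (L j) := by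
                refine ⟨m, a j, hm, ha j, rfl, h1, ?_, (hL j).congr' ?_⟩
                · filter_upwards [h1, hBu] with u k1 k2
                  exact hhne _ k2 _ (ev2_dvd hΓd k1)
                · filter_upwards [hd] with u hu
                  exact yyQ D hp1 _ hu
              have hsm : ev2 (derivative Γ) b (a j 0) ≠ 0 ∨ ev2 (dt Γ) b (a j 0) ≠ 0 := by
                by_contra hcon
                push Not at hcon
                apply htr
                rw [hcon.1, hcon.2, mul_zero, mul_zero, sub_zero]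
              obtain ⟨g, W, hg, hgW, hWL⟩ := hb.div hsm
              have hR0 : ev2 (W - g * Z) b (a j 0) = 0 := by
                rw [ev2_sub, ev2_mul, hWL, e1, e2, hi0, sub_self]
              obtain ⟨c', s, w, hc', hcR⟩ := trans_dec hA0 hΓ0 hR0 htr
              obtain ⟨y, hy⟩ := hgW
              refine ⟨c' * g, s, by rw [ev2_mul]; exact mul_ne_zero hc' hg, c' * y + h * w, ?_⟩
              linear_combination c' * hy + h * hcR
            · obtain ⟨c', W, hc', y, hy⟩ := hqp.reg hQm hi hE hsep hhne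
                (fun t ht x h0 => relQ D hγ hσ (hsep t ht) h0 hE)
                (fun t ht x h0 a c h => tanQ D hγ hσ (hsep t ht) h0 h)
              obtain ⟨s, hs1⟩ : A ∣ W - c' * Z := by
                refine dvd_of_ev hAm (B := D0.roots.toFinset) fun t ht =>
                  ⟨(hsep t ht).of_dvd (map_dvd (evt t) hAd), fun x h0 => ?_⟩
                have k1 := hAz t ht x h0
                have k2 := hhne t ht x (ev2_dvd hAd h0)
                have k3 := ev2_dvd (⟨y, hy⟩ : Q ∣ c' * p1 - h * W) (ev2_dvd hAd h0)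
                rw [ev2_sub, ev2_mul, ev2_mul] at k3
                rw [ev2_sub, ev2_mul h] at k1
                rw [ev2_sub, ev2_mul]
                refine (mul_eq_zero.1 ?_).resolve_left k2
                linear_combination ev2 c' t x * k1 - k3
              refine ⟨c', s, hc', R * y, ?_⟩
              rw [← hs1]
              linear_combination hy - y * hΓR
          obtain ⟨c', s, hc', hcs⟩ := hLD
          refine ⟨ev2 s b (a j 0) / ev2 c' b (a j 0) - c, ?_⟩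
          refine (((tendP s b hm (ha j)).div (tendP c' b hm (ha j)) hc').sub
            tendsto_const_nhds).congr' ?_
          filter_upwards [h1, hBu, (tendP c' b hm (ha j)).eventually_ne hc'] with u k1 k2 k3
          have k4 := hhne _ k2 _ (ev2_dvd hΓd k1)
          have k5 := hΓAne _ k2 _ k1
          have k6 := ev2_dvd hcs k1
          rw [ev2_sub, ev2_mul c', ev2_sub, ev2_mul h, ev2_mul h, ev2_mul A] at k6
          rw [hv, if_pos k1]
          change ev2 s _ _ / ev2 c' _ _ - c = _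
          congr 1
          rw [div_eq_div_iff k3 k5]
          field_simp
          linear_combination -k6
        · refine ⟨(L j - ev2 Z b (a j 0)) / ev2 A b (a j 0) - c, ?_⟩
          refine ((((hL j).sub (tendP Z b hm (ha j))).div (tendP A b hm (ha j)) hA0).sub
            tendsto_const_nhds).congr' ?_
          filter_upwards [h1, hd] with u k1 k2
          rw [hv, if_pos k1]
          change (yy σ hx d p (b + u ^ m) (a j u) - ev2 Z _ _) / ev2 A _ _ - c = _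
          rw [yyQ D hp1 _ k2]
      · refine ⟨δ, tendsto_const_nhds.congr' ?_⟩
        filter_upwards [h1] with u e1
        rw [hv, if_neg e1]
    choose l hl using hex
    exact ⟨m, a, l, hm, ha, P, hl⟩
  · obtain ⟨X', hX, hX0, hXr, PX⟩ := iQ.par hQm hQN (by omega) hs
    have hXroot : ∀ j, ∀ᶠ u in 𝓝 (0 : ℂ), ev2 Qi u (X' j u) = 0 := by
      intro j
      filter_upwards [hXr] with u hu
      rw [ev2, hu]
      exact eval_nod (x := fun j => X' j u) j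
    refine ⟨X', PX, fun j => ?_⟩
    rcases inf_dich iΓ iR hs' (hX j) (by rw [hQi]; exact hXroot j) with ⟨h1, h2, h3⟩ | h1
    · have n1 : ev2 Ai 0 (X' j 0) ≠ 0 := fun h => h3 (ev2_dvd hAi h)
      obtain ⟨L, hL⟩ := hinf (X' j) (hX j) (hXroot j)
      obtain ⟨l, hl⟩ := tend3 TZ (hX j)
      have t1 := iA.lim (hX j)
      obtain ⟨k, hk⟩ := Nat.exists_eq_add_of_le hnA
      have hu : Tendsto (fun u : ℂ => u ^ k) (𝓝[≠] 0) (𝓝 (0 ^ k)) :=
        ((continuous_pow k).tendsto (0 : ℂ)).mono_left (nhdsWithin_le_nhds (s := {0}ᶜ))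
      refine ⟨0 ^ k * ((L - l) / ev2 Ai 0 (X' j 0)) - c, ?_, fun h4 hc hδ => ?_⟩
      · refine ((hu.mul ((hL.sub hl).div t1 n1)).sub tendsto_const_nhds).congr' ?_
        filter_upwards [h1, ev_ne, t1.eventually_ne n1] with u k1 k2 k3
        rw [hv, if_pos k1]
        change u ^ k * ((u ^ (3 : ℤ) * _ - u ^ (3 : ℤ) * _) / (u ^ (nA : ℤ) * _)) - c = _
        congr 1
        have k4 := right_ne_zero_of_mul k3
        have k5 : u ^ (nA : ℤ) = u ^ (3 : ℤ) * u ^ k := by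
          rw [hk, ← zpow_natCast, ← zpow_add₀ k2]
          congr 1
        rw [k5]
        have k6 : ∀ A B E w1 w2 : ℂ, E ≠ 0 → w1 ≠ 0 → w2 ≠ 0 →
            w2 * ((w1 * A - w1 * B) / (w1 * w2 * E)) = (A - B) / E := by
          intro A B E w1 w2 i1 i2 i3
          field_simp
        exact k6 _ _ _ _ _ k4 (zpow_ne_zero _ k2) (pow_ne_zero _ k2)
      · rw [zero_pow (by omega), zero_mul, hc, sub_zero]
    · refine ⟨δ, tendsto_const_nhds.congr' ?_, fun _ _ hδ => hδ⟩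
      filter_upwards [h1] with u e1
      rw [hv, if_neg e1]

/-- **A component which meets a curve of degree at least four transversally.** -/
theorem step2 (D : Dat N Q γ hx ht σ V d p r q) (hN2 : 2 ≤ N) (hσ : σ < 0) {M : ℕ}
    (hγ : γ ∣ Q ^ M) (hD0 : D0 ≠ 0) {α β : ℂ[X][X]} (hαβ : C D0 = α * Q + β * derivative Q)
    {p1 ρ Z : ℂ[X][X]} (hp1 : p = C d * p1) (TZ : TD 3 Z)
    (hE : EE Q (kc (σ : ℂ) * hx) (kc (σ : ℂ) * ht) p1 ρ)
    {Γ R A Γi Ri Qi Ai : ℂ[X][X]} {n' n'' nA : ℕ} (hΓR : Γ * R = Q) (hA : A ∣ R) (hAm : A.Monic)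
    (hΓm : Γ.Monic) (iΓ : Inf Γ Γi n') (iR : Inf R Ri n'') (iA : Inf A Ai nA) (hAi : Ai ∣ Ri)
    (hnA : 4 ≤ nA) (hnN : n' + n'' = N) (hQi : Γi * Ri = Qi) (hs : (evt 0 Qi).Separable)
    (hAz : ∀ t ∉ D0.roots.toFinset, ∀ x, ev2 A t x = 0 →
      ev2 (p1 - kc (σ : ℂ) * hx * Z) t x = 0)
    (hinf : ∀ x : ℂ → ℂ, AnalyticAt ℂ x 0 → (∀ᶠ u in 𝓝 (0 : ℂ), ev2 Qi u (x u) = 0) →
      ∃ L, Tendsto (fun u => u ^ (3 : ℤ) * (ev2 p1 u⁻¹ (x u / u) /
        ev2 (kc (σ : ℂ) * hx) u⁻¹ (x u / u))) (𝓝[≠] 0) (𝓝 L))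
    (hmeet : ∀ t x, ev2 Γ t x = 0 → ev2 A t x = 0 →
      ev2 (dt A) t x * ev2 (derivative Γ) t x - ev2 (derivative A) t x * ev2 (dt Γ) t x ≠ 0 ∨
      QP Q (kc (σ : ℂ) * hx) (kc (σ : ℂ) * ht) t x) :
    ∀ t ∉ D0.roots.toFinset, ∀ x, ev2 Γ t x = 0 →
      ev2 (p1 - kc (σ : ℂ) * hx * Z) t x = 0 := by
  have hB : ∀ t ∉ D0.roots.toFinset, D0.eval t ≠ 0 := by
    intro t ht h
    rw [Multiset.mem_toFinset, mem_roots hD0] at ht
    exact ht h
  set v : ℂ → ℂ → ℂ := fun t x => if ev2 Γ t x = 0 then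
      (ev2 p1 t x / ev2 (kc (σ : ℂ) * hx) t x - ev2 Z t x) / ev2 A t x - 0 else 0 with hv
  obtain ⟨q1, q2, X', PX, q3⟩ := quo D hN2 hσ hγ hD0 hαβ hp1 TZ hE hΓR hA hAm hΓm iΓ iR iA hAi
    (by omega) hnN hQi hs hAz hinf hmeet 0 0 (v := v) fun t x => rfl
  have h1 := van (v := v) D.monic D.deg hαβ hB q1 (fun b _ => by
    obtain ⟨m, a, L, hm, ha, P, hL⟩ := q2 b
    exact ⟨m, a, hm, P, fun j => ⟨_, hL j⟩⟩) ⟨X', PX, fun j => by
    obtain ⟨l, hl, hl0⟩ := q3 j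
    rwa [hl0 hnA rfl rfl] at hl⟩
  intro t ht x h0
  have hQ0 : ev2 Q t x = 0 := by rw [← hΓR, ev2_mul, h0, zero_mul]
  have hsep := sep_of_disc hαβ (hB t ht)
  have h2 := h1 t ht x hQ0
  have h3 := hneQ D hγ hσ hsep hQ0
  have h4 : ev2 A t x ≠ 0 := by
    intro h
    rw [← hΓR, map_mul] at hsep
    exact sep_ne hsep h0 (ev2_dvd hA h)
  simp only [hv, if_pos h0, sub_zero] at h2
  have h5 := (div_eq_zero_iff.1 h2).resolve_right h4
  rw [sub_eq_zero, div_eq_iff h3] at h5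
  rw [ev2_sub, ev2_mul (kc (σ : ℂ) * hx)]
  linear_combination h5

/-- **An irreducible component which meets a cubic transversally.** -/
theorem step3 (D : Dat N Q γ hx ht σ V d p r q) (hN2 : 2 ≤ N) (hσ : σ < 0) {M : ℕ}
    (hγ : γ ∣ Q ^ M) (hD0 : D0 ≠ 0) {α β : ℂ[X][X]} (hαβ : C D0 = α * Q + β * derivative Q)
    {p1 ρ Z : ℂ[X][X]} (hp1 : p = C d * p1) (TZ : TD 3 Z)
    (hE : EE Q (kc (σ : ℂ) * hx) (kc (σ : ℂ) * ht) p1 ρ)
    {Γ R A Γi Ri Qi Ai : ℂ[X][X]} {n' n'' nA : ℕ} (hΓR : Γ * R = Q) (hA : A ∣ R) (hAm : A.Monic)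
    (hΓm : Γ.Monic) (hΓirr : Irreducible Γ) (iΓ : Inf Γ Γi n') (iR : Inf R Ri n'')
    (iA : Inf A Ai nA) (hAi : Ai ∣ Ri)
    (hnA : 3 ≤ nA) (hnN : n' + n'' = N) (hQi : Γi * Ri = Qi) (hs : (evt 0 Qi).Separable)
    (hAz : ∀ t ∉ D0.roots.toFinset, ∀ x, ev2 A t x = 0 →
      ev2 (p1 - kc (σ : ℂ) * hx * Z) t x = 0)
    (hinf : ∀ x : ℂ → ℂ, AnalyticAt ℂ x 0 → (∀ᶠ u in 𝓝 (0 : ℂ), ev2 Qi u (x u) = 0) →
      ∃ L, Tendsto (fun u => u ^ (3 : ℤ) * (ev2 p1 u⁻¹ (x u / u) /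
        ev2 (kc (σ : ℂ) * hx) u⁻¹ (x u / u))) (𝓝[≠] 0) (𝓝 L))
    (hmeet : ∀ t x, ev2 Γ t x = 0 → ev2 A t x = 0 →
      ev2 (dt A) t x * ev2 (derivative Γ) t x - ev2 (derivative A) t x * ev2 (dt Γ) t x ≠ 0 ∨
      QP Q (kc (σ : ℂ) * hx) (kc (σ : ℂ) * ht) t x) :
    ∃ c : ℂ, ∀ t x, ev2 Γ t x = 0 →
      ev2 (p1 - kc (σ : ℂ) * hx * (Z + kc c * A)) t x = 0 := by
  classical
  have hB : ∀ t ∉ D0.roots.toFinset, D0.eval t ≠ 0 := by
    intro t ht h
    rw [Multiset.mem_toFinset, mem_roots hD0] at ht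
    exact ht h
  obtain ⟨t1, ht1⟩ := Infinite.exists_notMem_finset D0.roots.toFinset
  have hΓd : Γ ∣ Q := ⟨R, hΓR.symm⟩
  have hne : ∀ t ∉ D0.roots.toFinset, ∀ x, ev2 Γ t x = 0 → ev2 A t x ≠ 0 ∧
      ev2 (kc (σ : ℂ) * hx) t x ≠ 0 := by
    intro t ht x h0
    have hsep := sep_of_disc hαβ (hB t ht)
    refine ⟨fun h => ?_, hneQ D hγ hσ hsep (ev2_dvd hΓd h0)⟩
    rw [← hΓR, map_mul] at hsep
    exact sep_ne hsep h0 (ev2_dvd hA h)
  obtain ⟨x1, hx1⟩ : ∃ x1, ev2 Γ t1 x1 = 0 := by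
    have h1 : (evt t1 Γ).natDegree ≠ 0 := by
      rw [natDegree_evt hΓm]
      intro h0
      rw [hΓm.natDegree_eq_zero.1 h0] at hΓirr
      exact hΓirr.not_isUnit isUnit_one
    obtain ⟨z, hz⟩ := IsAlgClosed.exists_root (evt t1 Γ) (by
      intro h
      exact h1 (natDegree_eq_of_degree_eq_some h))
    exact ⟨z, hz⟩
  set c := (ev2 p1 t1 x1 / ev2 (kc (σ : ℂ) * hx) t1 x1 - ev2 Z t1 x1) / ev2 A t1 x1 with hc
  refine ⟨c, ?_⟩
  set v : ℂ → ℂ → ℂ := fun t x => if ev2 Γ t x = 0 then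
      (ev2 p1 t x / ev2 (kc (σ : ℂ) * hx) t x - ev2 Z t x) / ev2 A t x - c else 1 with hv
  obtain ⟨q1, q2, X', PX, q3⟩ := quo D hN2 hσ hγ hD0 hαβ hp1 TZ hE hΓR hA hAm hΓm iΓ iR iA hAi
    hnA hnN hQi hs hAz hinf hmeet c 1 (v := v) fun t x => rfl
  have hcount := count (w := v) (B := insert t1 D0.roots.toFinset) D.monic D.deg hαβ
    (fun t ht => hB t fun h => ht (mem_insert_of_mem h))
    (fun t ht => q1 t fun h => ht (mem_insert_of_mem h)) (Z := {t1})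
    (fun t ht => by rw [mem_singleton] at ht; rw [ht]; exact mem_insert_self _ _)
    (fun b _ => by
      obtain ⟨m, a, L, hm, ha, P, hL⟩ := q2 b
      refine ⟨m, a, L, hm, P, hL, fun hb => ?_⟩
      rw [mem_singleton] at hb
      subst hb
      have hT : AnalyticAt ℂ (fun u : ℂ => b + u ^ m) 0 := by fun_prop
      have hT0 : b + (0 : ℂ) ^ m = b := by rw [zero_pow hm.ne', add_zero]
      obtain ⟨j, hj0, hj⟩ := fam (Γ := Γ) P hT ha hΓm hΓd (ξ := x1) (by rw [hT0]; exact hx1)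
      refine ⟨j, ?_⟩
      obtain ⟨n1, n2⟩ := hne b ht1 x1 hx1
      rw [← hj0] at n1 n2
      have t1 := (((((tendP p1 b hm (ha j)).div (tendP (kc (σ : ℂ) * hx) b hm (ha j)) n2).sub
        (tendP Z b hm (ha j))).div (tendP A b hm (ha j)) n1).sub (tendsto_const_nhds (x := c)))
      have t2 : Tendsto (fun u => v (b + u ^ m) (a j u)) (𝓝[≠] 0) (𝓝
          ((ev2 p1 b (a j 0) / ev2 (kc (σ : ℂ) * hx) b (a j 0) - ev2 Z b (a j 0)) /
            ev2 A b (a j 0) - c)) := by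
        refine t1.congr' ?_
        filter_upwards [hj] with u k1
        simp only [hv, if_pos k1]
        rfl
      rw [tendsto_nhds_unique (hL j) t2, hj0, hc, sub_self])
    (k := fun _ => 0) (by simp) ⟨X', PX, fun j => by
      obtain ⟨l, hl, -⟩ := q3 j
      exact ⟨l, by simpa using hl⟩⟩
  have hdv : Γ ∣ p1 - kc (σ : ℂ) * hx * (Z + kc c * A) := by
    refine irr_dvd hΓm hΓirr (B := insert t1 D0.roots.toFinset) fun t ht => ?_
    obtain ⟨x, hx1, hx2⟩ := hcount t ht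
    have ht' : t ∉ D0.roots.toFinset := fun h => ht (mem_insert_of_mem h)
    have h1 : ev2 Γ t x = 0 := by
      by_contra hcon
      simp only [hv, if_neg hcon] at hx2
      exact one_ne_zero hx2
    refine ⟨x, h1, ?_⟩
    simp only [hv, if_pos h1] at hx2
    obtain ⟨n1, n2⟩ := hne t ht' x h1
    rw [sub_eq_zero, div_eq_iff n1, sub_eq_iff_eq_add, div_eq_iff n2] at hx2
    rw [ev2_sub, ev2_mul (kc (σ : ℂ) * hx), ev2_add, ev2_mul (kc c), ev2_kc c]
    linear_combination hx2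
  exact fun t x h0 => ev2_dvd hdv h0

end

end Pool.Agent.H941.QH
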