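import Pool.Agent.H941.QH.Lin

set_option autoImplicit false
set_option linter.unusedSectionVars false
set_option linter.unusedVariables false

/-! # Vector fields at a fixed point: the operators -/

namespace Pool.Agent.H941.QH

open Polynomial Finset Filter Topology Metric Pool.Agent.Helper748.TP Pool.Agent.H941.TF
  Pool.Agent.H941.SC Pool.Agent.H941.NC Pool.Agent.H941.ND

variable {α β : ℂ[X][X]} {t x : ℂ} {w1 w2 : ℂ}

theorem pmul {a b : ℂ[X][X]} {i j : ℕ} (ha : a ∈ mx t x ^ i) (hb : b ∈ mx t x ^ j) :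
    a * b ∈ mx t x ^ (i + j) := by
  induction i generalizing a with
  | zero =>
    rw [zero_add]
    exact Ideal.mul_mem_left _ _ hb
  | succ i ih =>
    rw [mx_succ] at ha
    refine Submodule.mul_induction_on ha (fun m hm n hn => ?_) (fun m n hm hn => ?_)
    · rw [show i + 1 + j = (i + j) + 1 by ring, mx_succ, mul_assoc]
      exact Ideal.mul_mem_mul hm (ih hn)
    · rw [add_mul]
      exact Ideal.add_mem _ hm hn

theorem dec_pow {P : ℂ[X][X]} {k : ℕ} (h : P ∈ mx t x ^ (k + 1)) :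
    ∃ a ∈ mx t x ^ k, ∃ b ∈ mx t x ^ k, P = C (X - C t) * a + (X - C (C x)) * b := by
  rw [mx_succ] at h
  have h' : P ∈ (Ideal.span {C (X - C t)} ⊔ Ideal.span {X - C (C x)}) * mx t x ^ k := by
    rw [← Ideal.span_insert]
    exact h
  rw [Ideal.sup_mul, Submodule.mem_sup] at h'
  obtain ⟨p, hp, q, hq, hpq⟩ := h'
  obtain ⟨a, ha, rfl⟩ := Ideal.mem_span_singleton_mul.1 hp
  obtain ⟨b, hb, rfl⟩ := Ideal.mem_span_singleton_mul.1 hq
  exact ⟨a, ha, b, hb, hpq.symm⟩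

theorem τmem : C (X - C t) ∈ mx t x ^ 1 := by
  rw [mx_one]
  exact mem_mx.2 (by rw [evτ, sub_self])

theorem ξmem : X - C (C x) ∈ mx t x ^ 1 := by
  rw [mx_one]
  exact mem_mx.2 (by rw [evξ, sub_self])

theorem mem_one {P : ℂ[X][X]} (h : ev2 P t x = 0) : P ∈ mx t x ^ 1 := by
  rw [mx_one]
  exact mem_mx.2 h

theorem mem_sq {P : ℂ[X][X]} (h : ev2 P t x = 0) (h1 : ev2 (dt P) t x = 0)
    (h2 : ev2 (derivative P) t x = 0) : P ∈ mx t x ^ 2 := by
  obtain ⟨A, B, hP, e1, e2⟩ := dec' P t x h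
  rw [hP]
  rw [e1] at h1
  rw [e2] at h2
  exact Ideal.add_mem _ (pmul (i := 1) (j := 1) τmem (mem_one h1))
    (pmul (i := 1) (j := 1) ξmem (mem_one h2))

/-- the derivation of a vector field -/
noncomputable def chi (α β P : ℂ[X][X]) : ℂ[X][X] := α * dt P + β * derivative P

theorem chi_add (P Q : ℂ[X][X]) : chi α β (P + Q) = chi α β P + chi α β Q := by
  rw [chi, chi, chi, dt_add, derivative_add]
  ring

theorem chi_sub (P Q : ℂ[X][X]) : chi α β (P - Q) = chi α β P - chi α β Q := by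
  rw [chi, chi, chi, dt_sub, derivative_sub]
  ring

theorem chi_mul (P Q : ℂ[X][X]) : chi α β (P * Q) = chi α β P * Q + P * chi α β Q := by
  rw [chi, chi, chi, dt_mul, derivative_mul]
  ring

theorem chi_kc (c : ℂ) (P : ℂ[X][X]) : chi α β (kc c * P) = kc c * chi α β P := by
  rw [chi, chi, dt_kc, der_kc]
  ring

theorem chi_smul (c : ℂ) (P : ℂ[X][X]) : chi α β (c • P) = c • chi α β P := by
  rw [csmul, csmul, chi_kc]

theorem chi_mem1 (ha : ev2 α t x = 0) (hb : ev2 β t x = 0) (P : ℂ[X][X]) :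
    chi α β P ∈ mx t x ^ 1 := by
  refine mem_one ?_
  rw [chi, ev2_add, ev2_mul, ev2_mul, ha, hb, zero_mul, zero_mul, add_zero]

theorem chi_mem (ha : ev2 α t x = 0) (hb : ev2 β t x = 0) {k : ℕ} {P : ℂ[X][X]}
    (h : P ∈ mx t x ^ k) : chi α β P ∈ mx t x ^ k := by
  induction k generalizing P with
  | zero => exact mx_zero _ _ _
  | succ k ih =>
    obtain ⟨a, ha', b, hb', rfl⟩ := dec_pow h
    rw [chi_add, chi_mul, chi_mul]
    have e : k + 1 = 1 + k := add_comm _ _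
    rw [e]
    exact Ideal.add_mem _ (Ideal.add_mem _ (pmul (chi_mem1 ha hb _) ha') (pmul τmem (ih ha')))
      (Ideal.add_mem _ (pmul (chi_mem1 ha hb _) hb') (pmul ξmem (ih hb')))

/-- A vector field vanishing at a point, whose linear part has the eigenvalues `w1`, `w2`. -/
structure VF (α β : ℂ[X][X]) (t x w1 w2 : ℂ) : Prop where
  a0 : ev2 α t x = 0
  b0 : ev2 β t x = 0
  ex : ∃ u1 u2 v1 v2 μ : ℂ, u1 * v2 - u2 * v1 ≠ 0 ∧
    ev2 (dt α) t x * u1 + ev2 (dt β) t x * u2 = w1 * u1 ∧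
    ev2 (derivative α) t x * u1 + ev2 (derivative β) t x * u2 = w1 * u2 ∧
    ev2 (dt α) t x * v1 + ev2 (dt β) t x * v2 = w2 * v1 + μ * u1 ∧
    ev2 (derivative α) t x * v1 + ev2 (derivative β) t x * v2 = w2 * v2 + μ * u2

theorem chi_lin (u1 u2 : ℂ) : chi α β (kc u1 * C (X - C t) + kc u2 * (X - C (C x))) =
    kc u1 * α + kc u2 * β := by
  rw [chi_add, chi_kc, chi_kc, chi, chi, dtτ, dtξ, derτ, derξ]
  ring

theorem graded (V : VF α β t x w1 w2) (k : ℕ) : ∀ c : ℂ, (∀ i j : ℕ, c + i * w1 + j * w2 ≠ 0) →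
    ∀ ξ ∈ mx t x ^ k, ∃ ζ ∈ mx t x ^ k, chi α β ζ + kc c * ζ - ξ ∈ mx t x ^ (k + 1) := by
  obtain ⟨u1, u2, v1, v2, μ, hD, h1, h2, h3, h4⟩ := V.ex
  set u : ℂ[X][X] := kc u1 * C (X - C t) + kc u2 * (X - C (C x)) with hu
  set v : ℂ[X][X] := kc v1 * C (X - C t) + kc v2 * (X - C (C x)) with hv
  have hum : u ∈ mx t x ^ 1 :=
    Ideal.add_mem _ (Ideal.mul_mem_left _ _ τmem) (Ideal.mul_mem_left _ _ ξmem)
  have hvm : v ∈ mx t x ^ 1 :=
    Ideal.add_mem _ (Ideal.mul_mem_left _ _ τmem) (Ideal.mul_mem_left _ _ ξmem)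
  have zτ : ev2 (C (X - C t) : ℂ[X][X]) t x = 0 := by rw [evτ, sub_self]
  have zξ : ev2 (X - C (C x) : ℂ[X][X]) t x = 0 := by rw [evξ, sub_self]
  have u0 : ev2 u t x = 0 := by rw [hu, ev2_add, ev2_mul, ev2_mul, zτ, zξ]; ring
  have v0 : ev2 v t x = 0 := by rw [hv, ev2_add, ev2_mul, ev2_mul, zτ, zξ]; ring
  have ut : dt u = kc u1 := by rw [hu, dt_add, dt_kc, dt_kc, dtτ, dtξ]; ring
  have vt : dt v = kc v1 := by rw [hv, dt_add, dt_kc, dt_kc, dtτ, dtξ]; ring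
  have ux : derivative u = kc u2 := by rw [hu, derivative_add, der_kc, der_kc, derτ, derξ]; ring
  have vx : derivative v = kc v2 := by rw [hv, derivative_add, der_kc, der_kc, derτ, derξ]; ring
  have cu : chi α β u = kc u1 * α + kc u2 * β := by rw [hu, chi_lin]
  have cv : chi α β v = kc v1 * α + kc v2 * β := by rw [hv, chi_lin]
  have hu2 : chi α β u - kc w1 * u ∈ mx t x ^ 2 := by
    rw [cu]
    refine mem_sq ?_ ?_ ?_
    · simp only [ev2_sub, ev2_add, ev2_mul, ev2_kc, V.a0, V.b0, u0]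
      ring
    · simp only [dt_sub, dt_add, dt_kc, ut, ev2_sub, ev2_add, ev2_mul, ev2_kc]
      linear_combination h1
    · simp only [derivative_sub, derivative_add, der_kc, ux, ev2_sub, ev2_add, ev2_mul, ev2_kc]
      linear_combination h2
  have hv2 : chi α β v - kc w2 * v - kc μ * u ∈ mx t x ^ 2 := by
    rw [cv]
    refine mem_sq ?_ ?_ ?_
    · simp only [ev2_sub, ev2_add, ev2_mul, ev2_kc, V.a0, V.b0, u0, v0]
      ring
    · simp only [dt_sub, dt_add, dt_kc, ut, vt, ev2_sub, ev2_add, ev2_mul, ev2_kc]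
      linear_combination h3
    · simp only [derivative_sub, derivative_add, der_kc, ux, vx, ev2_sub, ev2_add, ev2_mul,
        ev2_kc]
      linear_combination h4
  clear ut vt ux vx cu cv u0 v0
  induction k with
  | zero =>
    intro c hc ξ hξ
    have hc0 : c ≠ 0 := by simpa using hc 0 0
    refine ⟨kc c⁻¹ * ξ, Ideal.mul_mem_left _ _ hξ, ?_⟩
    have e : chi α β (kc c⁻¹ * ξ) + kc c * (kc c⁻¹ * ξ) - ξ = chi α β (kc c⁻¹ * ξ) := by
      have h5 : (kc c * kc c⁻¹ : ℂ[X][X]) = 1 := by rw [← kc_mul, mul_inv_cancel₀ hc0, kc_one]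
      linear_combination ξ * h5
    rw [e, zero_add]
    exact chi_mem1 V.a0 V.b0 _
  | succ k ih =>
    intro c hc ξ hξ
    obtain ⟨a, ha, b, hb, hab⟩ := dec_pow hξ
    set D := u1 * v2 - u2 * v1 with hDd
    set ξ1 := kc D⁻¹ * (kc v2 * a - kc v1 * b) with hξ1
    set ξ2 := kc D⁻¹ * (kc u1 * b - kc u2 * a) with hξ2
    have hDD : kc D⁻¹ * (kc u1 * kc v2 - kc u2 * kc v1) = (1 : ℂ[X][X]) := by
      have e1 : (kc u1 * kc v2 - kc u2 * kc v1 : ℂ[X][X]) = kc D := by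
        rw [← kc_mul, ← kc_mul, hDd, kc, kc, kc, ← C_sub, ← C_sub]
      rw [e1, ← kc_mul, inv_mul_cancel₀ hD, kc_one]
    have hdec : ξ = u * ξ1 + v * ξ2 := by
      rw [hab, hξ1, hξ2, hu, hv]
      linear_combination (-(C (X - C t) * a + (X - C (C x)) * b)) * hDD
    have m1 : ξ1 ∈ mx t x ^ k := Ideal.mul_mem_left _ _ (Ideal.sub_mem _
      (Ideal.mul_mem_left _ _ ha) (Ideal.mul_mem_left _ _ hb))
    have m2 : ξ2 ∈ mx t x ^ k := Ideal.mul_mem_left _ _ (Ideal.sub_mem _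
      (Ideal.mul_mem_left _ _ hb) (Ideal.mul_mem_left _ _ ha))
    obtain ⟨ζ2, z2, r2⟩ := ih (c + w2) (fun i j h => hc i (j + 1) (by
      push_cast
      linear_combination h)) ξ2 m2
    obtain ⟨ζ1, z1, r1⟩ := ih (c + w1) (fun i j h => hc (i + 1) j (by
      push_cast
      linear_combination h)) (ξ1 - kc μ * ζ2) (Ideal.sub_mem _ m1 (Ideal.mul_mem_left _ _ z2))
    refine ⟨u * ζ1 + v * ζ2, ?_, ?_⟩
    · rw [show k + 1 = 1 + k from add_comm _ _]
      exact Ideal.add_mem _ (pmul hum z1) (pmul hvm z2)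
    · have e : chi α β (u * ζ1 + v * ζ2) + kc c * (u * ζ1 + v * ζ2) - ξ =
          (chi α β u - kc w1 * u) * ζ1 + (chi α β v - kc w2 * v - kc μ * u) * ζ2 +
          (u * (chi α β ζ1 + kc (c + w1) * ζ1 - (ξ1 - kc μ * ζ2)) +
          v * (chi α β ζ2 + kc (c + w2) * ζ2 - ξ2)) := by
        rw [hdec, chi_add, chi_mul, chi_mul, kc_add, kc_add]
        ring
      rw [e]
      refine Ideal.add_mem _ (Ideal.add_mem _ ?_ ?_) (Ideal.add_mem _ ?_ ?_)
      · rw [show k + 1 + 1 = 2 + k by ring]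
        exact pmul hu2 z1
      · rw [show k + 1 + 1 = 2 + k by ring]
        exact pmul hv2 z2
      · rw [show k + 1 + 1 = 1 + (k + 1) by ring]
        exact pmul hum r1
      · rw [show k + 1 + 1 = 1 + (k + 1) by ring]
        exact pmul hvm r2

/-- Approximate solutions. -/
theorem solve (V : VF α β t x w1 w2) {ψ : ℂ[X][X]}
    (hc : ∀ i j : ℕ, ev2 ψ t x + i * w1 + j * w2 ≠ 0) (K : ℕ) (ξ : ℂ[X][X]) :
    ∃ ζ, chi α β ζ + ψ * ζ - ξ ∈ mx t x ^ K := by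
  induction K with
  | zero => exact ⟨0, mx_zero _ _ _⟩
  | succ K ih =>
    obtain ⟨ζ, hζ⟩ := ih
    obtain ⟨ζ', h1, h2⟩ := graded V K _ hc _ hζ
    refine ⟨ζ - ζ', ?_⟩
    have e : chi α β (ζ - ζ') + ψ * (ζ - ζ') - ξ =
        -(chi α β ζ' + kc (ev2 ψ t x) * ζ' - (chi α β ζ + ψ * ζ - ξ)) -
          (ψ - kc (ev2 ψ t x)) * ζ' := by
      rw [chi_sub]
      ring
    rw [e]
    refine Ideal.sub_mem _ (Ideal.neg_mem_iff _ |>.2 h2) ?_
    rw [show K + 1 = 1 + K from add_comm _ _]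
    exact pmul (mem_one (by rw [ev2_sub, ev2_kc, sub_self])) h1

/-- the operator on functions, as a linear map -/
noncomputable def T1 (α β ψ : ℂ[X][X]) : ℂ[X][X] →ₗ[ℂ] ℂ[X][X] where
  toFun P := chi α β P + ψ * P
  map_add' P Q := by
    rw [chi_add]
    ring
  map_smul' c P := by
    rw [chi_smul, RingHom.id_apply, mul_smul_comm, smul_add]

/-- the operator on forms, as a linear map -/
noncomputable def T2 (α β ψ : ℂ[X][X]) :
    (ℂ[X][X] × ℂ[X][X]) →ₗ[ℂ] (ℂ[X][X] × ℂ[X][X]) where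
  toFun P := (chi α β P.1 + ψ * P.1 + (dt α * P.1 + dt β * P.2),
    chi α β P.2 + ψ * P.2 + (derivative α * P.1 + derivative β * P.2))
  map_add' P Q := by
    refine Prod.ext ?_ ?_
    · change chi α β (P.1 + Q.1) + ψ * (P.1 + Q.1) + (dt α * (P.1 + Q.1) + dt β * (P.2 + Q.2)) =
        chi α β P.1 + ψ * P.1 + (dt α * P.1 + dt β * P.2) +
        (chi α β Q.1 + ψ * Q.1 + (dt α * Q.1 + dt β * Q.2))
      rw [chi_add]
      ring
    · change chi α β (P.2 + Q.2) + ψ * (P.2 + Q.2) +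
        (derivative α * (P.1 + Q.1) + derivative β * (P.2 + Q.2)) =
        chi α β P.2 + ψ * P.2 + (derivative α * P.1 + derivative β * P.2) +
        (chi α β Q.2 + ψ * Q.2 + (derivative α * Q.1 + derivative β * Q.2))
      rw [chi_add]
      ring
  map_smul' c P := by
    refine Prod.ext ?_ ?_
    · change chi α β (c • P.1) + ψ * (c • P.1) + (dt α * (c • P.1) + dt β * (c • P.2)) =
        c • (chi α β P.1 + ψ * P.1 + (dt α * P.1 + dt β * P.2))
      rw [chi_smul, mul_smul_comm, mul_smul_comm, mul_smul_comm, smul_add, smul_add, smul_add]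
    · change chi α β (c • P.2) + ψ * (c • P.2) + (derivative α * (c • P.1) +
        derivative β * (c • P.2)) =
        c • (chi α β P.2 + ψ * P.2 + (derivative α * P.1 + derivative β * P.2))
      rw [chi_smul, mul_smul_comm, mul_smul_comm, mul_smul_comm, smul_add, smul_add, smul_add]

theorem inj1 (V : VF α β t x w1 w2) {ψ : ℂ[X][X]}
    (hc : ∀ i j : ℕ, ev2 ψ t x + i * w1 + j * w2 ≠ 0) {K : ℕ} {P : ℂ[X][X]}
    (h : chi α β P + ψ * P ∈ mx t x ^ K) : P ∈ mx t x ^ K := by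
  have := fin_quot (mx t x ^ K) le_rfl
  exact inj_of_surj ((mx t x ^ K).restrictScalars ℂ) (T1 α β ψ)
    (fun P hP => Ideal.add_mem _ (chi_mem V.a0 V.b0 hP) (Ideal.mul_mem_left _ _ hP))
    (fun ξ => solve V hc K ξ) h

theorem graded2 (V : VF α β t x w1 w2) {ψ : ℂ[X][X]}
    (hc1 : ∀ i j : ℕ, ev2 ψ t x + w1 + i * w1 + j * w2 ≠ 0)
    (hc2 : ∀ i j : ℕ, ev2 ψ t x + w2 + i * w1 + j * w2 ≠ 0) (k : ℕ) {A B : ℂ[X][X]}
    (hA : A ∈ mx t x ^ k) (hB : B ∈ mx t x ^ k) :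
    ∃ a ∈ mx t x ^ k, ∃ b ∈ mx t x ^ k,
      chi α β a + ψ * a + (dt α * a + dt β * b) - A ∈ mx t x ^ (k + 1) ∧
      chi α β b + ψ * b + (derivative α * a + derivative β * b) - B ∈ mx t x ^ (k + 1) := by
  obtain ⟨u1, u2, v1, v2, μ, hD, h1, h2, h3, h4⟩ := V.ex
  set c := ev2 ψ t x with hcd
  set D := u1 * v2 - u2 * v1 with hDd
  have hDD : kc D⁻¹ * (kc u1 * kc v2 - kc u2 * kc v1) = (1 : ℂ[X][X]) := by
    have e1 : (kc u1 * kc v2 - kc u2 * kc v1 : ℂ[X][X]) = kc D := by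
      rw [← kc_mul, ← kc_mul, hDd, kc, kc, kc, ← C_sub, ← C_sub]
    rw [e1, ← kc_mul, inv_mul_cancel₀ hD, kc_one]
  set ξ1 := kc D⁻¹ * (kc v2 * A - kc v1 * B) with hξ1
  set ξ2 := kc D⁻¹ * (kc u1 * B - kc u2 * A) with hξ2
  have eA : A = kc u1 * ξ1 + kc v1 * ξ2 := by
    rw [hξ1, hξ2]
    linear_combination (-A) * hDD
  have eB : B = kc u2 * ξ1 + kc v2 * ξ2 := by
    rw [hξ1, hξ2]
    linear_combination (-B) * hDD
  have m1 : ξ1 ∈ mx t x ^ k := Ideal.mul_mem_left _ _ (Ideal.sub_mem _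
    (Ideal.mul_mem_left _ _ hA) (Ideal.mul_mem_left _ _ hB))
  have m2 : ξ2 ∈ mx t x ^ k := Ideal.mul_mem_left _ _ (Ideal.sub_mem _
    (Ideal.mul_mem_left _ _ hB) (Ideal.mul_mem_left _ _ hA))
  obtain ⟨ζ2, z2, r2⟩ := graded V k (c + w2) hc2 ξ2 m2
  obtain ⟨ζ1, z1, r1⟩ := graded V k (c + w1) hc1 (ξ1 - kc μ * ζ2)
    (Ideal.sub_mem _ m1 (Ideal.mul_mem_left _ _ z2))
  have ma : kc u1 * ζ1 + kc v1 * ζ2 ∈ mx t x ^ k :=
    Ideal.add_mem _ (Ideal.mul_mem_left _ _ z1) (Ideal.mul_mem_left _ _ z2)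
  have mb : kc u2 * ζ1 + kc v2 * ζ2 ∈ mx t x ^ k :=
    Ideal.add_mem _ (Ideal.mul_mem_left _ _ z1) (Ideal.mul_mem_left _ _ z2)
  have mψ : ψ - kc c ∈ mx t x ^ 1 := mem_one (by rw [ev2_sub, ev2_kc, sub_self])
  refine ⟨_, ma, _, mb, ?_, ?_⟩
  · have e : chi α β (kc u1 * ζ1 + kc v1 * ζ2) + ψ * (kc u1 * ζ1 + kc v1 * ζ2) +
        (dt α * (kc u1 * ζ1 + kc v1 * ζ2) + dt β * (kc u2 * ζ1 + kc v2 * ζ2)) - A =
        kc u1 * (chi α β ζ1 + kc (c + w1) * ζ1 - (ξ1 - kc μ * ζ2)) +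
        kc v1 * (chi α β ζ2 + kc (c + w2) * ζ2 - ξ2) +
        ((ψ - kc c) * (kc u1 * ζ1 + kc v1 * ζ2) +
        ((dt α * kc u1 + dt β * kc u2 - kc w1 * kc u1) * ζ1 +
        (dt α * kc v1 + dt β * kc v2 - kc w2 * kc v1 - kc μ * kc u1) * ζ2)) := by
      rw [eA, chi_add, chi_kc, chi_kc, kc_add, kc_add]
      ring
    rw [e]
    refine Ideal.add_mem _ (Ideal.add_mem _ (Ideal.mul_mem_left _ _ r1)
      (Ideal.mul_mem_left _ _ r2)) ?_
    rw [show k + 1 = 1 + k from add_comm _ _]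
    refine Ideal.add_mem _ (pmul mψ ma) (Ideal.add_mem _ (pmul (mem_one ?_) z1)
      (pmul (mem_one ?_) z2))
    · simp only [ev2_sub, ev2_add, ev2_mul, ev2_kc]
      linear_combination h1
    · simp only [ev2_sub, ev2_add, ev2_mul, ev2_kc]
      linear_combination h3
  · have e : chi α β (kc u2 * ζ1 + kc v2 * ζ2) + ψ * (kc u2 * ζ1 + kc v2 * ζ2) +
        (derivative α * (kc u1 * ζ1 + kc v1 * ζ2) + derivative β * (kc u2 * ζ1 + kc v2 * ζ2)) -
          B =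
        kc u2 * (chi α β ζ1 + kc (c + w1) * ζ1 - (ξ1 - kc μ * ζ2)) +
        kc v2 * (chi α β ζ2 + kc (c + w2) * ζ2 - ξ2) +
        ((ψ - kc c) * (kc u2 * ζ1 + kc v2 * ζ2) +
        ((derivative α * kc u1 + derivative β * kc u2 - kc w1 * kc u2) * ζ1 +
        (derivative α * kc v1 + derivative β * kc v2 - kc w2 * kc v2 - kc μ * kc u2) * ζ2)) := by
      rw [eB, chi_add, chi_kc, chi_kc, kc_add, kc_add]
      ring
    rw [e]
    refine Ideal.add_mem _ (Ideal.add_mem _ (Ideal.mul_mem_left _ _ r1)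
      (Ideal.mul_mem_left _ _ r2)) ?_
    rw [show k + 1 = 1 + k from add_comm _ _]
    refine Ideal.add_mem _ (pmul mψ mb) (Ideal.add_mem _ (pmul (mem_one ?_) z1)
      (pmul (mem_one ?_) z2))
    · simp only [ev2_sub, ev2_add, ev2_mul, ev2_kc]
      linear_combination h2
    · simp only [ev2_sub, ev2_add, ev2_mul, ev2_kc]
      linear_combination h4

theorem solve2 (V : VF α β t x w1 w2) {ψ : ℂ[X][X]}
    (hc1 : ∀ i j : ℕ, ev2 ψ t x + w1 + i * w1 + j * w2 ≠ 0)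
    (hc2 : ∀ i j : ℕ, ev2 ψ t x + w2 + i * w1 + j * w2 ≠ 0) (K : ℕ) (A B : ℂ[X][X]) :
    ∃ a b, chi α β a + ψ * a + (dt α * a + dt β * b) - A ∈ mx t x ^ K ∧
      chi α β b + ψ * b + (derivative α * a + derivative β * b) - B ∈ mx t x ^ K := by
  induction K with
  | zero => exact ⟨0, 0, mx_zero _ _ _, mx_zero _ _ _⟩
  | succ K ih =>
    obtain ⟨a, b, h1, h2⟩ := ih
    obtain ⟨a', ha, b', hb, h3, h4⟩ := graded2 V hc1 hc2 K h1 h2
    refine ⟨a - a', b - b', ?_, ?_⟩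
    · have e : chi α β (a - a') + ψ * (a - a') + (dt α * (a - a') + dt β * (b - b')) - A =
          -(chi α β a' + ψ * a' + (dt α * a' + dt β * b') -
            (chi α β a + ψ * a + (dt α * a + dt β * b) - A)) := by
        rw [chi_sub]
        ring
      rw [e]
      exact Ideal.neg_mem_iff _ |>.2 h3
    · have e : chi α β (b - b') + ψ * (b - b') + (derivative α * (a - a') +
          derivative β * (b - b')) - B =
          -(chi α β b' + ψ * b' + (derivative α * a' + derivative β * b') -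
            (chi α β b + ψ * b + (derivative α * a + derivative β * b) - B)) := by
        rw [chi_sub]
        ring
      rw [e]
      exact Ideal.neg_mem_iff _ |>.2 h4

theorem inj2 (V : VF α β t x w1 w2) {ψ : ℂ[X][X]}
    (hc1 : ∀ i j : ℕ, ev2 ψ t x + w1 + i * w1 + j * w2 ≠ 0)
    (hc2 : ∀ i j : ℕ, ev2 ψ t x + w2 + i * w1 + j * w2 ≠ 0) {K : ℕ} {Q κ : ℂ[X][X]}
    (hQ : chi α β Q = κ * Q) {a b : ℂ[X][X]}
    (h1 : chi α β a + ψ * a + (dt α * a + dt β * b) ∈ Ideal.span {Q} ⊔ mx t x ^ K)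
    (h2 : chi α β b + ψ * b + (derivative α * a + derivative β * b) ∈
      Ideal.span {Q} ⊔ mx t x ^ K) :
    a ∈ Ideal.span {Q} ⊔ mx t x ^ K ∧ b ∈ Ideal.span {Q} ⊔ mx t x ^ K := by
  set N : Ideal ℂ[X][X] := Ideal.span {Q} ⊔ mx t x ^ K with hN
  have hKN : mx t x ^ K ≤ N := le_sup_right
  have := fin_quot2 N hKN
  have hchi : ∀ P ∈ N, chi α β P ∈ N := by
    intro P hP
    obtain ⟨p, hp, q, hq, rfl⟩ := Submodule.mem_sup.1 hP
    obtain ⟨s, rfl⟩ := Ideal.mem_span_singleton'.1 hp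
    rw [chi_add, chi_mul, hQ]
    refine Ideal.add_mem _ ?_ (hKN (chi_mem V.a0 V.b0 hq))
    have e : chi α β s * Q + s * (κ * Q) = (chi α β s + s * κ) * Q := by ring
    rw [e]
    exact Submodule.mem_sup_left (Ideal.mem_span_singleton'.2 ⟨_, rfl⟩)
  have h3 := inj_of_surj ((N.restrictScalars ℂ).prod (N.restrictScalars ℂ)) (T2 α β ψ)
    (fun P hP => ⟨Ideal.add_mem _ (Ideal.add_mem _ (hchi _ hP.1) (Ideal.mul_mem_left _ _ hP.1))
        (Ideal.add_mem _ (Ideal.mul_mem_left _ _ hP.1) (Ideal.mul_mem_left _ _ hP.2)),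
      Ideal.add_mem _ (Ideal.add_mem _ (hchi _ hP.2) (Ideal.mul_mem_left _ _ hP.2))
        (Ideal.add_mem _ (Ideal.mul_mem_left _ _ hP.1) (Ideal.mul_mem_left _ _ hP.2))⟩)
    (fun ξ => by
      obtain ⟨a', b', k1, k2⟩ := solve2 V hc1 hc2 K ξ.1 ξ.2
      exact ⟨(a', b'), hKN k1, hKN k2⟩) (ζ := (a, b)) ⟨h1, h2⟩
  exact ⟨h3.1, h3.2⟩

end Pool.Agent.H941.QH
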