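import Pool.Agent.H941.QH.Field

set_option autoImplicit false
set_option linter.unusedSectionVars false
set_option linter.unusedVariables false

/-! # Quasi-homogeneous points of forms -/

namespace Pool.Agent.H941.QH

open MvPolynomial Pool.Agent.Helper748.MC Pool.Agent.Helper748.TP Pool.Agent.H941.TF
  Pool.Agent.H941.SC Pool.Agent.H941.NC Pool.Agent.H941.ND

/-- **Ordinary double points.** Only the multiples of `z` are in the kernel of the Hessian matrix
of `H` at `z` (it has rank `2`). -/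
def NodeAt (H : MvPolynomial (Fin 3) ℂ) (z : Fin 3 → ℂ) : Prop :=
  ∀ w : Fin 3 → ℂ, (∀ i, ∑ j, eval z (pderiv i (pderiv j H)) * w j = 0) → ∃ c : ℂ, w = c • z

/-- **Non-resonant quasi-homogeneous points.** There is a homogeneous vector field `∑ θ i ∂ i`
with `∑ θ i ∂ i f = 0`, which fixes the point `z` of the projective plane, `θ (z) = c z`, and whose
action on the tangent space of the plane at `z` has integer eigenvalues `w1`, `w2`: the
characteristic polynomial of its Jacobian matrix at `z` is `(s - k c) (s - c - w1) (s - c - w2)`;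
the number `3 c` is not an integer. (If `f` has weight `N` at `z` for positive weights `w1`, `w2`
of local coordinates, then `c = -N / d`.) -/
def QHAt (f : MvPolynomial (Fin 3) ℂ) (z : Fin 3 → ℂ) : Prop :=
  ∃ (k : ℕ) (θ : Fin 3 → MvPolynomial (Fin 3) ℂ) (c : ℂ) (w1 w2 : ℤ),
    (∀ i, (θ i).IsHomogeneous k) ∧ ∑ i, θ i * pderiv i f = 0 ∧ (∀ i, eval z (θ i) = c * z i) ∧
    (∀ s : ℂ, (s • (1 : Matrix (Fin 3) (Fin 3) ℂ) -
      Matrix.of fun i j => eval z (pderiv j (θ i))).det = (s - k * c) * (s - c - w1) *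
        (s - c - w2)) ∧
    ∀ m : ℤ, 3 * c ≠ m

theorem two_eig (p q r s w1 w2 : ℂ) (ht : p + s = w1 + w2) (hd : p * s - q * r = w1 * w2) :
    ∃ u1 u2 v1 v2 μ : ℂ, u1 * v2 - u2 * v1 ≠ 0 ∧ p * u1 + q * u2 = w1 * u1 ∧
      r * u1 + s * u2 = w1 * u2 ∧ p * v1 + q * v2 = w2 * v1 + μ * u1 ∧
      r * v1 + s * v2 = w2 * v2 + μ * u2 := by
  have h0 : (p - w1) * (s - w1) = q * r := by linear_combination hd - w1 * ht
  have key : ∃ u1 u2 : ℂ, (u1 ≠ 0 ∨ u2 ≠ 0) ∧ p * u1 + q * u2 = w1 * u1 ∧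
      r * u1 + s * u2 = w1 * u2 := by
    by_cases hq : q = 0
    · by_cases hs : s = w1
      · exact ⟨0, 1, Or.inr one_ne_zero, by rw [hq]; ring, by rw [hs]; ring⟩
      · have hp : p = w1 := by
          rw [hq, zero_mul] at h0
          exact sub_eq_zero.1 ((mul_eq_zero.1 h0).resolve_right (sub_ne_zero.2 hs))
        exact ⟨w1 - s, r, Or.inl (sub_ne_zero.2 (Ne.symm hs)), by rw [hq, hp]; ring, by ring⟩
    · exact ⟨q, w1 - p, Or.inl hq, by ring, by linear_combination -h0⟩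
  obtain ⟨u1, u2, hu, h1, h2⟩ := key
  by_cases h3 : u1 = 0
  · have h4 : u2 ≠ 0 := hu.resolve_left (fun h => h h3)
    refine ⟨u1, u2, 1, 0, r / u2, ?_, h1, h2, ?_, ?_⟩
    · rw [mul_zero, mul_one, zero_sub]
      exact neg_ne_zero.2 h4
    · field_simp
      linear_combination u2 * ht - h2
    · field_simp
      ring
  · refine ⟨u1, u2, 0, 1, q / u1, ?_, h1, h2, ?_, ?_⟩
    · rw [mul_zero, mul_one, sub_zero]
      exact h3
    · field_simp
      ring
    · field_simp
      linear_combination u1 * ht - h1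

theorem qp_of {d : ℕ} {F : MvPolynomial (Fin 3) ℂ} (hF : F.IsHomogeneous d)
    (hF0 : ch F ≠ 0) {t x : ℂ} (h : QHAt F ![t, 1, x]) {Q hxQ htQ : Polynomial (Polynomial ℂ)}
    {σ : ℂ} (hσ : σ * d = -3) (HxE : Polynomial.derivative (ch F) * Q = ch F * hxQ)
    (HtE : dt (ch F) * Q = ch F * htQ) : QP Q (kc σ * hxQ) (kc σ * htQ) t x := by
  obtain ⟨k, θ, c, w1, w2, hθ, h1, h2, h3, h4⟩ := h
  have hX0 : ch (X 0) = Polynomial.C Polynomial.X := by simp [ch]
  have hX1 : ch (X 1) = 1 := by simp [ch]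
  have hX2 : ch (X 2) = Polynomial.X := by simp [ch]
  have dX0 : dt (Polynomial.C Polynomial.X : Polynomial (Polynomial ℂ)) = 1 := by
    rw [dt_C, Polynomial.derivative_X, Polynomial.C_1]
  have dX2 : dt (Polynomial.X : Polynomial (Polynomial ℂ)) = 0 := by
    have := dtξ 0
    rw [Polynomial.C_0, Polynomial.C_0, sub_zero] at this
    exact this
  have z0 : eval ![t, 1, x] (θ 0) = c * t := h2 0
  have z1 : eval ![t, 1, x] (θ 1) = c := by
    rw [h2 1]
    exact mul_one c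
  have z2 : eval ![t, 1, x] (θ 2) = c * x := h2 2
  have eu : ∀ i, t * eval ![t, 1, x] (pderiv 0 (θ i)) + eval ![t, 1, x] (pderiv 1 (θ i)) +
      x * eval ![t, 1, x] (pderiv 2 (θ i)) = k * eval ![t, 1, x] (θ i) := by
    intro i
    have e := congrArg (eval ![t, 1, x]) (hθ i).sum_X_mul_pderiv
    rw [Fin.sum_univ_three, nsmul_eq_mul, map_mul, map_natCast, map_add, map_add, map_mul,
      map_mul, map_mul, eval_X, eval_X, eval_X] at e
    change t * _ + 1 * _ + x * _ = _ at e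
    rw [one_mul] at e
    exact e
  have eu0 := eu 0
  have eu1 := eu 1
  have eu2 := eu 2
  rw [z0] at eu0
  rw [z1] at eu1
  rw [z2] at eu2
  have h5 : ∀ s : ℂ, (s • (1 : Matrix (Fin 3) (Fin 3) ℂ) -
      Matrix.of fun i j => eval ![t, 1, x] (pderiv j (θ i))).det =
      (s - k * c) * ((s - c) ^ 2 - ((eval ![t, 1, x] (pderiv 0 (θ 0)) - c -
        t * eval ![t, 1, x] (pderiv 0 (θ 1))) + (eval ![t, 1, x] (pderiv 2 (θ 2)) - c -
        x * eval ![t, 1, x] (pderiv 2 (θ 1)))) * (s - c) +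
        ((eval ![t, 1, x] (pderiv 0 (θ 0)) - c - t * eval ![t, 1, x] (pderiv 0 (θ 1))) *
        (eval ![t, 1, x] (pderiv 2 (θ 2)) - c - x * eval ![t, 1, x] (pderiv 2 (θ 1))) -
        (eval ![t, 1, x] (pderiv 0 (θ 2)) - x * eval ![t, 1, x] (pderiv 0 (θ 1))) *
        (eval ![t, 1, x] (pderiv 2 (θ 0)) - t * eval ![t, 1, x] (pderiv 2 (θ 1))))) := by
    intro s
    rw [Matrix.det_fin_three]
    simp only [Matrix.sub_apply, Matrix.smul_apply, Matrix.one_apply, Matrix.of_apply,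
      smul_eq_mul]
    simp only [Fin.isValue, if_true, Fin.reduceEq, if_false, mul_one, mul_zero, zero_sub]
    have f0 : eval ![t, 1, x] (pderiv 1 (θ 0)) = k * (c * t) -
      t * eval ![t, 1, x] (pderiv 0 (θ 0)) - x * eval ![t, 1, x] (pderiv 2 (θ 0)) := by
      linear_combination eu0
    have f1 : eval ![t, 1, x] (pderiv 1 (θ 1)) = k * c -
      t * eval ![t, 1, x] (pderiv 0 (θ 1)) - x * eval ![t, 1, x] (pderiv 2 (θ 1)) := by
      linear_combination eu1
    have f2 : eval ![t, 1, x] (pderiv 1 (θ 2)) = k * (c * x) -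
      t * eval ![t, 1, x] (pderiv 0 (θ 2)) - x * eval ![t, 1, x] (pderiv 2 (θ 2)) := by
      linear_combination eu2
    rw [f0, f1, f2]
    ring
  set p := eval ![t, 1, x] (pderiv 0 (θ 0)) - c - t * eval ![t, 1, x] (pderiv 0 (θ 1)) with hp
  set s' := eval ![t, 1, x] (pderiv 2 (θ 2)) - c - x * eval ![t, 1, x] (pderiv 2 (θ 1)) with hs'
  set q := eval ![t, 1, x] (pderiv 0 (θ 2)) - x * eval ![t, 1, x] (pderiv 0 (θ 1)) with hq
  set r := eval ![t, 1, x] (pderiv 2 (θ 0)) - t * eval ![t, 1, x] (pderiv 2 (θ 1)) with hr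
  have h6 : ∀ s : ℂ, s - k * c ≠ 0 → (s - c) ^ 2 - (p + s') * (s - c) + (p * s' - q * r) =
      (s - c - w1) * (s - c - w2) := by
    intro s hs
    have h7 := (h5 s).symm.trans (h3 s)
    rw [mul_assoc] at h7
    exact mul_left_cancel₀ hs h7
  have g1 := h6 (k * c + 1) (by rw [add_sub_cancel_left]; exact one_ne_zero)
  have g2 := h6 (k * c + 2) (by rw [add_sub_cancel_left]; exact two_ne_zero)
  have htr : p + s' = w1 + w2 := by linear_combination g1 - g2
  have hdt : p * s' - q * r = w1 * w2 := by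
    linear_combination g1 + ((k : ℂ) * c + 1 - c) * htr
  obtain ⟨u1, u2, v1, v2, μ, n0, n1, n2, n3, n4⟩ := two_eig p q r s' w1 w2 htr hdt
  refine ⟨ch (θ 0) - Polynomial.C Polynomial.X * ch (θ 1), ch (θ 2) - Polynomial.X * ch (θ 1),
    kc 3 * ch (θ 1), w1, w2, ⟨?_, ?_, u1, u2, v1, v2, μ, n0, ?_, ?_, ?_, ?_⟩, ?_, ?_⟩
  · rw [ev2_sub, ev2_mul, ev_ch, ev_ch, ev2_C, Polynomial.eval_X, z0, z1]
    ring
  · rw [ev2_sub, ev2_mul, ev_ch, ev_ch, ev2_X, z2, z1]
    ring
  · rw [dt_sub, dt_sub, dt_mul, dt_mul, dX0, dX2, ← ch_pderiv0, ← ch_pderiv0, ← ch_pderiv0,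
      ev2_sub, ev2_sub, ev2_add, ev2_add, ev2_mul, ev2_mul, ev2_mul, ev2_mul, ev_ch, ev_ch,
      ev_ch, ev_ch, ev2_C, Polynomial.eval_X, ev2_X, ev2_zero, z1]
    have o : ev2 (1 : Polynomial (Polynomial ℂ)) t x = 1 := by
      rw [← Polynomial.C_1, ev2_C, Polynomial.eval_one]
    rw [o]
    linear_combination n1
  · rw [Polynomial.derivative_sub, Polynomial.derivative_sub, Polynomial.derivative_mul,
      Polynomial.derivative_mul, Polynomial.derivative_C, Polynomial.derivative_X,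
      ← ch_pderiv2, ← ch_pderiv2, ← ch_pderiv2,
      ev2_sub, ev2_sub, ev2_add, ev2_add, ev2_mul, ev2_mul, ev2_mul, ev2_mul, ev_ch, ev_ch,
      ev_ch, ev_ch, ev2_C, Polynomial.eval_X, ev2_X, ev2_zero, z1]
    have o : ev2 (1 : Polynomial (Polynomial ℂ)) t x = 1 := by
      rw [← Polynomial.C_1, ev2_C, Polynomial.eval_one]
    rw [o]
    linear_combination n2
  · rw [dt_sub, dt_sub, dt_mul, dt_mul, dX0, dX2, ← ch_pderiv0, ← ch_pderiv0, ← ch_pderiv0,
      ev2_sub, ev2_sub, ev2_add, ev2_add, ev2_mul, ev2_mul, ev2_mul, ev2_mul, ev_ch, ev_ch,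
      ev_ch, ev_ch, ev2_C, Polynomial.eval_X, ev2_X, ev2_zero, z1]
    have o : ev2 (1 : Polynomial (Polynomial ℂ)) t x = 1 := by
      rw [← Polynomial.C_1, ev2_C, Polynomial.eval_one]
    rw [o]
    linear_combination n3
  · rw [Polynomial.derivative_sub, Polynomial.derivative_sub, Polynomial.derivative_mul,
      Polynomial.derivative_mul, Polynomial.derivative_C, Polynomial.derivative_X,
      ← ch_pderiv2, ← ch_pderiv2, ← ch_pderiv2,
      ev2_sub, ev2_sub, ev2_add, ev2_add, ev2_mul, ev2_mul, ev2_mul, ev2_mul, ev_ch, ev_ch,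
      ev_ch, ev_ch, ev2_C, Polynomial.eval_X, ev2_X, ev2_zero, z1]
    have o : ev2 (1 : Polynomial (Polynomial ℂ)) t x = 1 := by
      rw [← Polynomial.C_1, ev2_C, Polynomial.eval_one]
    rw [o]
    linear_combination n4
  · have hEu := congrArg ch hF.sum_X_mul_pderiv
    rw [Fin.sum_univ_three, nsmul_eq_mul, map_add, map_add, map_mul, map_mul, map_mul, map_mul,
      hX0, hX1, hX2, one_mul, ch_pderiv0, ch_pderiv2, map_natCast] at hEu
    have hTh := congrArg ch h1
    rw [Fin.sum_univ_three, map_add, map_add, map_mul, map_mul, map_mul, map_zero, ch_pderiv0,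
      ch_pderiv2] at hTh
    have e1 : (kc σ * (d : Polynomial (Polynomial ℂ))) = -kc 3 := by
      have : (d : Polynomial (Polynomial ℂ)) = kc (d : ℂ) := by simp [kc]
      rw [this, ← kc_mul, hσ, kc, kc, Polynomial.C_neg, Polynomial.C_neg]
    refine mul_left_cancel₀ hF0 ?_
    linear_combination (-(kc σ * (ch (θ 0) - Polynomial.C Polynomial.X * ch (θ 1)))) * HtE -
      (kc σ * (ch (θ 2) - Polynomial.X * ch (θ 1))) * HxE + kc σ * Q * hTh -
      kc σ * Q * ch (θ 1) * hEu - Q * ch (θ 1) * ch F * e1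
  · intro m
    rw [ev2_mul, ev2_kc, ev_ch, z1]
    exact h4 m

end Pool.Agent.H941.QH
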