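import Pool.Agent.H941.QH.Lina

set_option autoImplicit false
set_option linter.unusedSectionVars false
set_option linter.unusedVariables false

/-! # The singular points of a reduced curve -/

namespace Pool.Agent.H941.QH

open MvPolynomial Pool.Agent.Helper748.MC Pool.Agent.Helper748.TP Pool.Agent.H941.TF
  Pool.Agent.H941.SC Pool.Agent.H941.NC Pool.Agent.H941.ND

theorem pderiv2_sw (p : MvPolynomial (Fin 3) ℂ) : pderiv 2 (sw p) = sw (pderiv 2 p) := by
  have h := pderiv_rename (R := ℂ) (Equiv.swap (0 : Fin 3) 1).injective 2 p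
  have h2 : (Equiv.swap (0 : Fin 3) 1) 2 = 2 := by decide
  rw [h2] at h
  exact h

theorem sing_aff {e : ℕ} {H : MvPolynomial (Fin 3) ℂ} (hH : H.IsHomogeneous e) (he : 1 ≤ e)
    (si : (aeval ![(1 : Polynomial ℂ), 0, Polynomial.X] H).Separable)
    (ni : (aeval ![(1 : Polynomial ℂ), 0, Polynomial.X] H).natDegree = e) :
    ∃ Z : Finset (Fin 3 → ℂ), ∀ z : Fin 3 → ℂ, z ≠ 0 → eval z H = 0 →
      (∀ i, eval z (pderiv i H) = 0) → ∃ z0 ∈ Z, ∃ c : ℂ, c ≠ 0 ∧ z = fun i => c * z0 i := by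
  classical
  have hS0 := ev_top hH (by omega) ni
  have si' := si
  rw [← aeval_sw, ← evt_ch] at si'
  obtain ⟨Qm, Qd⟩ := monic_ch hH hS0
  have iQ := inf_ch hH hS0
  set c := (eval ![0, 0, 1] H)⁻¹ with hc
  have hc0 : c ≠ 0 := inv_ne_zero hS0
  have hsi : (evt 0 (kc c * ch (sw H))).Separable := by
    rw [map_mul, evt_kc]
    exact si'.unit_mul (Polynomial.isUnit_C.2 hc0.isUnit)
  set Q : Polynomial (Polynomial ℂ) := kc c * ch H with hQ
  have hdisc : ∃ (D0 : Polynomial ℂ) (α β : Polynomial (Polynomial ℂ)), D0 ≠ 0 ∧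
      Polynomial.C D0 = α * Q + β * Polynomial.derivative Q := by
    obtain ⟨X', -, -, -, P⟩ := iQ.par Qm Qd (by omega) hsi
    obtain ⟨u, h1, h2⟩ := (P.root.and P.inj).exists
    refine disc' (t₀ := u⁻¹) Qm (by rw [Qd]; omega) ?_
    rw [h1, nod]
    exact Polynomial.separable_prod_X_sub_C_iff.2 h2
  obtain ⟨D0, α, β, hD0, hαβ⟩ := hdisc
  refine ⟨D0.roots.toFinset.biUnion fun t => (evt t Q).roots.toFinset.image fun x => ![t, 1, x],
    fun z hz h0 hd => ?_⟩
  have hz1 : z 1 ≠ 0 := by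
    intro hz1
    by_cases hz0 : z 0 = 0
    · have hz2 : z 2 ≠ 0 := by
        intro hz2
        apply hz
        funext i
        fin_cases i
        · exact hz0
        · exact hz1
        · exact hz2
      have h1 : z = fun i => z 2 * (![0, 0, 1] : Fin 3 → ℂ) i := by
        funext i
        fin_cases i
        · simp [hz0]
        · simp [hz1]
        · simp
      rw [h1, eval_smul_pt hH] at h0
      exact mul_ne_zero (pow_ne_zero e hz2) hS0 h0
    · have h1 : z = fun i => z 0 * (![1, 0, z 2 / z 0] : Fin 3 → ℂ) i := by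
        funext i
        fin_cases i
        · simp
        · simp [hz1]
        · simp [mul_div_cancel₀ _ hz0]
      have h2 := hd 2
      rw [h1, eval_smul_pt hH] at h0
      rw [h1, eval_smul_pt (hH.pderiv (i := 2))] at h2
      have h3 := (mul_eq_zero.1 h0).resolve_left (pow_ne_zero _ hz0)
      have h4 := (mul_eq_zero.1 h2).resolve_left (pow_ne_zero _ hz0)
      rw [← eval_sw, ← ev_ch] at h3 h4
      rw [← pderiv2_sw, ch_pderiv2] at h4
      obtain ⟨p, q, hpq⟩ := si'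
      have h5 := congrArg (Polynomial.eval (z 2 / z 0)) hpq
      rw [Polynomial.eval_add, Polynomial.eval_mul, Polynomial.eval_mul, Polynomial.eval_one,
        ← evt_der] at h5
      have h6 : Polynomial.eval (z 2 / z 0) (evt 0 (ch (sw H))) = 0 := h3
      have h7 : Polynomial.eval (z 2 / z 0) (evt 0 (Polynomial.derivative (ch (sw H)))) = 0 := h4
      rw [h6, h7, mul_zero, mul_zero, add_zero] at h5
      exact zero_ne_one h5
  have h1 : z = fun i => z 1 * (![z 0 / z 1, 1, z 2 / z 1] : Fin 3 → ℂ) i := by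
    funext i
    fin_cases i
    · simp [mul_div_cancel₀ _ hz1]
    · simp
    · simp [mul_div_cancel₀ _ hz1]
  refine ⟨![z 0 / z 1, 1, z 2 / z 1], ?_, z 1, hz1, h1⟩
  have h2 := hd 2
  rw [h1, eval_smul_pt hH] at h0
  rw [h1, eval_smul_pt (hH.pderiv (i := 2))] at h2
  have h3 := (mul_eq_zero.1 h0).resolve_left (pow_ne_zero _ hz1)
  have h4 := (mul_eq_zero.1 h2).resolve_left (pow_ne_zero _ hz1)
  rw [← ev_ch] at h3 h4
  rw [ch_pderiv2] at h4
  have h5 : ev2 Q (z 0 / z 1) (z 2 / z 1) = 0 := by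
    rw [hQ, ev2_mul, h3, mul_zero]
  have h6 : ev2 (Polynomial.derivative Q) (z 0 / z 1) (z 2 / z 1) = 0 := by
    rw [hQ, der_kc, ev2_mul, h4, mul_zero]
  have h7 : D0.eval (z 0 / z 1) = 0 := by
    have h8 := congrArg (fun P => ev2 P (z 0 / z 1) (z 2 / z 1)) hαβ
    beta_reduce at h8
    rw [ev2_C, ev2_add, ev2_mul α, ev2_mul β, h5, h6, mul_zero, mul_zero, add_zero] at h8
    exact h8
  rw [Finset.mem_biUnion]
  refine ⟨z 0 / z 1, ?_, ?_⟩
  · rw [Multiset.mem_toFinset, Polynomial.mem_roots hD0]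
    exact h7
  · rw [Finset.mem_image]
    refine ⟨z 2 / z 1, ?_, rfl⟩
    rw [Multiset.mem_toFinset, Polynomial.mem_roots (evt_monic Qm _).ne_zero]
    exact h5

/-- The singular points of a reduced curve are finitely many. -/
theorem sing_fin {e : ℕ} {H : MvPolynomial (Fin 3) ℂ} (hH : H.IsHomogeneous e) (he : 1 ≤ e)
    (hsq : Squarefree H) :
    ∃ Z : Finset (Fin 3 → ℂ), ∀ z : Fin 3 → ℂ, z ≠ 0 → eval z H = 0 →
      (∀ i, eval z (pderiv i H) = 0) → ∃ z0 ∈ Z, ∃ c : ℂ, c ≠ 0 ∧ z = fun i => c * z0 i := by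
  classical
  obtain ⟨A, -, hA, hsep, hdeg, -, -, -⟩ := bertini' hH (by omega) hsq (ι := Empty)
    (fun i => i.elim) (fun i => i.elim) (fun i => i.elim)
  have hu : IsUnit A.det := isUnit_iff_ne_zero.2 hA
  obtain ⟨Z, hZ⟩ := sing_aff (lin_homog A hH) he hsep hdeg
  refine ⟨Z.image fun z i => ∑ j, A i j * z j, fun z hz h0 hd => ?_⟩
  have e1 : (fun i => ∑ j, A i j * (∑ k, A⁻¹ j k * z k)) = z := by
    have h1 : A.mulVec (A⁻¹.mulVec z) = z := by
      rw [Matrix.mulVec_mulVec, Matrix.mul_nonsing_inv A hu, Matrix.one_mulVec]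
    exact h1
  obtain ⟨z0, hz0, c, hc, hzc⟩ := hZ (fun j => ∑ k, A⁻¹ j k * z k) (by
      intro h
      apply hz
      rw [← e1]
      funext i
      have h2 : ∀ j, ∑ k, A⁻¹ j k * z k = 0 := fun j => congrFun h j
      simp [h2])
    (by rw [eval_lin, e1]; exact h0)
    (by
      intro i
      rw [eval_pderiv_lin, e1]
      have h2 : (fun i => eval z (pderiv i H)) = 0 := _root_.funext hd
      rw [h2, Matrix.zero_vecMul]
      rfl)
  refine ⟨fun i => ∑ j, A i j * z0 j, Finset.mem_image_of_mem _ hz0, c, hc, ?_⟩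
  rw [← e1]
  funext i
  rw [Finset.mul_sum]
  refine Finset.sum_congr rfl fun j _ => ?_
  have h2 : ∑ k, A⁻¹ j k * z k = c * z0 j := congrFun hzc j
  rw [h2]
  ring

/-- the Hessian form -/
noncomputable def hf (H : MvPolynomial (Fin 3) ℂ) (z : Fin 3 → ℂ) : MvPolynomial (Fin 3) ℂ :=
  ∑ i, ∑ j, C (eval z (pderiv i (pderiv j H))) * X i * X j

theorem eval_hf (H : MvPolynomial (Fin 3) ℂ) (z q : Fin 3 → ℂ) : eval q (hf H z) =
    ∑ i, ∑ j, eval z (pderiv i (pderiv j H)) * q i * q j := by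
  simp [hf]

theorem hf_smul {e : ℕ} {H : MvPolynomial (Fin 3) ℂ} (hH : H.IsHomogeneous e) (c : ℂ)
    (z : Fin 3 → ℂ) : hf H (fun i => c * z i) = C (c ^ (e - 1 - 1)) * hf H z := by
  rw [hf, hf, Finset.mul_sum]
  refine Finset.sum_congr rfl fun i _ => ?_
  rw [Finset.mul_sum]
  refine Finset.sum_congr rfl fun j _ => ?_
  rw [eval_smul_pt ((hH.pderiv (i := j)).pderiv (i := i)), C_mul]
  ring

theorem hf_ne {H : MvPolynomial (Fin 3) ℂ} {z : Fin 3 → ℂ} (h : NodeAt H z) : hf H z ≠ 0 := by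
  intro h0
  have c20 := congrArg (eval z) (pderiv_comm' (0 : Fin 3) 2 H)
  have c10 := congrArg (eval z) (pderiv_comm' (0 : Fin 3) 1 H)
  have c12 := congrArg (eval z) (pderiv_comm' (2 : Fin 3) 1 H)
  have he : ∀ q : Fin 3 → ℂ, ∑ i, ∑ j, eval z (pderiv i (pderiv j H)) * q i * q j = 0 := by
    intro q
    rw [← eval_hf, h0, map_zero]
  simp only [Fin.sum_univ_three] at he
  have a0 : eval z (pderiv 0 (pderiv 0 H)) = 0 := by simpa using he ![1, 0, 0]
  have a1 : eval z (pderiv 1 (pderiv 1 H)) = 0 := by simpa using he ![0, 1, 0]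
  have a2 : eval z (pderiv 2 (pderiv 2 H)) = 0 := by simpa using he ![0, 0, 1]
  have b01 : eval z (pderiv 0 (pderiv 1 H)) + eval z (pderiv 1 (pderiv 0 H)) = 0 := by
    simpa [a0, a1, a2] using he ![1, 1, 0]
  have b02 : eval z (pderiv 0 (pderiv 2 H)) + eval z (pderiv 2 (pderiv 0 H)) = 0 := by
    simpa [a0, a1, a2] using he ![1, 0, 1]
  have b12 : eval z (pderiv 1 (pderiv 2 H)) + eval z (pderiv 2 (pderiv 1 H)) = 0 := by
    simpa [a0, a1, a2] using he ![0, 1, 1]
  have d01 : eval z (pderiv 0 (pderiv 1 H)) = 0 := by linear_combination b01 / 2 + c10 / 2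
  have d10 : eval z (pderiv 1 (pderiv 0 H)) = 0 := by linear_combination b01 / 2 - c10 / 2
  have d02 : eval z (pderiv 0 (pderiv 2 H)) = 0 := by linear_combination b02 / 2 + c20 / 2
  have d20 : eval z (pderiv 2 (pderiv 0 H)) = 0 := by linear_combination b02 / 2 - c20 / 2
  have d12 : eval z (pderiv 1 (pderiv 2 H)) = 0 := by linear_combination b12 / 2 - c12 / 2
  have d21 : eval z (pderiv 2 (pderiv 1 H)) = 0 := by linear_combination b12 / 2 + c12 / 2
  have hall : ∀ w : Fin 3 → ℂ, ∃ c : ℂ, w = c • z := by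
    intro w
    refine h w fun i => ?_
    rw [Fin.sum_univ_three]
    fin_cases i
    · change eval z (pderiv 0 (pderiv 0 H)) * _ + eval z (pderiv 0 (pderiv 1 H)) * _ +
        eval z (pderiv 0 (pderiv 2 H)) * _ = 0
      rw [a0, d01, d02]
      ring
    · change eval z (pderiv 1 (pderiv 0 H)) * _ + eval z (pderiv 1 (pderiv 1 H)) * _ +
        eval z (pderiv 1 (pderiv 2 H)) * _ = 0
      rw [d10, a1, d12]
      ring
    · change eval z (pderiv 2 (pderiv 0 H)) * _ + eval z (pderiv 2 (pderiv 1 H)) * _ +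
        eval z (pderiv 2 (pderiv 2 H)) * _ = 0
      rw [d20, d21, a2]
      ring
  obtain ⟨c, hc⟩ := hall ![1, 0, 0]
  obtain ⟨c', hc'⟩ := hall ![0, 1, 0]
  have k0 : (1 : ℂ) = c * z 0 := congrFun hc 0
  have k1 : (0 : ℂ) = c * z 1 := congrFun hc 1
  have k2 : (1 : ℂ) = c' * z 1 := congrFun hc' 1
  have k3 : c ≠ 0 := by
    rintro rfl
    rw [zero_mul] at k0
    exact one_ne_zero k0
  have k4 : z 1 = 0 := (mul_eq_zero.1 k1.symm).resolve_left k3
  rw [k4, mul_zero] at k2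
  exact one_ne_zero k2

/-- Directions which are not tangent to the branches of the nodes. -/
theorem good_dir {e : ℕ} {H : MvPolynomial (Fin 3) ℂ} (hH : H.IsHomogeneous e) (he : 1 ≤ e)
    (hsq : Squarefree H) : ∃ T : MvPolynomial (Fin 3) ℂ, T ≠ 0 ∧ ∀ q, eval q T ≠ 0 →
      ∀ z : Fin 3 → ℂ, z ≠ 0 → eval z H = 0 → (∀ i, eval z (pderiv i H) = 0) → NodeAt H z →
        eval q (hf H z) ≠ 0 := by
  classical
  obtain ⟨Z, hZ⟩ := sing_fin hH he hsq
  refine ⟨∏ z0 ∈ Z, if hf H z0 = 0 then 1 else hf H z0, ?_, fun q hq z hz h0 hd hn => ?_⟩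
  · refine Finset.prod_ne_zero_iff.2 fun z0 _ => ?_
    split_ifs with h
    · exact one_ne_zero
    · exact h
  · obtain ⟨z0, hz0, c, hc, hzc⟩ := hZ z hz h0 hd
    have h1 := hf_ne hn
    rw [hzc, hf_smul hH] at h1 ⊢
    have h2 := right_ne_zero_of_mul h1
    rw [map_mul, eval_C]
    refine mul_ne_zero (pow_ne_zero _ hc) ?_
    rw [map_prod] at hq
    have h3 := Finset.prod_ne_zero_iff.1 hq z0 hz0
    rwa [if_neg h2] at h3

end Pool.Agent.H941.QH
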